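import Mathlib
import Pool.Agent.Lib.MP_b69e89_co.Rot

/-!
# MP_b69e89_co : prescribed faces

A multigraph is given by its half-edges `H`, the involution `α` and the vertex `f h` of each
half-edge `h`. `Faces f α P k`: there are `k` directed closed walks in the part `P` which can all
be faces of one rotation system.
-/

namespace KernelCount

open Equiv Equiv.Perm Function Empire

/-- `k` prescribed faces in the part `P` of the multigraph: `S` is the set of their half-edges,
`nxt` the successor on the face, `lab` the number of the face; at each vertex the prescribed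
successions `α h → nxt h` have no cycle, since `r` increases. -/
def Faces {H V : Type} (f : H → V) (α : Perm H) (P : H → Prop) (k : ℕ) : Prop :=
  ∃ (S : Set H) (nxt : H → H) (lab r : H → ℕ),
    (∀ h ∈ S, P h ∧ nxt h ∈ S ∧ f (nxt h) = f (α h) ∧ lab (nxt h) = lab h ∧
      r (α h) < r (nxt h)) ∧
    (∀ h ∈ S, ∀ h' ∈ S, nxt h = nxt h' → h = h') ∧
    (∀ h ∈ S, lab h < k) ∧ (∀ i < k, ∃ h ∈ S, lab h = i) ∧ ∃ h, P h ∧ h ∉ S

end KernelCount
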