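import Mathlib
import Pool.Agent.Lib.MP_b69e89_co_L.Defs

/-!
# MP_b69e89_co : rotation systems with prescribed successions
-/

namespace KernelCount

open Equiv Equiv.Perm Function Empire

/-- cyclic orders at the vertices with prescribed successions without cycles -/
theorem exists_rotation_of_succ {H : Type} [Finite H] (N : ℕ) : ∀ {V : Type} (f : H → V)
    (A : Set H) (φ : H → H) (r : H → ℕ), Nat.card A ≤ N →
    (∀ a ∈ A, f (φ a) = f a ∧ r a < r (φ a)) →
    (∀ a ∈ A, ∀ b ∈ A, φ a = φ b → a = b) →
    ∃ σ : Perm H, (∀ h h', σ.SameCycle h h' ↔ f h = f h') ∧ ∀ a ∈ A, σ a = φ a := by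
  classical
  induction N with
  | zero =>
    intro V f A φ r hN h1 h2
    have hA : ∀ a, a ∉ A := by
      intro a ha
      have h3 : 0 < Nat.card A := by
        have : Nonempty A := ⟨⟨a, ha⟩⟩
        exact Nat.card_pos
      omega
    choose ρ hρ using fun v => exists_cycleOn' {h | f h = v}
    obtain ⟨σ, _, hσ⟩ := exists_sigma f ρ hρ
    exact ⟨σ, hσ, fun a ha => absurd ha (hA a)⟩
  | succ N ih =>
    intro V f A φ r hN h1 h2
    by_cases hA : A.Nonempty
    · -- the element of `A` whose image has the largest rank
      obtain ⟨a, ha, hmax⟩ := Set.exists_max_image A (fun a => r (φ a)) (Set.toFinite A) hA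
      set b := φ a with hb
      have hbA : b ∉ A := by
        intro h
        have h3 : r (φ b) ≤ r (φ a) := hmax b h
        have h4 := (h1 b h).2
        rw [← hb] at h3
        omega
      have hab : a ≠ b := fun h => hbA (h ▸ ha)
      let f' : H → Option V := fun h => if h = b then none else some (f h)
      have hcard : Nat.card (A \ {a} : Set H) ≤ N := by
        have h3 : (A \ {a}).ncard + 1 = A.ncard :=
          Set.ncard_sdiff_singleton_add_one ha (Set.toFinite A)
        have h4 : Nat.card (A \ {a} : Set H) = (A \ {a}).ncard := rfl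
        have h5 : Nat.card A = A.ncard := rfl
        omega
      obtain ⟨σ', hσ1, hσ2⟩ := ih f' (A \ {a}) φ r hcard (by
        rintro c ⟨hc, hca⟩
        refine ⟨?_, (h1 c hc).2⟩
        have hc1 : φ c ≠ b := fun h => hca (h2 c hc a ha h)
        have hc2 : c ≠ b := fun h => hbA (h ▸ hc)
        simp only [f', if_neg hc1, if_neg hc2, (h1 c hc).1]) (by
        rintro c ⟨hc, _⟩ d ⟨hd, _⟩ h
        exact h2 c hc d hd h)
      have hfa : f' a = some (f a) := if_neg hab
      have hfb : f' b = none := if_pos rfl
      have hns : ¬ σ'.SameCycle a b := by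
        rw [hσ1, hfa, hfb]
        simp
      have hbfix : σ' b = b := by
        have h3 : f' (σ' b) = f' b := (hσ1 _ _).1 (sameCycle_apply_left.2 (SameCycle.refl _ _))
        by_contra h4
        rw [hfb] at h3
        simp only [f', if_neg h4] at h3
        exact absurd h3 (by simp)
      refine ⟨σ' * swap a b, ?_, ?_⟩
      · intro u v
        rw [sameCycle_mul_swap_iff hns]
        simp only [hσ1, hfa, hfb]
        have hfab : f b = f a := (h1 a ha).1
        by_cases hu : u = b <;> by_cases hv : v = b
        · simp [hu, hv, hfb]
        · have e1 : f' v = some (f v) := if_neg hv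
          rw [hu, hfb, e1, hfab]
          simp [eq_comm]
        · have e1 : f' u = some (f u) := if_neg hu
          rw [hv, hfb, e1, hfab]
          simp
        · have e1 : f' u = some (f u) := if_neg hu
          have e2 : f' v = some (f v) := if_neg hv
          rw [e1, e2]
          simp only [Option.some.injEq, reduceCtorEq, or_false]
          constructor
          · rintro (h | ⟨h, h'⟩)
            · exact h
            · rw [h, h']
          · exact Or.inl
      · intro c hc
        by_cases hca : c = a
        · rw [hca, Perm.mul_apply, swap_apply_left, hbfix, hb]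
        · have hcb : c ≠ b := fun h => hbA (h ▸ hc)
          rw [Perm.mul_apply, swap_apply_of_ne_of_ne hca hcb]
          exact hσ2 c ⟨hc, hca⟩
    · refine ih f A φ r ?_ h1 h2
      rw [Set.not_nonempty_iff_eq_empty] at hA
      subst hA
      simp

end KernelCount
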