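import Mathlib
import Pool.Agent.Lib.MP_b69e89_co_L.Rot

/-!
# MP_b69e89_co : rotation systems with prescribed faces
-/

namespace KernelCount

open Equiv Equiv.Perm Function Empire

/-- the labels of the faces -/
noncomputable def labEquiv {C : Type} [Fintype C] (k : C → ℕ) :
    {p : C × ℕ // p.2 ≤ k p.1} ≃ Fin (∑ q, (k q + 1)) :=
  Equiv.trans
    { toFun := fun p => (⟨p.1.1, ⟨p.1.2, Nat.lt_succ_of_le p.2⟩⟩ : Σ q : C, Fin (k q + 1))
      invFun := fun s => ⟨(s.1, s.2.1), Nat.le_of_lt_succ s.2.2⟩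
      left_inv := fun _ => rfl
      right_inv := fun _ => rfl }
    (Fintype.equivFinOfCardEq (by simp))

/-- a rotation system in which the prescribed walks are faces -/
theorem exists_rotation_faces {H V C : Type} [Finite H] [Fintype C] (f : H → V) (α : Perm H)
    (hα : ∀ h, α (α h) = h) (mk : V → C) (hmk : ∀ h, mk (f h) = mk (f (α h))) (k : C → ℕ)
    (hk : ∀ q, Faces f α (fun h => mk (f h) = q) (k q)) :
    ∃ σ : Perm H, (∀ h h', σ.SameCycle h h' ↔ f h = f h') ∧
      ∑ q, (k q + 1) ≤ cyc (σ * α) := by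
  classical
  choose Sq nq lq rq h1 h2 h3 h4 h5 using hk
  let S : Set H := {h | h ∈ Sq (mk (f h))}
  let nxt : H → H := fun h => nq (mk (f h)) h
  have hSq : ∀ q h, h ∈ Sq q → h ∈ S := by
    intro q h hh
    have h6 : mk (f h) = q := (h1 q h hh).1
    show h ∈ Sq (mk (f h))
    rw [h6]
    exact hh
  have hn1 : ∀ h ∈ S, nxt h ∈ S := fun h hh => hSq _ _ (h1 _ h hh).2.1
  have hn2 : ∀ h ∈ S, f (nxt h) = f (α h) := fun h hh => (h1 _ h hh).2.2.1
  have hn3 : ∀ h ∈ S, mk (f (nxt h)) = mk (f h) := fun h hh => by rw [hn2 h hh, ← hmk]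
  have hn4 : ∀ h ∈ S, ∀ h' ∈ S, nxt h = nxt h' → h = h' := by
    intro h hh h' hh' he
    have e1 : mk (f h) = mk (f h') := by rw [← hn3 h hh, ← hn3 h' hh', he]
    have hh'' : h' ∈ Sq (mk (f h)) := by
      rw [e1]
      exact hh'
    refine h2 _ h hh h' hh'' ?_
    show nxt h = nq (mk (f h)) h'
    rw [he, e1]
  obtain ⟨σ, hσ1, hσ2⟩ := exists_rotation_of_succ (Nat.card {x | α x ∈ S}) f {x | α x ∈ S}
    (fun x => nxt (α x)) (fun x => rq (mk (f x)) x) le_rfl (by
      intro x hx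
      refine ⟨?_, ?_⟩
      · show f (nxt (α x)) = f x
        rw [hn2 _ hx, hα]
      · have h6 := (h1 _ (α x) hx).2.2.2.2
        rw [hα] at h6
        show rq (mk (f x)) x < rq (mk (f (nxt (α x)))) (nxt (α x))
        rw [hn3 _ hx, hmk x]
        exact h6) (by
      intro a ha b hb hab
      exact α.injective (hn4 _ ha _ hb hab))
  have hφ : ∀ h ∈ S, (σ * α) h = nxt h := by
    intro h hh
    have h6 : α h ∈ {x | α x ∈ S} := by
      show α (α h) ∈ S
      rwa [hα]
    rw [Perm.mul_apply, hσ2 _ h6]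
    show nxt (α (α h)) = nxt h
    rw [hα]
  refine ⟨σ, hσ1, ?_⟩
  have hSinv : ∀ h, (σ * α) h ∈ S ↔ h ∈ S := by
    have hpow : ∀ n : ℕ, ∀ h ∈ S, ((σ * α) ^ n) h ∈ S := by
      intro n
      induction n with
      | zero => intro h hh; exact hh
      | succ n ih =>
        intro h hh
        rw [pow_succ', Perm.mul_apply, hφ _ (ih h hh)]
        exact hn1 _ (ih h hh)
    intro h
    constructor
    · intro hh
      have hpos := (isOfFinOrder_of_finite (σ * α)).orderOf_pos
      have h6 := hpow (orderOf (σ * α) - 1) _ hh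
      rw [← Perm.mul_apply, ← pow_succ, Nat.sub_add_cancel hpos, pow_orderOf_eq_one,
        Perm.one_apply] at h6
      exact h6
    · intro hh
      rw [hφ h hh]
      exact hn1 h hh
  have hcomp : ∀ h, mk (f ((σ * α) h)) = mk (f h) := by
    intro h
    have : f (σ (α h)) = f (α h) :=
      (hσ1 _ _).1 (sameCycle_apply_left.2 (SameCycle.refl _ _))
    rw [Perm.mul_apply, this, ← hmk]
  let L : H → {p : C × ℕ // p.2 ≤ k p.1} := fun h =>
    ⟨(mk (f h), if h ∈ S then lq (mk (f h)) h + 1 else 0), by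
      split_ifs with h6
      · exact h3 _ h h6
      · exact Nat.zero_le _⟩
  refine le_cyc_of_label (fun h => labEquiv k (L h)) ?_ ?_
  · intro h
    refine congrArg _ (Subtype.ext (Prod.ext (hcomp h) ?_))
    show (if (σ * α) h ∈ S then lq (mk (f ((σ * α) h))) ((σ * α) h) + 1 else 0) =
      if h ∈ S then lq (mk (f h)) h + 1 else 0
    by_cases h6 : h ∈ S
    · rw [if_pos h6, if_pos ((hSinv h).2 h6), hcomp, hφ h h6]
      have h7 := (h1 _ h h6).2.2.2.1
      exact congrArg (· + 1) h7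
    · rw [if_neg h6, if_neg (fun h7 => h6 ((hSinv h).1 h7))]
  · intro y
    obtain ⟨⟨⟨q, i⟩, hi⟩, rfl⟩ := (labEquiv k).surjective y
    have hi' : i ≤ k q := hi
    rcases Nat.eq_zero_or_pos i with h6 | h6
    · obtain ⟨h, hh1, hh2⟩ := h5 q
      have hh1' : mk (f h) = q := hh1
      refine ⟨h, congrArg _ (Subtype.ext (Prod.ext hh1' ?_))⟩
      have h7 : h ∉ S := by
        intro h8
        apply hh2
        have h9 : h ∈ Sq (mk (f h)) := h8
        rwa [hh1'] at h9
      show (if h ∈ S then lq (mk (f h)) h + 1 else 0) = i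
      rw [if_neg h7, h6]
    · obtain ⟨h, hh1, hh2⟩ := h4 q (i - 1) (by omega)
      have hh3 : mk (f h) = q := (h1 q h hh1).1
      refine ⟨h, congrArg _ (Subtype.ext (Prod.ext hh3 ?_))⟩
      show (if h ∈ S then lq (mk (f h)) h + 1 else 0) = i
      rw [if_pos (hSq q h hh1), hh3, hh2]
      omega

end KernelCount
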