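import Mathlib
import Pool.Agent.Lib.MP_b69e89_co_L.Defs

/-!
# MP_b69e89_co : short cycles from two non-backtracking words with the same end
-/

namespace KernelCount

open Equiv Equiv.Perm Function

/-- a closed non-backtracking set of half-edges contains a cycle -/
theorem exists_cycle_in {H V : Type} [Finite H] (f : H → V) (α : Perm H)
    (hα : ∀ h, α (α h) = h) (hne : ∀ h, α h ≠ h) (W : Set H) (hW0 : W.Nonempty)
    (hW : ∀ x ∈ W, ∃ y ∈ W, f y = f (α x) ∧ y ≠ α x) :
    ∃ (S : Set H) (nxt : H → H), S.Nonempty ∧ S ⊆ W ∧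
      (∀ h ∈ S, nxt h ∈ S ∧ f (nxt h) = f (α h) ∧ nxt h ≠ α h) ∧
      (∀ h ∈ S, ∀ h' ∈ S, f h = f h' → h = h') ∧
      (∀ h ∈ S, ∀ h' ∈ S, nxt h = nxt h' → h = h') := by
  classical
  obtain ⟨h0, hh0⟩ := hW0
  let T : H → H := fun h => if hh : h ∈ W then (hW h hh).choose else h
  have hT : ∀ h ∈ W, T h ∈ W ∧ f (T h) = f (α h) ∧ T h ≠ α h := by
    intro h hh
    have h1 := (hW h hh).choose_spec
    show (if hh : h ∈ W then (hW h hh).choose else h) ∈ W ∧
      f (if hh : h ∈ W then (hW h hh).choose else h) = f (α h) ∧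
      (if hh : h ∈ W then (hW h hh).choose else h) ≠ α h
    rw [dif_pos hh]
    exact h1
  let hs : ℕ → H := fun k => T^[k] h0
  have hs_succ : ∀ k, hs (k + 1) = T (hs k) := fun k => Function.iterate_succ_apply' T k h0
  have hsW : ∀ k, hs k ∈ W := by
    intro k
    induction k with
    | zero => exact hh0
    | succ k ih =>
      rw [hs_succ]
      exact (hT _ ih).1
  have hT1 : ∀ k, f (T (hs k)) = f (α (hs k)) := fun k => (hT _ (hsW k)).2.1
  have hT2 : ∀ k, T (hs k) ≠ α (hs k) := fun k => (hT _ (hsW k)).2.2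
  let v : ℕ → V := fun k => f (hs k)
  have hex : ∃ j, ∃ i < j, v i = v j := by
    obtain ⟨a, b, hab, he⟩ := Finite.exists_ne_map_eq_of_infinite hs
    rcases lt_or_gt_of_ne hab with h | h
    · exact ⟨b, a, h, congrArg f he⟩
    · exact ⟨a, b, h, congrArg f he.symm⟩
  set j := Nat.find hex with hj
  obtain ⟨i, hij, hvij⟩ := Nat.find_spec hex
  have hinj : ∀ a b, a < j → b < j → v a = v b → a = b := by
    intro a b ha hb hab
    by_contra hne'
    rcases lt_or_gt_of_ne hne' with h | h
    · exact Nat.find_min hex hb ⟨a, h, hab⟩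
    · exact Nat.find_min hex ha ⟨b, h, hab.symm⟩
  have hinj' : ∀ a b, a < j → b < j → hs a = hs b → a = b := fun a b ha hb hab =>
    hinj a b ha hb (congrArg f hab)
  have hlast : hs i ≠ α (hs (j - 1)) := by
    intro h
    have h1 : α (hs i) = hs (j - 1) := by rw [h, hα]
    have h2 : f (hs (i + 1)) = f (hs (j - 1)) := by
      rw [hs_succ, hT1, h1]
    by_cases h3 : i + 1 < j
    · have h4 : i + 1 = j - 1 := hinj _ _ h3 (by omega) h2
      have h5 : hs (i + 1) = α (hs i) := by rw [h4, h1]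
      rw [hs_succ] at h5
      exact hT2 _ h5
    · have h4 : j - 1 = i := by omega
      rw [h4] at h1
      exact hne _ h1
  refine ⟨{h | ∃ k, i ≤ k ∧ k < j ∧ hs k = h},
    fun h => if h = hs (j - 1) then hs i else T h, ⟨hs i, i, le_rfl, hij, rfl⟩, ?_, ?_, ?_, ?_⟩
  · rintro h ⟨k, _, _, rfl⟩
    exact hsW k
  · rintro h ⟨k, hk1, hk2, rfl⟩
    beta_reduce
    by_cases h1 : hs k = hs (j - 1)
    · rw [if_pos h1]
      have h2 : k = j - 1 := hinj' _ _ hk2 (by omega) h1
      refine ⟨⟨i, le_rfl, hij, rfl⟩, ?_, ?_⟩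
      · show v i = _
        rw [hvij, ← hj]
        show f (hs j) = _
        have h3 : hs j = T (hs k) := by
          rw [← hs_succ]
          congr 1
          omega
        rw [h3, hT1]
      · rw [h1]
        exact hlast
    · rw [if_neg h1]
      have h2 : k + 1 < j := by
        rcases Nat.lt_or_ge (k + 1) j with h | h
        · exact h
        · exfalso
          apply h1
          congr 1
          omega
      exact ⟨⟨k + 1, by omega, h2, hs_succ k⟩, hT1 _, hT2 _⟩
  · rintro h ⟨k, hk1, hk2, rfl⟩ h' ⟨k', hk1', hk2', rfl⟩ he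
    rw [hinj _ _ hk2 hk2' he]
  · rintro h ⟨k, hk1, hk2, rfl⟩ h' ⟨k', hk1', hk2', rfl⟩ he
    have hlt : ∀ k, k < j → hs k ≠ hs (j - 1) → k + 1 < j := by
      intro k hk h1
      rcases Nat.lt_or_ge (k + 1) j with h | h
      · exact h
      · exfalso
        apply h1
        congr 1
        omega
    simp only at he
    split_ifs at he with h1 h2 h2
    · rw [h1, h2]
    · exfalso
      rw [← hs_succ] at he
      have := hinj' _ _ hij (hlt _ hk2' h2) he
      omega
    · exfalso
      rw [← hs_succ] at he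
      have := hinj' _ _ (hlt _ hk2 h1) hij he
      omega
    · rw [← hs_succ, ← hs_succ] at he
      have := hinj' _ _ (hlt _ hk2 h1) (hlt _ hk2' h2) he
      have h3 : k = k' := by omega
      rw [h3]

/-- two different non-backtracking words with the same first half-edge, the same length and the
same end give a small closed non-backtracking set -/
theorem closed_of_collision {H V : Type} [DecidableEq H] (f : H → V) (α : Perm H)
    (hα : ∀ h, α (α h) = h) (A : Set H) (hA : ∀ h ∈ A, α h ∈ A) (r : ℕ) (u v : ℕ → H)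
    (h0 : u 0 = v 0)
    (hu : ∀ i < r, u (i + 1) ∈ A ∧ f (u (i + 1)) = f (α (u i)) ∧ u (i + 1) ≠ α (u i))
    (hv : ∀ i < r, v (i + 1) ∈ A ∧ f (v (i + 1)) = f (α (v i)) ∧ v (i + 1) ≠ α (v i))
    (hne : ∃ i, i ≤ r ∧ u i ≠ v i) (hend : f (α (u r)) = f (α (v r))) :
    ∃ W : Finset H, W.Nonempty ∧ (∀ x ∈ W, x ∈ A) ∧ W.card ≤ 2 * r ∧
      ∀ x ∈ W, ∃ y ∈ W, f y = f (α x) ∧ y ≠ α x := by
  classical
  set i0 := Nat.find hne with hi0
  obtain ⟨hi1, hi2⟩ := Nat.find_spec hne
  rw [← hi0] at hi1 hi2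
  have hi3 : ∀ i < i0, u i = v i := by
    intro i hi
    by_contra h
    exact Nat.find_min hne hi ⟨by omega, h⟩
  have hi4 : 1 ≤ i0 := by
    rcases Nat.eq_zero_or_pos i0 with h | h
    · rw [h] at hi2
      exact absurd h0 hi2
    · exact h
  set j0 := Nat.findGreatest (fun i => u i ≠ v i) r with hj0
  have hj1 : j0 ≤ r := Nat.findGreatest_le r
  have hj2 : u j0 ≠ v j0 := Nat.findGreatest_spec (P := fun i => u i ≠ v i) hi1 hi2
  have hij : i0 ≤ j0 := Nat.le_findGreatest hi1 hi2
  have hj3 : ∀ k, j0 < k → k ≤ r → u k = v k := by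
    intro k hk1 hk2
    by_contra h
    exact Nat.findGreatest_is_greatest hk1 hk2 h
  -- the two ends of the segments
  have hs : f (u i0) = f (v i0) := by
    have h1 := (hu (i0 - 1) (by omega)).2.1
    have h2 := (hv (i0 - 1) (by omega)).2.1
    rw [Nat.sub_add_cancel hi4] at h1 h2
    rw [h1, h2, hi3 _ (by omega)]
  have he : f (α (u j0)) = f (α (v j0)) := by
    rcases Nat.lt_or_ge j0 r with h | h
    · rw [← (hu j0 h).2.1, ← (hv j0 h).2.1, hj3 _ (by omega) (by omega)]
    · have h1 : j0 = r := by omega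
      rw [h1]
      exact hend
  have huA : ∀ i, 1 ≤ i → i ≤ r → u i ∈ A := by
    intro i h1 h2
    have h3 := (hu (i - 1) (by omega)).1
    rwa [Nat.sub_add_cancel h1] at h3
  have hvA : ∀ i, 1 ≤ i → i ≤ r → v i ∈ A := by
    intro i h1 h2
    have h3 := (hv (i - 1) (by omega)).1
    rwa [Nat.sub_add_cancel h1] at h3
  refine ⟨(Finset.Icc i0 j0).image u ∪ (Finset.Icc i0 j0).image (fun i => α (v i)),
    ?_, ?_, ?_, ?_⟩
  · exact ⟨u i0, Finset.mem_union_left _ (Finset.mem_image_of_mem _
      (Finset.mem_Icc.2 ⟨le_rfl, hij⟩))⟩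
  · intro x hx
    rcases Finset.mem_union.1 hx with h | h
    · obtain ⟨i, hi, rfl⟩ := Finset.mem_image.1 h
      rw [Finset.mem_Icc] at hi
      exact huA i (by omega) (by omega)
    · obtain ⟨i, hi, rfl⟩ := Finset.mem_image.1 h
      rw [Finset.mem_Icc] at hi
      exact hA _ (hvA i (by omega) (by omega))
  · refine (Finset.card_union_le _ _).trans ?_
    have h1 := Finset.card_image_le (s := Finset.Icc i0 j0) (f := u)
    have h2 := Finset.card_image_le (s := Finset.Icc i0 j0) (f := fun i => α (v i))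
    rw [Nat.card_Icc] at h1 h2
    omega
  · intro x hx
    rcases Finset.mem_union.1 hx with h | h
    · obtain ⟨i, hi, rfl⟩ := Finset.mem_image.1 h
      rw [Finset.mem_Icc] at hi
      rcases Nat.lt_or_ge i j0 with h1 | h1
      · refine ⟨u (i + 1), Finset.mem_union_left _ (Finset.mem_image_of_mem _
          (Finset.mem_Icc.2 ⟨by omega, by omega⟩)), ?_⟩
        exact (hu i (by omega)).2
      · have h2 : i = j0 := by omega
        rw [h2]
        refine ⟨α (v j0), Finset.mem_union_right _ (Finset.mem_image.2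
          ⟨j0, Finset.mem_Icc.2 ⟨hij, le_rfl⟩, rfl⟩), ?_, ?_⟩
        · exact he.symm
        · intro h3
          exact hj2 (α.injective h3).symm
    · obtain ⟨i, hi, rfl⟩ := Finset.mem_image.1 h
      rw [Finset.mem_Icc] at hi
      rw [hα]
      rcases Nat.lt_or_ge i0 i with h1 | h1
      · have h2 := hv (i - 1) (by omega)
        rw [Nat.sub_add_cancel (by omega : 1 ≤ i)] at h2
        refine ⟨α (v (i - 1)), Finset.mem_union_right _ (Finset.mem_image.2
          ⟨i - 1, Finset.mem_Icc.2 ⟨by omega, by omega⟩, rfl⟩), ?_, ?_⟩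
        · exact h2.2.1.symm
        · exact h2.2.2.symm
      · have h2 : i = i0 := by omega
        rw [h2]
        exact ⟨u i0, Finset.mem_union_left _ (Finset.mem_image_of_mem _
          (Finset.mem_Icc.2 ⟨le_rfl, hij⟩)), hs, hi2⟩

end KernelCount
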