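import Mathlib
import Pool.Agent.Lib.MP_b69e89_co_L.Defs

/-!
# MP_b69e89_co : girth of a multigraph given by its half-edges
-/

namespace KernelCount

/-- every cycle of the multigraph with edges `E` has at least `γ` edges -/
def GirthGE {E V : Type} (f : E × Bool → V) (γ : ℕ) : Prop :=
  ∀ (S : Set (E × Bool)) (nxt : E × Bool → E × Bool), S.Nonempty →
    (∀ h ∈ S, nxt h ∈ S ∧ f (nxt h) = f (flipE E h) ∧ nxt h ≠ flipE E h) →
    (∀ h ∈ S, ∀ h' ∈ S, f h = f h' → h = h') →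
    (∀ h ∈ S, ∀ h' ∈ S, nxt h = nxt h' → h = h') → γ ≤ S.ncard

end KernelCount
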