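import Mathlib
import Pool.Agent.Lib.MP_b69e89_co.Excess
import Pool.Agent.Lib.MP_b69e89_co_L.Coll
import Pool.Agent.Lib.MP_b69e89_co_L.Girth

/-!
# MP_b69e89_co : graphs of large girth have few faces
-/

namespace KernelCount

open Equiv Equiv.Perm Function Empire

/-- a multigraph embedded in a map: the other vertices of the map can be contracted away -/
theorem emb_spanning {g : ℕ} (N : ℕ) {V H : Type} [Nonempty V] (α : Perm H) (f : H → V) :
    ∀ (M : CombMap) (ι : V → M.Vertex) (κ : H → M.D), cyc M.σ ≤ N → M.GenusLE g →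
    Injective ι → Injective κ → (∀ h, κ (α h) = M.α (κ h)) → (∀ h, M.vert (κ h) = ι (f h)) →
    ∃ (M : CombMap) (ι : V → M.Vertex) (κ : H → M.D), M.GenusLE g ∧
      Bijective ι ∧ Injective κ ∧ (∀ h, κ (α h) = M.α (κ h)) ∧
      (∀ h, M.vert (κ h) = ι (f h)) := by
  classical
  induction N with
  | zero =>
    intro M ι κ hN hM hι hκ h1 h2
    exfalso
    have : 0 < cyc M.σ := by
      unfold cyc
      have : Nonempty (Quotient (SameCycle.setoid M.σ)) := ⟨M.vert (Classical.arbitrary _)⟩
      have : Finite (Quotient (SameCycle.setoid M.σ)) := Quotient.finite _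
      exact Nat.card_pos
    omega
  | succ N ih =>
    intro M ι κ hN hM hι hκ h1 h2
    by_cases hs : Surjective ι
    · exact ⟨M, ι, κ, hM, ⟨hι, hs⟩, hκ, h1, h2⟩
    · unfold Surjective at hs
      push Not at hs
      obtain ⟨w, hw⟩ := hs
      -- an edge from `w` to another vertex
      obtain ⟨d, hdw, hd⟩ : ∃ d, M.vert d = w ∧ M.vert (M.α d) ≠ w := by
        by_contra hc
        push Not at hc
        obtain ⟨d0, hd0⟩ := M.exists_vert w
        obtain ⟨e0, he0⟩ := M.exists_vert (ι (Classical.arbitrary V))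
        have hall := M.conn (fun d => M.vert d = w) (fun d => by
          have : M.vert (M.σ d) = M.vert d :=
            (M.vert_eq_iff _ _).2 (sameCycle_apply_left.2 (SameCycle.refl _ _))
          rw [this]) (fun d => by
          constructor
          · intro h
            have := hc _ h
            rwa [M.α_α] at this
          · exact hc d) d0 e0 hd0
        exact hw (Classical.arbitrary V) (he0.symm.trans hall)
      have hns : ¬ M.σ.SameCycle d (M.α d) := fun h =>
        hd (((M.vert_eq_iff _ _).2 h).symm.trans hdw)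
      have hcyc := cyc_mul_swap_of_not (M.not_same_symm hns)
      refine ih (M.contr d hns) (fun v => M.upC d hns (ι v)) κ ?_ (M.contr_genusLE hM hns) ?_ hκ
        h1 ?_
      · have e : cyc (M.contr d hns).σ = cyc (M.σ * swap d (M.σ.symm (M.α d))) := rfl
        omega
      · intro x y hxy
        have h3 := (M.upC_eq_iff d hns (ι x) (ι y)).1 hxy
        rcases h3 with h3 | ⟨h3 | h3, h4 | h4⟩
        · exact hι h3
        · exact absurd (h3.trans hdw) (hw x)
        · exact absurd (h3.trans hdw) (hw x)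
        · exact absurd (h4.trans hdw) (hw y)
        · exact hι (h3.trans h4.symm)
      · intro h
        rw [← h2]
        rfl

/-- making an involution trivial outside `K` -/
theorem exists_restrict {D : Type} [Finite D] [DecidableEq D] (σ : Perm D) (K : Set D) (N : ℕ) :
    ∀ α : Perm D, (∀ x, α (α x) = x) → (∀ x, x ∈ K → α x ∈ K) →
    {x | x ∉ K ∧ α x ≠ x}.ncard ≤ N →
    ∃ β : Perm D, (∀ x ∈ K, β x = α x) ∧ (∀ x, x ∉ K → β x = x) ∧
      2 * cyc (σ * α) ≤ 2 * cyc (σ * β) + {x | x ∉ K ∧ α x ≠ x}.ncard := by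
  induction N using Nat.strong_induction_on with
  | _ N ih =>
    intro α hα hK hN
    by_cases hc : ∃ x, x ∉ K ∧ α x ≠ x
    · obtain ⟨x, hx, hxne⟩ := hc
      have hyK : α x ∉ K := fun h => hx (by
        have := hK _ h
        rwa [hα] at this)
      set γ := α * swap x (α x) with hγ
      have g1 : γ x = x := by
        rw [hγ, Perm.mul_apply, swap_apply_left, hα]
      have g2 : γ (α x) = α x := by
        rw [hγ, Perm.mul_apply, swap_apply_right]
      have g3 : ∀ z, z ≠ x → z ≠ α x → γ z = α z := by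
        intro z h1 h2
        rw [hγ, Perm.mul_apply, swap_apply_of_ne_of_ne h1 h2]
      have g4 : ∀ z, γ (γ z) = z := by
        intro z
        by_cases h1 : z = x
        · rw [h1, g1, g1]
        · by_cases h2 : z = α x
          · rw [h2, g2, g2]
          · rw [g3 z h1 h2, g3 _ (fun h => h2 (by rw [← h, hα])) (fun h => h1 (α.injective h)), hα]
      have hset : {z | z ∉ K ∧ α z ≠ z} = insert x (insert (α x) {z | z ∉ K ∧ γ z ≠ z}) := by
        ext z
        simp only [Set.mem_ofPred_eq, Set.mem_insert_iff]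
        by_cases h1 : z = x
        · simp [h1, hx, hxne]
        · by_cases h2 : z = α x
          · simp [h2, hyK, hα, hxne.symm]
          · simp [h1, h2, g3 z h1 h2]
      have hnot1 : α x ∉ {z | z ∉ K ∧ γ z ≠ z} := by
        simp [g2]
      have hnot2 : x ∉ insert (α x) {z | z ∉ K ∧ γ z ≠ z} := by
        simp [g1, hxne.symm]
      have hcard : {z | z ∉ K ∧ α z ≠ z}.ncard = {z | z ∉ K ∧ γ z ≠ z}.ncard + 2 := by
        rw [hset, Set.ncard_insert_of_notMem hnot2 (Set.toFinite _),
          Set.ncard_insert_of_notMem hnot1 (Set.toFinite _)]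
      obtain ⟨β, b1, b2, b3⟩ := ih {z | z ∉ K ∧ γ z ≠ z}.ncard (by omega) γ g4 (by
        intro z hz
        rw [g3 z (fun h => hx (h ▸ hz)) (fun h => hyK (h ▸ hz))]
        exact hK z hz) le_rfl
      refine ⟨β, ?_, b2, ?_⟩
      · intro z hz
        rw [b1 z hz, g3 z (fun h => hx (h ▸ hz)) (fun h => hyK (h ▸ hz))]
      · have e : σ * γ = σ * α * swap x (α x) := by rw [hγ, mul_assoc]
        have h4 := cyc_mul_swap_ge (σ * α) x (α x)
        rw [← e] at h4
        omega
    · push Not at hc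
      refine ⟨α, fun _ _ => rfl, hc, ?_⟩
      omega

/-- each face of the part `K` of the map contains a half-edge of `K` -/
theorem face_meets {D : Type} [Finite D] (σ β : Perm D) (K : Set D)
    (hβ : ∀ x, x ∉ K → β x = x) (hK : ∀ x, ∃ y ∈ K, σ.SameCycle x y) (z : D) :
    ∃ y ∈ K, (σ * β).SameCycle z y := by
  classical
  obtain ⟨y, hy, hs⟩ := hK z
  obtain ⟨k, hk⟩ := hs.exists_nat_pow_eq
  have hex : ∃ k : ℕ, (σ ^ k) z ∈ K := ⟨k, by rw [hk]; exact hy⟩
  refine ⟨(σ ^ Nat.find hex) z, Nat.find_spec hex, ?_⟩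
  have key : ∀ j, j ≤ Nat.find hex → (σ * β).SameCycle z ((σ ^ j) z) := by
    intro j
    induction j with
    | zero => intro _; exact SameCycle.refl _ _
    | succ j ih =>
      intro hj
      have h1 := Nat.find_min hex (show j < Nat.find hex by omega)
      have h2 : (σ ^ (j + 1)) z = (σ * β) ((σ ^ j) z) := by
        rw [pow_succ', Perm.mul_apply, Perm.mul_apply, hβ _ h1]
      rw [h2]
      exact sameCycle_apply_right.2 (ih (by omega))
  exact key _ le_rfl

/-- the next half-edge of `K` on the face after `x` -/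
theorem face_next {D : Type} [Finite D] (σ β : Perm D) (K : Set D)
    (hβ : ∀ x, x ∉ K → β x = x) (x0 : D)
    (h2 : ∃ y ∈ K, y ≠ x0 ∧ σ.SameCycle x0 y) :
    ∃ y ∈ K, y ≠ x0 ∧ σ.SameCycle x0 y ∧ (σ * β).SameCycle (σ x0) y := by
  classical
  obtain ⟨y, hy, hyx, hs⟩ := h2
  have hex : ∃ k : ℕ, 1 ≤ k ∧ (σ ^ k) x0 ∈ K := by
    obtain ⟨k, hk⟩ := hs.exists_nat_pow_eq
    refine ⟨k, ?_, by rw [hk]; exact hy⟩
    rcases Nat.eq_zero_or_pos k with h | h
    · rw [h, pow_zero, Perm.one_apply] at hk
      exact absurd hk.symm hyx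
    · exact h
  set k := Nat.find hex with hk
  obtain ⟨hk1, hk2⟩ := Nat.find_spec hex
  rw [← hk] at hk1 hk2
  have hmin : ∀ j, 1 ≤ j → j < k → (σ ^ j) x0 ∉ K := fun j h1 h2 h3 =>
    Nat.find_min hex h2 ⟨h1, h3⟩
  refine ⟨(σ ^ k) x0, hk2, ?_, ⟨(k : ℤ), by rw [zpow_natCast]⟩, ?_⟩
  · intro he
    -- the other half-edge of `K` is met earlier
    obtain ⟨n, hn⟩ := hs.exists_nat_pow_eq
    have h3 : ∀ q : ℕ, (σ ^ (k * q)) x0 = x0 := by
      intro q
      induction q with
      | zero => simp
      | succ q ih =>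
        rw [Nat.mul_succ, pow_add, Perm.mul_apply, he, ih]
    have h4 : (σ ^ (n % k)) x0 = y := by
      rw [← hn]
      conv_rhs => rw [← Nat.mod_add_div n k, pow_add, Perm.mul_apply, h3]
    have h5 : 1 ≤ n % k := by
      rcases Nat.eq_zero_or_pos (n % k) with h | h
      · rw [h, pow_zero, Perm.one_apply] at h4
        exact absurd h4.symm hyx
      · exact h
    exact hmin _ h5 (Nat.mod_lt _ (by omega)) (by rw [h4]; exact hy)
  · have key : ∀ j, 1 ≤ j → j ≤ k → (σ * β).SameCycle (σ x0) ((σ ^ j) x0) := by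
      intro j h1
      induction j, h1 using Nat.le_induction with
      | base =>
        intro _
        rw [pow_one]
      | succ j h1 ih =>
        intro hj
        have h3 := hmin j h1 (by omega)
        have h4 : (σ ^ (j + 1)) x0 = (σ * β) ((σ ^ j) x0) := by
          rw [pow_succ', Perm.mul_apply, Perm.mul_apply, hβ _ h3]
        rw [h4]
        exact sameCycle_apply_right.2 (ih (by omega))
    exact key k hk1 le_rfl

/-- Euler's formula for a multigraph of girth at least `γ` on `S_g` -/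
theorem faces_le {g γ : ℕ} {V E : Type} [Finite E] [Nonempty V] (f : E × Bool → V)
    (hf : EmbH g (flipE E) f) (hγ : GirthGE f γ) (hdeg : ∀ v, 2 ≤ Deg f v) :
    γ * (Nat.card E + 2) ≤ 2 * Nat.card E + γ * (Nat.card V + 2 * g) := by
  classical
  obtain ⟨M, ι, κ, hM, hι, hκ, h1, h2⟩ : ∃ (M : CombMap) (ι : V → M.Vertex)
      (κ : E × Bool → M.D), M.GenusLE g ∧ Bijective ι ∧ Injective κ ∧
      (∀ h, κ (flipE E h) = M.α (κ h)) ∧ (∀ h, M.vert (κ h) = ι (f h)) := by
    obtain ⟨M, hM, ι, κ, a1, a2, a3, a4⟩ := hf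
    exact emb_spanning (cyc M.σ) (flipE E) f M ι κ le_rfl hM a1 a2 a3 a4
  have hdeg1 : ∀ v, ∃ h, f h = v := by
    intro v
    have h3 := hdeg v
    unfold Deg at h3
    have h4 : Nonempty {h // f h = v} := by
      by_contra hc
      rw [not_nonempty_iff] at hc
      have : Nat.card {h // f h = v} = 0 := Nat.card_of_isEmpty
      omega
    obtain ⟨h, hh⟩ := h4
    exact ⟨h, hh⟩
  have hdeg2 : ∀ h, ∃ h', f h' = f h ∧ h' ≠ h := by
    intro h
    have h3 := hdeg (f h)
    unfold Deg at h3
    have h4 : 1 < Nat.card {h' // f h' = f h} := by omega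
    rw [Finite.one_lt_card_iff_nontrivial] at h4
    obtain ⟨⟨h', hh'⟩, hne⟩ := exists_ne (⟨h, rfl⟩ : {h' // f h' = f h})
    exact ⟨h', hh', fun he => hne (Subtype.ext he)⟩
  set K : Set M.D := Set.range κ with hK
  obtain ⟨β, b1, b2, b3⟩ := exists_restrict M.σ K _ M.α M.α_α (by
    rintro x ⟨h, rfl⟩
    exact ⟨flipE E h, h1 h⟩) le_rfl
  -- numbers
  have n1 : {x | x ∉ K ∧ M.α x ≠ x} = Kᶜ := by
    ext x
    simp [M.α_ne]
  have n2 : K.ncard + Kᶜ.ncard = Nat.card M.D := Set.ncard_add_ncard_compl K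
  have n3 : K.ncard = 2 * Nat.card E := by
    rw [hK, ← Set.image_univ, Set.ncard_image_of_injective _ hκ, Set.ncard_univ, Nat.card_prod]
    simp [mul_comm]
  have n4 : 2 * cyc M.α = Nat.card M.D := two_mul_cyc M.α_α M.α_ne
  have n5 : cyc M.σ = Nat.card V := (Nat.card_congr (Equiv.ofBijective ι hι)).symm
  rw [n1] at b3
  unfold CombMap.GenusLE at hM
  -- each face has at least `γ` half-edges
  set ψ := M.σ * β with hψ
  have hKv : ∀ x, ∃ y ∈ K, M.σ.SameCycle x y := by
    intro x
    obtain ⟨v, hv⟩ := hι.2 (M.vert x)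
    obtain ⟨h, hh⟩ := hdeg1 v
    refine ⟨κ h, ⟨h, rfl⟩, (M.vert_eq_iff _ _).1 ?_⟩
    rw [h2, hh, hv]
  have hface : ∀ z : M.D, γ ≤ {h | ψ.SameCycle z (κ h)}.ncard := by
    intro z
    obtain ⟨S, nxt, s0, s1, s2, s3, s4⟩ := exists_cycle_in f (flipE E) flipE_flipE flipE_ne
      {h | ψ.SameCycle z (κ h)} (by
        obtain ⟨y, ⟨h, rfl⟩, hy⟩ := face_meets M.σ β K b2 hKv z
        exact ⟨h, hy⟩) (by
        intro h hh
        obtain ⟨y, ⟨h', rfl⟩, y1, y2, y3⟩ := face_next M.σ β K b2 (κ (flipE E h)) (by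
          obtain ⟨h', e1, e2⟩ := hdeg2 (flipE E h)
          refine ⟨κ h', ⟨h', rfl⟩, fun he => e2 (hκ he), (M.vert_eq_iff _ _).1 ?_⟩
          rw [h2, h2, e1])
        refine ⟨h', ?_, ?_, fun he => y1 (by rw [he])⟩
        · have e : M.σ (κ (flipE E h)) = ψ (κ h) := by
            rw [hψ, Perm.mul_apply, b1 _ ⟨h, rfl⟩, h1]
          rw [e] at y3
          exact SameCycle.trans hh (sameCycle_apply_left.1 y3)
        · have e := (M.vert_eq_iff _ _).2 y2
          rw [h2, h2] at e
          exact (hι.1 e).symm)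
    exact (hγ S nxt s0 s2 s3 s4).trans (Set.ncard_le_ncard s1 (Set.toFinite _))
  have hsum : γ * cyc ψ ≤ 2 * Nat.card E := by
    have : Fintype (E × Bool) := Fintype.ofFinite _
    have : Finite (Quotient (SameCycle.setoid ψ)) := Quotient.finite _
    have : Fintype (Quotient (SameCycle.setoid ψ)) := Fintype.ofFinite _
    have e1 : (Finset.univ : Finset (E × Bool)).card = 2 * Nat.card E := by
      rw [Finset.card_univ, ← Nat.card_eq_fintype_card, Nat.card_prod]
      simp [mul_comm]
    have e2 : cyc ψ = (Finset.univ : Finset (Quotient (SameCycle.setoid ψ))).card := by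
      rw [Finset.card_univ, ← Nat.card_eq_fintype_card]
      rfl
    rw [← e1, e2, Finset.card_eq_sum_card_fiberwise
      (f := fun h => (Quotient.mk (SameCycle.setoid ψ) (κ h)))
      (t := (Finset.univ : Finset (Quotient (SameCycle.setoid ψ)))) (fun _ _ => Finset.mem_univ _),
      mul_comm, ← smul_eq_mul]
    refine Finset.card_nsmul_le_sum _ _ _ fun c _ => ?_
    obtain ⟨z, rfl⟩ := Quotient.exists_rep c
    have h3 := hface z
    have h4 : {h | ψ.SameCycle z (κ h)} = ((Finset.univ.filter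
        fun h => Quotient.mk (SameCycle.setoid ψ) (κ h) = Quotient.mk (SameCycle.setoid ψ) z :
          Finset (E × Bool)) : Set (E × Bool)) := by
      ext h
      simp only [Set.mem_ofPred_eq, Finset.coe_filter, Finset.mem_univ, true_and]
      constructor
      · intro h5
        exact Quotient.sound (SameCycle.symm h5)
      · intro h5
        exact SameCycle.symm (Quotient.exact h5)
    rw [h4, Set.ncard_coe_finset] at h3
    exact h3
  -- Euler
  have hE : Nat.card E + 2 ≤ Nat.card V + 2 * g + cyc ψ := by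
    omega
  calc γ * (Nat.card E + 2) ≤ γ * (Nat.card V + 2 * g + cyc ψ) := Nat.mul_le_mul_left _ hE
    _ = γ * cyc ψ + γ * (Nat.card V + 2 * g) := by ring
    _ ≤ _ := Nat.add_le_add_right hsum _

end KernelCount
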