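import Mathlib
import Pool.Agent.Lib.MP_b69e89_co_L.Upper

/-!
# MP_b69e89_co : the complete bipartite graph `K_{a,a}` has genus at least `(a - 2)^2 / 4`
-/

namespace KernelCount

/-- a simple bipartite graph has girth at least four -/
theorem girth_bip {E V : Type} [Finite E] (f : E × Bool → V) (P : V → Prop)
    (side : ∀ h : E × Bool, P (f (h.1, !h.2)) ↔ ¬ P (f h))
    (simple : ∀ h h' : E × Bool, f h' = f (h.1, !h.2) → f (h'.1, !h'.2) = f h →
      h' = (h.1, !h.2)) : GirthGE f 4 := by
  classical
  intro S nxt hS h1 _ _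
  obtain ⟨h, hh⟩ := hS
  have a0 := h1 h hh
  have a1 := h1 _ a0.1
  have a2 := h1 _ a1.1
  have e : ∀ x : E × Bool, flipE E x = (x.1, !x.2) := fun _ => rfl
  rw [e] at a0 a1 a2
  have s1 : P (f (nxt h)) ↔ ¬ P (f h) := by
    rw [a0.2.1]
    exact side h
  have s2 : P (f (nxt (nxt h))) ↔ ¬ P (f (nxt h)) := by
    rw [a1.2.1]
    exact side _
  have s3 : P (f (nxt (nxt (nxt h)))) ↔ ¬ P (f (nxt (nxt h))) := by
    rw [a2.2.1]
    exact side _
  have n01 : h ≠ nxt h := by
    intro he
    rw [← he] at s1
    tauto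
  have n12 : nxt h ≠ nxt (nxt h) := by
    intro he
    rw [← he] at s2
    tauto
  have n23 : nxt (nxt h) ≠ nxt (nxt (nxt h)) := by
    intro he
    rw [← he] at s3
    tauto
  have n02 : h ≠ nxt (nxt h) := by
    intro he
    have h4 := a1.2.1
    rw [← he] at h4
    exact a0.2.2 (simple h (nxt h) a0.2.1 h4.symm)
  have n13 : nxt h ≠ nxt (nxt (nxt h)) := by
    intro he
    have h4 := a2.2.1
    rw [← he] at h4
    exact a1.2.2 (simple (nxt h) (nxt (nxt h)) a1.2.1 h4.symm)
  have n03 : h ≠ nxt (nxt (nxt h)) := by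
    intro he
    rw [← he] at s3
    tauto
  have hsub : (↑({h, nxt h, nxt (nxt h), nxt (nxt (nxt h))} : Finset (E × Bool)) :
      Set (E × Bool)) ⊆ S := by
    intro x hx
    rw [Finset.mem_coe, Finset.mem_insert, Finset.mem_insert, Finset.mem_insert,
      Finset.mem_singleton] at hx
    rcases hx with rfl | rfl | rfl | rfl
    · exact hh
    · exact a0.1
    · exact a1.1
    · exact a2.1
  have hcard : ({h, nxt h, nxt (nxt h), nxt (nxt (nxt h))} : Finset (E × Bool)).card = 4 := by
    rw [Finset.card_insert_of_notMem, Finset.card_insert_of_notMem,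
      Finset.card_insert_of_notMem, Finset.card_singleton]
    · rw [Finset.mem_singleton]
      exact n23
    · rw [Finset.mem_insert, Finset.mem_singleton]
      rintro (h4 | h4)
      · exact n12 h4
      · exact n13 h4
    · rw [Finset.mem_insert, Finset.mem_insert, Finset.mem_singleton]
      rintro (h4 | h4 | h4)
      · exact n01 h4
      · exact n02 h4
      · exact n03 h4
  rw [← hcard, ← Set.ncard_coe_finset]
  exact Set.ncard_le_ncard hsub (Set.toFinite S)

namespace Kaa

/-- the half-edges of `K_{a,a}`: edge `i` joins `i / a` and `a + i % a` -/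
def fK (a : ℕ) (h : Fin (a * a) × Bool) : Fin (2 * a) :=
  if h.2 then ⟨a + h.1.val % a, by
      have h1 : 0 < a := by
        rcases Nat.eq_zero_or_pos a with h0 | h0
        · subst h0
          exact absurd h.1.isLt (by simp)
        · exact h0
      have := Nat.mod_lt h.1.val h1
      omega⟩
    else ⟨h.1.val / a, by
      have h2 : h.1.val / a < a := Nat.div_lt_of_lt_mul h.1.isLt
      omega⟩

theorem fK_true {a : ℕ} (e : Fin (a * a)) : (fK a (e, true)).val = a + e.val % a := rfl

theorem fK_false {a : ℕ} (e : Fin (a * a)) : (fK a (e, false)).val = e.val / a := rfl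

theorem div_lt {a : ℕ} (e : Fin (a * a)) : e.val / a < a := Nat.div_lt_of_lt_mul e.isLt

theorem side {a : ℕ} (h : Fin (a * a) × Bool) :
    (fK a (h.1, !h.2)).val < a ↔ ¬ (fK a h).val < a := by
  obtain ⟨e, b⟩ := h
  have h1 := div_lt e
  cases b
  · show (fK a (e, true)).val < a ↔ ¬ (fK a (e, false)).val < a
    rw [fK_true, fK_false]
    omega
  · show (fK a (e, false)).val < a ↔ ¬ (fK a (e, true)).val < a
    rw [fK_true, fK_false]
    omega

theorem ext {a : ℕ} {e e' : Fin (a * a)} (h1 : e.val / a = e'.val / a)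
    (h2 : e.val % a = e'.val % a) : e = e' := by
  apply Fin.ext
  rw [← Nat.div_add_mod e.val a, ← Nat.div_add_mod e'.val a, h1, h2]

theorem simple {a : ℕ} (h h' : Fin (a * a) × Bool) (h1 : fK a h' = fK a (h.1, !h.2))
    (h2 : fK a (h'.1, !h'.2) = fK a h) : h' = (h.1, !h.2) := by
  obtain ⟨e, b⟩ := h
  obtain ⟨e', b'⟩ := h'
  have q1 := congrArg Fin.val h1
  have q2 := congrArg Fin.val h2
  have l1 := div_lt e
  have l2 := div_lt e'
  cases b <;> cases b' <;>
    simp only [Bool.not_false, Bool.not_true, fK_true, fK_false] at q1 q2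
  · omega
  · rw [ext (e := e) (e' := e') (by omega) (by omega)]
    rfl
  · rw [ext (e := e) (e' := e') (by omega) (by omega)]
    rfl
  · omega

theorem le_deg {a : ℕ} (v : Fin (2 * a)) : a ≤ Deg (fK a) v := by
  unfold Deg
  have hv := v.isLt
  rcases Nat.lt_or_ge v.val a with h | h
  · have hb : ∀ j : Fin a, v.val * a + j.val < a * a := by
      intro j
      have h1 : (v.val + 1) * a ≤ a * a := Nat.mul_le_mul_right _ h
      have h2 : (v.val + 1) * a = v.val * a + a := by ring
      have := j.isLt
      omega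
    have hf : ∀ j : Fin a, fK a (⟨v.val * a + j.val, hb j⟩, false) = v := by
      intro j
      apply Fin.ext
      rw [fK_false]
      show (v.val * a + j.val) / a = v.val
      rw [mul_comm, Nat.mul_add_div (by omega), Nat.div_eq_of_lt j.isLt, add_zero]
    have h1 := Nat.card_le_card_of_injective
      (fun j : Fin a => (⟨(⟨v.val * a + j.val, hb j⟩, false), hf j⟩ :
        {x : Fin (a * a) × Bool // fK a x = v})) (by
        intro i j hij
        have h2 := congrArg (fun x : {x : Fin (a * a) × Bool // fK a x = v} => x.1.1.val) hij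
        simp only at h2
        exact Fin.ext (by omega))
    rwa [Nat.card_eq_fintype_card, Fintype.card_fin] at h1
  · have hb : ∀ j : Fin a, j.val * a + (v.val - a) < a * a := by
      intro j
      have h1 : (j.val + 1) * a ≤ a * a := Nat.mul_le_mul_right _ j.isLt
      have h2 : (j.val + 1) * a = j.val * a + a := by ring
      omega
    have hf : ∀ j : Fin a, fK a (⟨j.val * a + (v.val - a), hb j⟩, true) = v := by
      intro j
      apply Fin.ext
      rw [fK_true]
      show a + (j.val * a + (v.val - a)) % a = v.val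
      rw [mul_comm, Nat.mul_add_mod, Nat.mod_eq_of_lt (by omega)]
      omega
    have h1 := Nat.card_le_card_of_injective
      (fun j : Fin a => (⟨(⟨j.val * a + (v.val - a), hb j⟩, true), hf j⟩ :
        {x : Fin (a * a) × Bool // fK a x = v})) (by
        intro i j hij
        have h2 := congrArg (fun x : {x : Fin (a * a) × Bool // fK a x = v} => x.1.1.val) hij
        simp only at h2
        have h3 : i.val * a = j.val * a := by omega
        exact Fin.ext (Nat.eq_of_mul_eq_mul_right (by omega) h3))
    rwa [Nat.card_eq_fintype_card, Fintype.card_fin] at h1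

end Kaa

/-- `K_{a,a}` is a kernel with `2 a` vertices and `a^2` edges, and it does not embed on `S_g` if
`4 g < (a - 2)^2` -/
theorem bad_bipartite {g a : ℕ} (ha : 3 ≤ a) (hg : 4 * g < (a - 2) ^ 2) :
    ∃ f : Fin (a * a) × Bool → Fin (2 * a), (∀ v, 3 ≤ Deg f v) ∧
      ¬ EmbH g (flipE (Fin (a * a))) f := by
  have : Nonempty (Fin (2 * a)) := ⟨⟨0, by omega⟩⟩
  refine ⟨Kaa.fK a, fun v => ha.trans (Kaa.le_deg v), fun hE => ?_⟩
  have h1 := faces_le (Kaa.fK a) hE
    (girth_bip (Kaa.fK a) (fun v => v.val < a) Kaa.side Kaa.simple)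
    (fun v => by
      have := Kaa.le_deg v
      omega)
  rw [Nat.card_eq_fintype_card, Nat.card_eq_fintype_card, Fintype.card_fin,
    Fintype.card_fin] at h1
  obtain ⟨b, rfl⟩ : ∃ b, a = b + 2 := ⟨a - 2, by omega⟩
  rw [Nat.add_sub_cancel] at hg
  nlinarith

end KernelCount
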