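import Mathlib
import Pool.Agent.Lib.MP_b69e89_co_L.Upper

/-!
# MP_b69e89_co : the graph `K_{3,3}` does not embed on the sphere
-/

namespace KernelCount

namespace K33

/-- the half-edges of `K_{3,3}`: edge `i` joins `i / 3` and `3 + i % 3` -/
def fK (h : Fin 9 × Bool) : Fin 6 :=
  if h.2 then ⟨3 + h.1.val % 3, by omega⟩ else ⟨h.1.val / 3, by omega⟩

theorem side : ∀ h : Fin 9 × Bool, (fK (h.1, !h.2)).val < 3 ↔ ¬ (fK h).val < 3 := by
  decide

theorem simple : ∀ h h' : Fin 9 × Bool, fK h' = fK (h.1, !h.2) → fK (h'.1, !h'.2) = fK h →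
    h' = (h.1, !h.2) := by
  decide

theorem deg3 : ∀ v : Fin 6, (Finset.univ.filter fun h => fK h = v).card = 3 := by
  decide

theorem girth4 : GirthGE fK 4 := by
  classical
  intro S nxt hS h1 _ _
  obtain ⟨h, hh⟩ := hS
  have a0 := h1 h hh
  have a1 := h1 _ a0.1
  have a2 := h1 _ a1.1
  have e : ∀ x : Fin 9 × Bool, flipE (Fin 9) x = (x.1, !x.2) := fun _ => rfl
  rw [e] at a0 a1 a2
  have s1 : (fK (nxt h)).val < 3 ↔ ¬ (fK h).val < 3 := by
    rw [a0.2.1]
    exact side h
  have s2 : (fK (nxt (nxt h))).val < 3 ↔ ¬ (fK (nxt h)).val < 3 := by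
    rw [a1.2.1]
    exact side _
  have s3 : (fK (nxt (nxt (nxt h)))).val < 3 ↔ ¬ (fK (nxt (nxt h))).val < 3 := by
    rw [a2.2.1]
    exact side _
  have n01 : h ≠ nxt h := by
    intro he
    rw [← he] at s1
    tauto
  have n12 : nxt h ≠ nxt (nxt h) := by
    intro he
    rw [← he] at s2
    tauto
  have n23 : nxt (nxt h) ≠ nxt (nxt (nxt h)) := by
    intro he
    rw [← he] at s3
    tauto
  have n02 : h ≠ nxt (nxt h) := by
    intro he
    have h4 := a1.2.1
    rw [← he] at h4
    exact a0.2.2 (simple h (nxt h) a0.2.1 h4.symm)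
  have n13 : nxt h ≠ nxt (nxt (nxt h)) := by
    intro he
    have h4 := a2.2.1
    rw [← he] at h4
    exact a1.2.2 (simple (nxt h) (nxt (nxt h)) a1.2.1 h4.symm)
  have n03 : h ≠ nxt (nxt (nxt h)) := by
    intro he
    rw [← he] at s3
    tauto
  have hsub : (↑({h, nxt h, nxt (nxt h), nxt (nxt (nxt h))} : Finset (Fin 9 × Bool)) :
      Set (Fin 9 × Bool)) ⊆ S := by
    intro x hx
    rw [Finset.mem_coe, Finset.mem_insert, Finset.mem_insert, Finset.mem_insert,
      Finset.mem_singleton] at hx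
    rcases hx with rfl | rfl | rfl | rfl
    · exact hh
    · exact a0.1
    · exact a1.1
    · exact a2.1
  have hcard : ({h, nxt h, nxt (nxt h), nxt (nxt (nxt h))} : Finset (Fin 9 × Bool)).card = 4 := by
    rw [Finset.card_insert_of_notMem, Finset.card_insert_of_notMem,
      Finset.card_insert_of_notMem, Finset.card_singleton]
    · rw [Finset.mem_singleton]
      exact n23
    · rw [Finset.mem_insert, Finset.mem_singleton]
      rintro (h4 | h4)
      · exact n12 h4
      · exact n13 h4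
    · rw [Finset.mem_insert, Finset.mem_insert, Finset.mem_singleton]
      rintro (h4 | h4 | h4)
      · exact n01 h4
      · exact n02 h4
      · exact n03 h4
  rw [← hcard, ← Set.ncard_coe_finset]
  exact Set.ncard_le_ncard hsub (Set.toFinite S)

end K33

/-- `K_{3,3}` is a kernel with 6 vertices and 9 edges that does not embed on the sphere -/
theorem bad_K33 : ∃ f : Fin 9 × Bool → Fin 6, (∀ v, 3 ≤ Deg f v) ∧
    ¬ EmbH 0 (flipE (Fin 9)) f := by
  classical
  have hd : ∀ v, Deg K33.fK v = 3 := fun v => by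
    rw [Deg_eq_card_filter]
    convert K33.deg3 v
  refine ⟨K33.fK, fun v => (hd v).ge, fun hE => ?_⟩
  have h1 := faces_le K33.fK hE K33.girth4 (fun v => by rw [hd v]; norm_num)
  simp at h1

end KernelCount
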