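import Mathlib
import Pool.Agent.Lib.MP_b69e89_co.Count
import Pool.Agent.Lib.MP_b69e89_co_L.Girth

/-!
# MP_b69e89_co : 4-regular multigraphs of large girth

The Cayley graph of the group of invertible `2 × 2` matrices over `ZMod (4 * 3 ^ γ)` with respect
to `[1, 2; 0, 1]` and `[1, 0; 2, 1]`.
-/

namespace KernelCount

open Equiv Equiv.Perm Matrix

namespace Cayley

/-- one letter acting on an integer row vector; the code is (generator, inverse?) -/
def step (c : Bool × Bool) (u : ℤ × ℤ) : ℤ × ℤ :=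
  match c with
  | (false, false) => (u.1, u.2 + 2 * u.1)
  | (false, true) => (u.1, u.2 - 2 * u.1)
  | (true, false) => (u.1 + 2 * u.2, u.2)
  | (true, true) => (u.1 - 2 * u.2, u.2)

/-- the region of a letter -/
def Reg (c : Bool × Bool) (u : ℤ × ℤ) : Prop :=
  match c with
  | (false, false) => (u.1 < u.2 ∧ 0 < u.1) ∨ (u.2 < u.1 ∧ u.1 < 0)
  | (false, true) => (u.2 < -u.1 ∧ 0 < u.1) ∨ (-u.1 < u.2 ∧ u.1 < 0)
  | (true, false) => (u.2 < u.1 ∧ 0 < u.2) ∨ (u.1 < u.2 ∧ u.2 < 0)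
  | (true, true) => (-u.2 < u.1 ∧ u.2 < 0) ∨ (u.1 < -u.2 ∧ 0 < u.2)

theorem reg_step (c c' : Bool × Bool) (u : ℤ × ℤ) (h : Reg c' u) (hc : c' ≠ (c.1, !c.2)) :
    Reg c (step c u) := by
  obtain ⟨x, y⟩ := u
  rcases c with ⟨_ | _, _ | _⟩ <;> rcases c' with ⟨_ | _, _ | _⟩ <;>
    simp only [Reg, step] at h ⊢ <;> first | omega | (exact absurd rfl hc)

theorem reg_unique (c c' : Bool × Bool) (u : ℤ × ℤ) (h : Reg c u) (h' : Reg c' u) : c = c' := by
  obtain ⟨x, y⟩ := u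
  rcases c with ⟨_ | _, _ | _⟩ <;> rcases c' with ⟨_ | _, _ | _⟩ <;>
    simp only [Reg] at h h' <;> first | rfl | (exfalso; omega)

theorem step_bound (c : Bool × Bool) (u : ℤ × ℤ) (M : ℤ) (h1 : -M ≤ u.1) (h2 : u.1 ≤ M)
    (h3 : -M ≤ u.2) (h4 : u.2 ≤ M) : -(3 * M) ≤ (step c u).1 ∧ (step c u).1 ≤ 3 * M ∧
      -(3 * M) ≤ (step c u).2 ∧ (step c u).2 ≤ 3 * M := by
  obtain ⟨x, y⟩ := u
  rcases c with ⟨_ | _, _ | _⟩ <;> simp only [step] at h1 h2 h3 h4 ⊢ <;> omega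

/-- a start vector of the region -/
def start (c : Bool × Bool) : ℤ × ℤ :=
  match c with
  | (false, false) => (1, 2)
  | (false, true) => (1, -2)
  | (true, false) => (2, 1)
  | (true, true) => (2, -1)

theorem reg_start (c : Bool × Bool) : Reg c (start c) := by
  rcases c with ⟨_ | _, _ | _⟩ <;> simp [Reg, start]

theorem start_bound (c : Bool × Bool) : -2 ≤ (start c).1 ∧ (start c).1 ≤ 2 ∧
    -2 ≤ (start c).2 ∧ (start c).2 ≤ 2 := by
  rcases c with ⟨_ | _, _ | _⟩ <;> simp [start]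

/-- the sequence of vectors along a word -/
def vec (c : ℕ → Bool × Bool) (u : ℤ × ℤ) : ℕ → ℤ × ℤ
  | 0 => u
  | i + 1 => step (c i) (vec c u i)

/-- **ping-pong**: a cyclically reduced word of length `p ≥ 1` moves some small vector, and the
image is small -/
theorem pingpong (c : ℕ → Bool × Bool) (p : ℕ) (hp : 1 ≤ p)
    (hred : ∀ i, i + 1 < p → c i ≠ ((c (i + 1)).1, !(c (i + 1)).2)) :
    ∃ u : ℤ × ℤ, vec c u p ≠ u ∧ (-2 ≤ u.1 ∧ u.1 ≤ 2 ∧ -2 ≤ u.2 ∧ u.2 ≤ 2) ∧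
      (-(2 * 3 ^ p) ≤ (vec c u p).1 ∧ (vec c u p).1 ≤ 2 * 3 ^ p ∧
        -(2 * 3 ^ p) ≤ (vec c u p).2 ∧ (vec c u p).2 ≤ 2 * 3 ^ p) := by
  obtain ⟨r, hr1, hr2⟩ : ∃ r : Bool × Bool, r ≠ ((c 0).1, !(c 0).2) ∧ r ≠ c (p - 1) := by
    generalize ((c 0).1, !(c 0).2) = a
    generalize c (p - 1) = b
    revert a b
    decide
  have hreg : ∀ i, i < p → Reg (c i) (vec c (start r) (i + 1)) := by
    intro i
    induction i with
    | zero =>
      intro _
      exact reg_step (c 0) r _ (reg_start r) hr1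
    | succ i ih =>
      intro hi
      exact reg_step (c (i + 1)) (c i) _ (ih (by omega)) (hred i hi)
  have hb : ∀ i, -(2 * 3 ^ i) ≤ (vec c (start r) i).1 ∧ (vec c (start r) i).1 ≤ 2 * 3 ^ i ∧
      -(2 * 3 ^ i) ≤ (vec c (start r) i).2 ∧ (vec c (start r) i).2 ≤ 2 * 3 ^ i := by
    intro i
    induction i with
    | zero =>
      have := start_bound r
      simpa [vec] using this
    | succ i ih =>
      have h1 := step_bound (c i) (vec c (start r) i) (2 * 3 ^ i) ih.1 ih.2.1 ih.2.2.1 ih.2.2.2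
      have h2 : (3 : ℤ) * (2 * 3 ^ i) = 2 * 3 ^ (i + 1) := by ring
      rw [h2] at h1
      exact h1
  refine ⟨start r, ?_, start_bound r, hb p⟩
  intro he
  have h1 := hreg (p - 1) (by omega)
  have h2 : p - 1 + 1 = p := by omega
  rw [h2, he] at h1
  exact hr2 (reg_unique _ _ _ (reg_start r) h1)

section

variable (N : ℕ)

/-- the two generators -/
def gen (s : Bool) : (Matrix (Fin 2) (Fin 2) (ZMod N))ˣ :=
  match s with
  | false => ⟨!![1, 2; 0, 1], !![1, -2; 0, 1], by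
      simp [Matrix.one_fin_two], by
      simp [Matrix.one_fin_two]⟩
  | true => ⟨!![1, 0; 2, 1], !![1, 0; -2, 1], by
      simp [Matrix.one_fin_two], by
      simp [Matrix.one_fin_two]⟩

/-- the letter of a code -/
def let' (c : Bool × Bool) : (Matrix (Fin 2) (Fin 2) (ZMod N))ˣ :=
  if c.2 then (gen N c.1)⁻¹ else gen N c.1

theorem vecMul_letter (c : Bool × Bool) (u : ℤ × ℤ) :
    Matrix.vecMul ![(u.1 : ZMod N), (u.2 : ZMod N)] (let' N c : Matrix (Fin 2) (Fin 2) (ZMod N)) =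
      ![((step c u).1 : ZMod N), ((step c u).2 : ZMod N)] := by
  obtain ⟨x, y⟩ := u
  rcases c with ⟨_ | _, _ | _⟩
  · have h1 : ((let' N (false, false) : (Matrix (Fin 2) (Fin 2) (ZMod N))ˣ) :
        Matrix (Fin 2) (Fin 2) (ZMod N)) = !![1, 2; 0, 1] := rfl
    rw [h1]
    ext i
    fin_cases i <;> simp [step, Matrix.vecMul, dotProduct, Fin.sum_univ_two] <;> ring
  · have h1 : ((let' N (false, true) : (Matrix (Fin 2) (Fin 2) (ZMod N))ˣ) :
        Matrix (Fin 2) (Fin 2) (ZMod N)) = !![1, -2; 0, 1] := rfl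
    rw [h1]
    ext i
    fin_cases i <;> simp [step, Matrix.vecMul, dotProduct, Fin.sum_univ_two] <;> ring
  · have h1 : ((let' N (true, false) : (Matrix (Fin 2) (Fin 2) (ZMod N))ˣ) :
        Matrix (Fin 2) (Fin 2) (ZMod N)) = !![1, 0; 2, 1] := rfl
    rw [h1]
    ext i
    fin_cases i <;> simp [step, Matrix.vecMul, dotProduct, Fin.sum_univ_two] <;> ring
  · have h1 : ((let' N (true, true) : (Matrix (Fin 2) (Fin 2) (ZMod N))ˣ) :
        Matrix (Fin 2) (Fin 2) (ZMod N)) = !![1, 0; -2, 1] := rfl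
    rw [h1]
    ext i
    fin_cases i <;> simp [step, Matrix.vecMul, dotProduct, Fin.sum_univ_two] <;> ring

/-- the Cayley multigraph: the dart `((x, s), false)` starts at `x`, its reverse at `x * g_s` -/
def fC : (((Matrix (Fin 2) (Fin 2) (ZMod N))ˣ) × Bool) × Bool →
    (Matrix (Fin 2) (Fin 2) (ZMod N))ˣ :=
  fun h => if h.2 then h.1.1 * gen N h.1.2 else h.1.1

theorem fC_inj (x y : (Matrix (Fin 2) (Fin 2) (ZMod N))ˣ) (s b : Bool)
    (h : fC N ((x, s), b) = fC N ((y, s), b)) : x = y := by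
  cases b
  · exact h
  · exact mul_right_cancel h

theorem fC_flip (h : (((Matrix (Fin 2) (Fin 2) (ZMod N))ˣ) × Bool) × Bool) :
    fC N (flipE _ h) = fC N h * let' N (h.1.2, h.2) := by
  obtain ⟨⟨x, s⟩, b⟩ := h
  cases b
  · rfl
  · exact (mul_inv_cancel_right x (gen N s)).symm

theorem fC_code (v : (Matrix (Fin 2) (Fin 2) (ZMod N))ˣ) (s b : Bool) :
    fC N ((if b then v * (gen N s)⁻¹ else v, s), b) = v := by
  cases b
  · rfl
  · exact inv_mul_cancel_right v (gen N s)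

theorem deg_fC (v : (Matrix (Fin 2) (Fin 2) (ZMod N))ˣ) : Deg (fC N) v = 4 := by
  unfold Deg
  have e : {h // fC N h = v} ≃ Bool × Bool :=
    { toFun := fun h => (h.1.1.2, h.1.2)
      invFun := fun c => ⟨((if c.2 then v * (gen N c.1)⁻¹ else v, c.1), c.2),
        fC_code N v c.1 c.2⟩
      left_inv := by
        rintro ⟨⟨⟨x, s⟩, b⟩, h⟩
        apply Subtype.ext
        cases b
        · have h1 : x = v := h
          show ((v, s), false) = ((x, s), false)
          rw [h1]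
        · have h1 : x * gen N s = v := h
          have h2 : x = v * (gen N s)⁻¹ := by rw [← h1, mul_inv_cancel_right]
          show ((v * (gen N s)⁻¹, s), true) = ((x, s), true)
          rw [← h2]
      right_inv := fun _ => rfl }
  rw [Nat.card_congr e]
  simp

end

/-- the girth of the Cayley multigraph -/
theorem girth (γ : ℕ) : GirthGE (fC (4 * 3 ^ γ)) γ := by
  classical
  intro S nxt hS h1 _ h3
  have hN0 : NeZero (4 * 3 ^ γ) := ⟨by positivity⟩
  have hSfin : S.Finite := Set.toFinite S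
  obtain ⟨h0, hh0⟩ := hS
  let hs : ℕ → ((((Matrix (Fin 2) (Fin 2) (ZMod (4 * 3 ^ γ)))ˣ) × Bool) × Bool) :=
    fun k => nxt^[k] h0
  have hs_succ : ∀ k, hs (k + 1) = nxt (hs k) := fun k => Function.iterate_succ_apply' nxt k h0
  have hsS : ∀ k, hs k ∈ S := by
    intro k
    induction k with
    | zero => exact hh0
    | succ k ih =>
      rw [hs_succ]
      exact (h1 _ ih).1
  have hcancel : ∀ i d, hs i = hs (i + d) → hs 0 = hs d := by
    intro i
    induction i with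
    | zero =>
      intro d hd
      rw [Nat.zero_add] at hd
      exact hd
    | succ i ih =>
      intro d hd
      apply ih
      have e1 : i + 1 + d = i + d + 1 := by omega
      rw [e1, hs_succ, hs_succ] at hd
      exact h3 _ (hsS _) _ (hsS _) hd
  obtain ⟨p, hp1, hp2, hp3⟩ : ∃ p, 1 ≤ p ∧ p ≤ S.ncard ∧ hs 0 = hs p := by
    have hc : S.ncard < (↑(Finset.range (S.ncard + 1)) : Set ℕ).ncard := by
      rw [Set.ncard_coe_finset, Finset.card_range]
      omega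
    obtain ⟨x, hx, y, hy, hxy, he⟩ := Set.exists_ne_map_eq_of_ncard_lt_of_maps_to hc
      (f := hs) (fun k _ => hsS k) hSfin
    have hx' : x < S.ncard + 1 := by simpa using hx
    have hy' : y < S.ncard + 1 := by simpa using hy
    rcases lt_or_gt_of_ne hxy with h | h
    · refine ⟨y - x, by omega, by omega, hcancel x (y - x) ?_⟩
      rw [he]
      congr 1
      omega
    · refine ⟨x - y, by omega, by omega, hcancel y (x - y) ?_⟩
      rw [← he]
      congr 1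
      omega
  let c : ℕ → Bool × Bool := fun i => ((hs i).1.2, (hs i).2)
  have hf : ∀ i, fC (4 * 3 ^ γ) (hs (i + 1)) = fC (4 * 3 ^ γ) (hs i) * let' (4 * 3 ^ γ) (c i) := by
    intro i
    rw [hs_succ, (h1 _ (hsS i)).2.1, fC_flip]
  have hred : ∀ i, i + 1 < p → c i ≠ ((c (i + 1)).1, !(c (i + 1)).2) := by
    intro i _ he
    have h4 := h1 _ (hsS i)
    rw [← hs_succ] at h4
    apply h4.2.2
    have e1 : (hs i).1.2 = (hs (i + 1)).1.2 := congrArg Prod.fst he
    have e2 : (hs i).2 = !(hs (i + 1)).2 := congrArg Prod.snd he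
    have e3 : (hs (i + 1)).2 = !(hs i).2 := by rw [e2, Bool.not_not]
    have e4 : flipE (((Matrix (Fin 2) (Fin 2) (ZMod (4 * 3 ^ γ)))ˣ) × Bool) (hs i) =
        (((hs i).1.1, (hs i).1.2), !(hs i).2) := rfl
    have e5 : hs (i + 1) = (((hs (i + 1)).1.1, (hs i).1.2), !(hs i).2) := by
      rw [e1, ← e3]
    have h5 := h4.2.1
    rw [e4, e5] at h5
    rw [e4, e5, fC_inj _ _ _ _ _ h5]
  by_contra hlt
  obtain ⟨u, hu1, hu2, hu3⟩ := pingpong c p hp1 hred
  have hvec : ∀ i, Matrix.vecMul ![(u.1 : ZMod (4 * 3 ^ γ)), (u.2 : ZMod (4 * 3 ^ γ))]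
      (((fC (4 * 3 ^ γ) (hs 0))⁻¹ * fC (4 * 3 ^ γ) (hs i) :
        (Matrix (Fin 2) (Fin 2) (ZMod (4 * 3 ^ γ)))ˣ) : Matrix (Fin 2) (Fin 2) (ZMod (4 * 3 ^ γ))) =
      ![((vec c u i).1 : ZMod (4 * 3 ^ γ)), ((vec c u i).2 : ZMod (4 * 3 ^ γ))] := by
    intro i
    induction i with
    | zero =>
      rw [inv_mul_cancel, Units.val_one, Matrix.vecMul_one]
      rfl
    | succ i ih =>
      rw [hf i, ← mul_assoc, Units.val_mul, ← Matrix.vecMul_vecMul, ih]
      exact vecMul_letter _ _ _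
  have h6 := hvec p
  rw [← hp3, inv_mul_cancel, Units.val_one, Matrix.vecMul_one] at h6
  have h7 : (u.1 : ZMod (4 * 3 ^ γ)) = ((vec c u p).1 : ZMod (4 * 3 ^ γ)) := congrFun h6 0
  have h8 : (u.2 : ZMod (4 * 3 ^ γ)) = ((vec c u p).2 : ZMod (4 * 3 ^ γ)) := congrFun h6 1
  rw [ZMod.intCast_eq_intCast_iff_dvd_sub] at h7 h8
  have hpow : 3 * 3 ^ p ≤ (3 : ℤ) ^ γ := by
    have : (3 : ℤ) * 3 ^ p = 3 ^ (p + 1) := by ring
    rw [this]
    exact pow_le_pow_right₀ (by norm_num) (by omega)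
  have hpos : (1 : ℤ) ≤ 3 ^ p := one_le_pow₀ (by norm_num)
  have hNc : ((4 * 3 ^ γ : ℕ) : ℤ) = 4 * 3 ^ γ := by push_cast; ring
  rw [hNc] at h7 h8
  obtain ⟨b1, b2, b3, b4⟩ := hu2
  obtain ⟨d1, d2, d3, d4⟩ := hu3
  have h9 : (vec c u p).1 - u.1 = 0 := Int.eq_zero_of_abs_lt_dvd h7 (by
    rw [abs_lt]
    constructor <;> linarith)
  have h10 : (vec c u p).2 - u.2 = 0 := Int.eq_zero_of_abs_lt_dvd h8 (by
    rw [abs_lt]
    constructor <;> linarith)
  exact hu1 (Prod.ext (by linarith) (by linarith))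

end Cayley

/-- 4-regular multigraphs of girth at least `γ` with at most `(4 * 3 ^ γ) ^ 4` vertices -/
theorem exists_girth (γ : ℕ) : ∃ (V E : Type) (_ : Finite V) (_ : Finite E) (f : E × Bool → V),
    1 ≤ Nat.card V ∧ Nat.card V ≤ (4 * 3 ^ γ) ^ 4 ∧ Nat.card E = 2 * Nat.card V ∧
      (∀ v, Deg f v = 4) ∧ GirthGE f γ := by
  classical
  have hN0 : NeZero (4 * 3 ^ γ) := ⟨by positivity⟩
  have hfin : Finite ((Matrix (Fin 2) (Fin 2) (ZMod (4 * 3 ^ γ)))ˣ) :=
    Finite.of_injective (fun x => (x : Matrix (Fin 2) (Fin 2) (ZMod (4 * 3 ^ γ))))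
      Units.val_injective
  refine ⟨(Matrix (Fin 2) (Fin 2) (ZMod (4 * 3 ^ γ)))ˣ,
    (Matrix (Fin 2) (Fin 2) (ZMod (4 * 3 ^ γ)))ˣ × Bool, hfin, inferInstance,
    Cayley.fC (4 * 3 ^ γ), Nat.card_pos, ?_, ?_, Cayley.deg_fC _, Cayley.girth γ⟩
  · have h1 := Nat.card_le_card_of_injective
      (fun x : (Matrix (Fin 2) (Fin 2) (ZMod (4 * 3 ^ γ)))ˣ =>
        (x : Matrix (Fin 2) (Fin 2) (ZMod (4 * 3 ^ γ)))) Units.val_injective
    refine h1.trans (le_of_eq ?_)
    show Nat.card (Fin 2 → Fin 2 → ZMod (4 * 3 ^ γ)) = _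
    rw [Nat.card_fun, Nat.card_fun, Nat.card_zmod, Nat.card_fin, ← pow_mul]
  · rw [Nat.card_prod]
    simp
    ring

end KernelCount
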