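import Mathlib
import Pool.Agent.Lib.MP_b69e89_co.Count
import Pool.Agent.Lib.MP_b69e89_co_L.Girth

/-!
# MP_b69e89_co : `2 a`-regular multigraphs of large girth

The Cayley graph of the group of invertible `2 × 2` matrices over `ZMod N` with respect to
`a` unipotent matrices `1 + 2 v w`.
-/

namespace KernelCount

open Equiv Equiv.Perm Matrix

namespace CayleyR

/-- the linear form of a generator -/
def frm (i : ℕ) (u : ℤ × ℤ) : ℤ := u.1 - 4 * i * u.2

/-- the sign of a letter -/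
def sgn (b : Bool) : ℤ := if b then -1 else 1

/-- one letter acting on an integer row vector; the code is (generator, inverse?) -/
def step (i : ℕ) (b : Bool) (u : ℤ × ℤ) : ℤ × ℤ :=
  (u.1 + 8 * i * (sgn b * frm i u), u.2 + 2 * (sgn b * frm i u))

/-- the region of a letter -/
def Reg (i : ℕ) (b : Bool) (u : ℤ × ℤ) : Prop :=
  0 < sgn b * frm i u * u.2 ∧ |frm i u| ≤ |u.2|

theorem sgn_cases (b : Bool) : sgn b = 1 ∨ sgn b = -1 := by
  cases b
  · left; rfl
  · right; rfl

theorem frm_step (i : ℕ) (b : Bool) (u : ℤ × ℤ) : frm i (step i b u) = frm i u := by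
  unfold frm step
  simp only
  ring

theorem frm_other (i j : ℕ) (u : ℤ × ℤ) : frm j u = frm i u + 4 * ((i : ℤ) - j) * u.2 := by
  unfold frm
  ring

theorem reg_step_same (i : ℕ) (b : Bool) (u : ℤ × ℤ) (h : Reg i b u) :
    Reg i b (step i b u) ∧ |u.2| ≤ |(step i b u).2| := by
  obtain ⟨h1, h2⟩ := h
  have h3 := frm_step i b u
  have h4 : (step i b u).2 = u.2 + 2 * (sgn b * frm i u) := rfl
  have h5 : |u.2| ≤ |u.2 + 2 * (sgn b * frm i u)| := by
    rcases lt_trichotomy u.2 0 with h | h | h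
    · have h6 : sgn b * frm i u < 0 := by
        by_contra h7
        have := mul_nonpos_of_nonneg_of_nonpos (not_lt.1 h7) h.le
        linarith
      rw [abs_of_neg h, abs_of_neg (by linarith)]
      linarith
    · rw [h] at h1
      simp at h1
    · have h6 : 0 < sgn b * frm i u := by
        by_contra h7
        have := mul_nonpos_of_nonpos_of_nonneg (not_lt.1 h7) h.le
        linarith
      rw [abs_of_pos h, abs_of_pos (by linarith)]
      linarith
  refine ⟨⟨?_, ?_⟩, ?_⟩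
  · rw [h3, h4, mul_add]
    have : 0 ≤ sgn b * frm i u * (2 * (sgn b * frm i u)) := by
      nlinarith [sq_nonneg (sgn b * frm i u)]
    linarith
  · rw [h3, h4]
    exact h2.trans h5
  · rw [h4]
    exact h5

theorem reg_step_big (j : ℕ) (b : Bool) (u : ℤ × ℤ) (h0 : frm j u ≠ 0)
    (h : |u.2| ≤ |frm j u|) :
    Reg j b (step j b u) ∧ |u.2| ≤ |(step j b u).2| := by
  have h3 := frm_step j b u
  have h4 : (step j b u).2 = u.2 + 2 * (sgn b * frm j u) := rfl
  have hs : |sgn b * frm j u| = |frm j u| := by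
    rcases sgn_cases b with e | e <;> rw [e] <;> simp
  have hne : sgn b * frm j u ≠ 0 := by
    rw [← abs_pos, hs, abs_pos]
    exact h0
  have hpos : 0 < |sgn b * frm j u| := abs_pos.2 hne
  generalize hw : sgn b * frm j u = w at h4 hs hne hpos
  rw [← hs] at h
  have h5 : |w| ≤ |u.2 + 2 * w| := by
    rcases abs_cases w with ⟨e1, e2⟩ | ⟨e1, e2⟩ <;> rcases abs_cases u.2 with ⟨e3, e4⟩ | ⟨e3, e4⟩ <;>
      rcases abs_cases (u.2 + 2 * w) with ⟨e5, e6⟩ | ⟨e5, e6⟩ <;> rw [e1, e5] <;>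
      rw [e1, e3] at h <;> linarith
  refine ⟨⟨?_, ?_⟩, ?_⟩
  · rw [h3, hw, h4]
    rcases abs_cases w with ⟨e1, e2⟩ | ⟨e1, e2⟩ <;> rcases abs_cases u.2 with ⟨e3, e4⟩ | ⟨e3, e4⟩ <;>
      rw [e1, e3] at h <;> rw [e1] at hpos <;> nlinarith
  · rw [h3, h4, ← hs]
    exact h5
  · rw [h4]
    exact h.trans h5

theorem reg_step (i j : ℕ) (b b' : Bool) (u : ℤ × ℤ) (h : Reg i b u)
    (hc : (i, b) ≠ (j, !b')) :
    Reg j b' (step j b' u) := by
  by_cases hij : i = j
  · subst hij
    have hb : b = b' := by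
      cases b <;> cases b' <;> simp_all
    subst hb
    exact (reg_step_same i b u h).1
  · obtain ⟨h1, h2⟩ := h
    have hu : u.2 ≠ 0 := by
      intro h3
      rw [h3] at h1
      simp at h1
    have hu' : 0 < |u.2| := abs_pos.2 hu
    have h3 : 3 * |u.2| ≤ |frm j u| := by
      rw [frm_other i j u]
      have h4 : (1 : ℤ) ≤ |(i : ℤ) - j| := by
        have : (i : ℤ) - j ≠ 0 := by
          intro h5
          apply hij
          omega
        exact Int.one_le_abs this
      have h5 : |4 * ((i : ℤ) - j) * u.2| = 4 * |(i : ℤ) - j| * |u.2| := by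
        rw [abs_mul, abs_mul]
        simp
      have h6 : |4 * ((i : ℤ) - j) * u.2| - |frm i u| ≤
          |frm i u + 4 * ((i : ℤ) - j) * u.2| := by
        have := abs_sub_abs_le_abs_sub (4 * ((i : ℤ) - j) * u.2) (-(frm i u))
        rw [abs_neg, sub_neg_eq_add, add_comm (4 * ((i : ℤ) - j) * u.2)] at this
        exact this
      rw [h5] at h6
      nlinarith
    exact (reg_step_big j b' u (by rw [← abs_pos]; linarith) (by linarith)).1

theorem reg_start (i : ℕ) (b : Bool) : Reg i b (step i b (1, 0)) :=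
  (reg_step_big i b (1, 0) (by simp [frm]) (by simp [frm])).1

theorem step_bound (a i : ℕ) (hi : i < a) (b : Bool) (u : ℤ × ℤ) (M : ℤ) (h1 : |u.1| ≤ M)
    (h2 : |u.2| ≤ M) : |(step i b u).1| ≤ 49 * a ^ 2 * M ∧ |(step i b u).2| ≤ 49 * a ^ 2 * M := by
  have hM : 0 ≤ M := (abs_nonneg _).trans h1
  have ha : (1 : ℤ) ≤ a := by
    have : 1 ≤ a := by omega
    exact_mod_cast this
  have hia : (i : ℤ) ≤ a := by exact_mod_cast hi.le
  have hi0 : (0 : ℤ) ≤ i := Int.natCast_nonneg i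
  have hf : |frm i u| ≤ 5 * a * M := by
    unfold frm
    have h3 := abs_sub u.1 (4 * i * u.2)
    have h4 : |4 * (i : ℤ) * u.2| = 4 * i * |u.2| := by
      rw [abs_mul, abs_mul]
      simp
    rw [h4] at h3
    have h5 : 4 * (i : ℤ) * |u.2| ≤ 4 * a * M :=
      mul_le_mul (by linarith) h2 (abs_nonneg _) (by linarith)
    nlinarith
  have hs : |sgn b * frm i u| ≤ 5 * a * M := by
    rcases sgn_cases b with e | e <;> rw [e] <;> simpa using hf
  constructor
  · show |u.1 + 8 * i * (sgn b * frm i u)| ≤ _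
    have h3 := abs_add_le u.1 (8 * i * (sgn b * frm i u))
    have h4 : |8 * (i : ℤ) * (sgn b * frm i u)| = 8 * i * |sgn b * frm i u| := by
      rw [abs_mul, abs_mul]
      simp
    rw [h4] at h3
    have h5 : 8 * (i : ℤ) * |sgn b * frm i u| ≤ 8 * a * (5 * a * M) :=
      mul_le_mul (by linarith) hs (abs_nonneg _) (by linarith)
    nlinarith [mul_nonneg hM (sub_nonneg.2 ha), mul_nonneg hM (mul_nonneg (sub_nonneg.2 ha) (by linarith : (0:ℤ) ≤ a + 1))]
  · show |u.2 + 2 * (sgn b * frm i u)| ≤ _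
    have h3 := abs_add_le u.2 (2 * (sgn b * frm i u))
    have h4 : |2 * (sgn b * frm i u)| = 2 * |sgn b * frm i u| := by
      rw [abs_mul]
      simp
    rw [h4] at h3
    nlinarith [mul_nonneg hM (sub_nonneg.2 ha), mul_nonneg hM (mul_nonneg (sub_nonneg.2 ha) (by linarith : (0:ℤ) ≤ a + 1))]

/-- the sequence of vectors along a word -/
def vec (c : ℕ → ℕ × Bool) (u : ℤ × ℤ) : ℕ → ℤ × ℤ
  | 0 => u
  | i + 1 => step (c i).1 (c i).2 (vec c u i)

/-- **ping-pong** -/
theorem pingpong (a : ℕ) (c : ℕ → ℕ × Bool) (hca : ∀ i, (c i).1 < a) (p : ℕ) (hp : 1 ≤ p)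
    (hred : ∀ i, i + 1 < p → c i ≠ ((c (i + 1)).1, !(c (i + 1)).2)) :
    (vec c (1, 0) p).2 ≠ 0 ∧ |(vec c (1, 0) p).2| ≤ (49 * a ^ 2) ^ p := by
  have hreg : ∀ i, i < p → Reg (c i).1 (c i).2 (vec c (1, 0) (i + 1)) := by
    intro i
    induction i with
    | zero =>
      intro _
      exact reg_start _ _
    | succ i ih =>
      intro hi
      exact reg_step _ _ _ _ _ (ih (by omega)) (hred i hi)
  have hb : ∀ i, |(vec c (1, 0) i).1| ≤ (49 * a ^ 2) ^ i ∧ |(vec c (1, 0) i).2| ≤ (49 * a ^ 2) ^ i := by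
    intro i
    induction i with
    | zero => simp [vec]
    | succ i ih =>
      have h1 := step_bound a (c i).1 (hca i) (c i).2 (vec c (1, 0) i) _ ih.1 ih.2
      rw [pow_succ, mul_comm ((49 * (a : ℤ) ^ 2) ^ i)]
      exact h1
  refine ⟨?_, (hb p).2⟩
  intro he
  have h1 := hreg (p - 1) (by omega)
  have h2 : p - 1 + 1 = p := by omega
  rw [h2] at h1
  have h3 := h1.1
  rw [he] at h3
  simp at h3

section

variable (N : ℕ)

/-- the generators -/
def gen (i : ℕ) : (Matrix (Fin 2) (Fin 2) (ZMod N))ˣ :=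
  ⟨!![1 + 8 * (i : ZMod N), 2; -(32 * (i : ZMod N) ^ 2), 1 - 8 * (i : ZMod N)],
    !![1 - 8 * (i : ZMod N), -2; 32 * (i : ZMod N) ^ 2, 1 + 8 * (i : ZMod N)], by
      rw [Matrix.mul_fin_two, Matrix.one_fin_two]
      congr 1
      ext x y
      fin_cases x <;> fin_cases y <;> simp <;> ring, by
      rw [Matrix.mul_fin_two, Matrix.one_fin_two]
      congr 1
      ext x y
      fin_cases x <;> fin_cases y <;> simp <;> ring⟩

/-- the letter of a code -/
def let' (c : ℕ × Bool) : (Matrix (Fin 2) (Fin 2) (ZMod N))ˣ :=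
  if c.2 then (gen N c.1)⁻¹ else gen N c.1

theorem vecMul_letter (c : ℕ × Bool) (u : ℤ × ℤ) :
    Matrix.vecMul ![(u.1 : ZMod N), (u.2 : ZMod N)] (let' N c : Matrix (Fin 2) (Fin 2) (ZMod N)) =
      ![((step c.1 c.2 u).1 : ZMod N), ((step c.1 c.2 u).2 : ZMod N)] := by
  obtain ⟨x, y⟩ := u
  rcases c with ⟨i, _ | _⟩
  · have h1 : ((let' N (i, false) : (Matrix (Fin 2) (Fin 2) (ZMod N))ˣ) :
        Matrix (Fin 2) (Fin 2) (ZMod N)) =
        !![1 + 8 * (i : ZMod N), 2; -(32 * (i : ZMod N) ^ 2), 1 - 8 * (i : ZMod N)] := rfl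
    rw [h1]
    ext k
    fin_cases k <;> simp [step, sgn, frm, Matrix.vecMul, dotProduct, Fin.sum_univ_two] <;> ring
  · have h1 : ((let' N (i, true) : (Matrix (Fin 2) (Fin 2) (ZMod N))ˣ) :
        Matrix (Fin 2) (Fin 2) (ZMod N)) =
        !![1 - 8 * (i : ZMod N), -2; 32 * (i : ZMod N) ^ 2, 1 + 8 * (i : ZMod N)] := rfl
    rw [h1]
    ext k
    fin_cases k <;> simp [step, sgn, frm, Matrix.vecMul, dotProduct, Fin.sum_univ_two] <;> ring

variable {a : ℕ}

/-- the Cayley multigraph: the dart `((x, s), false)` starts at `x`, its reverse at `x * g_s` -/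
def fC (N a : ℕ) : (((Matrix (Fin 2) (Fin 2) (ZMod N))ˣ) × Fin a) × Bool →
    (Matrix (Fin 2) (Fin 2) (ZMod N))ˣ :=
  fun h => if h.2 then h.1.1 * gen N h.1.2 else h.1.1

theorem fC_inj (x y : (Matrix (Fin 2) (Fin 2) (ZMod N))ˣ) (s : Fin a) (b : Bool)
    (h : fC N a ((x, s), b) = fC N a ((y, s), b)) : x = y := by
  cases b
  · exact h
  · exact mul_right_cancel h

theorem fC_flip (h : (((Matrix (Fin 2) (Fin 2) (ZMod N))ˣ) × Fin a) × Bool) :
    fC N a (flipE _ h) = fC N a h * let' N (h.1.2, h.2) := by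
  obtain ⟨⟨x, s⟩, b⟩ := h
  cases b
  · rfl
  · exact (mul_inv_cancel_right x (gen N s)).symm

theorem fC_code (v : (Matrix (Fin 2) (Fin 2) (ZMod N))ˣ) (s : Fin a) (b : Bool) :
    fC N a ((if b then v * (gen N s)⁻¹ else v, s), b) = v := by
  cases b
  · rfl
  · exact inv_mul_cancel_right v (gen N s)

theorem deg_fC (v : (Matrix (Fin 2) (Fin 2) (ZMod N))ˣ) : Deg (fC N a) v = 2 * a := by
  unfold Deg
  have e : {h // fC N a h = v} ≃ Fin a × Bool :=
    { toFun := fun h => (h.1.1.2, h.1.2)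
      invFun := fun c => ⟨((if c.2 then v * (gen N c.1)⁻¹ else v, c.1), c.2),
        fC_code N v c.1 c.2⟩
      left_inv := by
        rintro ⟨⟨⟨x, s⟩, b⟩, h⟩
        apply Subtype.ext
        cases b
        · have h1 : x = v := h
          show ((v, s), false) = ((x, s), false)
          rw [h1]
        · have h1 : x * gen N s = v := h
          have h2 : x = v * (gen N s)⁻¹ := by rw [← h1, mul_inv_cancel_right]
          show ((v * (gen N s)⁻¹, s), true) = ((x, s), true)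
          rw [← h2]
      right_inv := fun _ => rfl }
  rw [Nat.card_congr e, Nat.card_prod]
  simp
  ring

end

/-- the girth of the Cayley multigraph -/
theorem girth (a γ : ℕ) (N : ℕ) (hN : (49 * a ^ 2) ^ γ < N) : GirthGE (fC N a) γ := by
  classical
  intro S nxt hS h1 _ h3
  have hN0 : NeZero N := ⟨by omega⟩
  have hSfin : S.Finite := Set.toFinite S
  obtain ⟨h0, hh0⟩ := hS
  let hs : ℕ → ((((Matrix (Fin 2) (Fin 2) (ZMod N))ˣ) × Fin a) × Bool) :=
    fun k => nxt^[k] h0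
  have hs_succ : ∀ k, hs (k + 1) = nxt (hs k) := fun k => Function.iterate_succ_apply' nxt k h0
  have hsS : ∀ k, hs k ∈ S := by
    intro k
    induction k with
    | zero => exact hh0
    | succ k ih =>
      rw [hs_succ]
      exact (h1 _ ih).1
  have hcancel : ∀ i d, hs i = hs (i + d) → hs 0 = hs d := by
    intro i
    induction i with
    | zero =>
      intro d hd
      rw [Nat.zero_add] at hd
      exact hd
    | succ i ih =>
      intro d hd
      apply ih
      have e1 : i + 1 + d = i + d + 1 := by omega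
      rw [e1, hs_succ, hs_succ] at hd
      exact h3 _ (hsS _) _ (hsS _) hd
  obtain ⟨p, hp1, hp2, hp3⟩ : ∃ p, 1 ≤ p ∧ p ≤ S.ncard ∧ hs 0 = hs p := by
    have hc : S.ncard < (↑(Finset.range (S.ncard + 1)) : Set ℕ).ncard := by
      rw [Set.ncard_coe_finset, Finset.card_range]
      omega
    obtain ⟨x, hx, y, hy, hxy, he⟩ := Set.exists_ne_map_eq_of_ncard_lt_of_maps_to hc
      (f := hs) (fun k _ => hsS k) hSfin
    have hx' : x < S.ncard + 1 := by simpa using hx
    have hy' : y < S.ncard + 1 := by simpa using hy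
    rcases lt_or_gt_of_ne hxy with h | h
    · refine ⟨y - x, by omega, by omega, hcancel x (y - x) ?_⟩
      rw [he]
      congr 1
      omega
    · refine ⟨x - y, by omega, by omega, hcancel y (x - y) ?_⟩
      rw [← he]
      congr 1
      omega
  let c : ℕ → ℕ × Bool := fun i => (((hs i).1.2 : Fin a), (hs i).2)
  have hca : ∀ i, (c i).1 < a := fun i => (hs i).1.2.2
  have hf : ∀ i, fC N a (hs (i + 1)) = fC N a (hs i) * let' N (c i) := by
    intro i
    rw [hs_succ, (h1 _ (hsS i)).2.1, fC_flip]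
  have hred : ∀ i, i + 1 < p → c i ≠ ((c (i + 1)).1, !(c (i + 1)).2) := by
    intro i _ he
    have h4 := h1 _ (hsS i)
    rw [← hs_succ] at h4
    apply h4.2.2
    have e1 : (hs i).1.2 = (hs (i + 1)).1.2 := Fin.ext (congrArg Prod.fst he)
    have e2 : (hs i).2 = !(hs (i + 1)).2 := congrArg Prod.snd he
    have e3 : (hs (i + 1)).2 = !(hs i).2 := by rw [e2, Bool.not_not]
    have e4 : flipE (((Matrix (Fin 2) (Fin 2) (ZMod N))ˣ) × Fin a) (hs i) =
        (((hs i).1.1, (hs i).1.2), !(hs i).2) := rfl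
    have e5 : hs (i + 1) = (((hs (i + 1)).1.1, (hs i).1.2), !(hs i).2) := by
      rw [e1, ← e3]
    have h5 := h4.2.1
    rw [e4, e5] at h5
    rw [e4, e5, fC_inj _ _ _ _ _ h5]
  by_contra hlt
  obtain ⟨hu1, hu2⟩ := pingpong a c hca p hp1 hred
  have hvec : ∀ i, Matrix.vecMul ![(((1 : ℤ), (0 : ℤ)).1 : ZMod N), (((1 : ℤ), (0 : ℤ)).2 : ZMod N)]
      (((fC N a (hs 0))⁻¹ * fC N a (hs i) :
        (Matrix (Fin 2) (Fin 2) (ZMod N))ˣ) : Matrix (Fin 2) (Fin 2) (ZMod N)) =
      ![((vec c (1, 0) i).1 : ZMod N), ((vec c (1, 0) i).2 : ZMod N)] := by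
    intro i
    induction i with
    | zero =>
      rw [inv_mul_cancel, Units.val_one, Matrix.vecMul_one]
      rfl
    | succ i ih =>
      rw [hf i, ← mul_assoc, Units.val_mul, ← Matrix.vecMul_vecMul, ih]
      exact vecMul_letter _ _ _
  have h6 := hvec p
  rw [← hp3, inv_mul_cancel, Units.val_one, Matrix.vecMul_one] at h6
  have h8 : (((1 : ℤ), (0 : ℤ)).2 : ZMod N) = ((vec c (1, 0) p).2 : ZMod N) := congrFun h6 1
  rw [ZMod.intCast_eq_intCast_iff_dvd_sub] at h8
  simp only [sub_zero] at h8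
  have h9 := Int.eq_zero_of_abs_lt_dvd h8 (by
    refine lt_of_le_of_lt hu2 ?_
    have h10 : (49 * a ^ 2) ^ p ≤ (49 * a ^ 2) ^ γ := by
      refine Nat.pow_le_pow_right ?_ (by omega)
      have := hca 0
      have : 0 < a := by omega
      positivity
    have h11 : (49 * a ^ 2) ^ p < N := lt_of_le_of_lt h10 hN
    exact_mod_cast h11)
  exact hu1 h9

end CayleyR

/-- `2 a`-regular multigraphs of girth at least `γ` with at most `((100 a^2) ^ (γ + 1)) ^ 4`
vertices -/
theorem exists_girth_gen (a γ : ℕ) (ha : 1 ≤ a) :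
    ∃ (V E : Type) (_ : Finite V) (_ : Finite E) (f : E × Bool → V),
    1 ≤ Nat.card V ∧ Nat.card V ≤ ((100 * a ^ 2) ^ (γ + 1)) ^ 4 ∧
      Nat.card E = a * Nat.card V ∧ (∀ v, Deg f v = 2 * a) ∧ GirthGE f γ := by
  classical
  have ha2 : 0 < a ^ 2 := by positivity
  have hN : (49 * a ^ 2) ^ γ < (100 * a ^ 2) ^ (γ + 1) := by
    calc (49 * a ^ 2) ^ γ ≤ (100 * a ^ 2) ^ γ := Nat.pow_le_pow_left (by omega) γ
      _ < (100 * a ^ 2) ^ (γ + 1) := Nat.pow_lt_pow_right (by omega) (by omega)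
  have hN0 : NeZero ((100 * a ^ 2) ^ (γ + 1)) := ⟨by positivity⟩
  generalize (100 * a ^ 2) ^ (γ + 1) = N at hN hN0
  have hfin : Finite ((Matrix (Fin 2) (Fin 2) (ZMod N))ˣ) :=
    Finite.of_injective (fun x => (x : Matrix (Fin 2) (Fin 2) (ZMod N)))
      Units.val_injective
  refine ⟨(Matrix (Fin 2) (Fin 2) (ZMod N))ˣ,
    (Matrix (Fin 2) (Fin 2) (ZMod N))ˣ × Fin a, hfin, inferInstance,
    CayleyR.fC N a, Nat.card_pos, ?_, ?_, CayleyR.deg_fC _, CayleyR.girth a γ N hN⟩
  · have h1 := Nat.card_le_card_of_injective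
      (fun x : (Matrix (Fin 2) (Fin 2) (ZMod N))ˣ =>
        (x : Matrix (Fin 2) (Fin 2) (ZMod N))) Units.val_injective
    refine h1.trans (le_of_eq ?_)
    show Nat.card (Fin 2 → Fin 2 → ZMod N) = _
    rw [Nat.card_fun, Nat.card_fun, Nat.card_zmod, Nat.card_fin, ← pow_mul]
  · rw [Nat.card_prod]
    simp
    ring

end KernelCount
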