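import Mathlib
import Pool.Agent.Lib.MP_b69e89_co.K47
import Pool.Agent.Lib.MP_b69e89_co.Count2

/-!
# MP_b69e89_co : a complete graph that does not embed, as a function of half-edges
-/

namespace KernelCount

open Function

/-- if `K_n` does not embed, then it is a multigraph with minimum degree at least three and
`n.choose 2` edges that does not embed -/
theorem bad_complete {g n : ℕ} (h : ¬ EmbedsOn g
    (fun p : {p : Sym2 (Fin n) // ¬ p.IsDiag} => (p : Sym2 (Fin n)))) :
    ∃ f : Fin (n.choose 2) × Bool → Fin n, (∀ v, 3 ≤ Deg f v) ∧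
      ¬ EmbH g (flipE (Fin (n.choose 2))) f := by
  classical
  have hn : 5 ≤ n := by
    by_contra hn
    exact h (complete_mono (by omega) (K4_embeds g))
  have hcard : Fintype.card {p : Sym2 (Fin n) // ¬ p.IsDiag} = n.choose 2 := by
    rw [Sym2.card_subtype_not_diag, Fintype.card_fin]
  let e : {p : Sym2 (Fin n) // ¬ p.IsDiag} ≃ Fin (n.choose 2) := Fintype.equivFinOfCardEq hcard
  have hx : ∀ p : Sym2 (Fin n), ∃ x : Fin n × Fin n, s(x.1, x.2) = p := by
    intro p
    induction p using Sym2.ind with | _ u v => ?_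
    exact ⟨(u, v), rfl⟩
  choose x hx using hx
  let f : Fin (n.choose 2) × Bool → Fin n := fun y =>
    if y.2 then (x (e.symm y.1).1).2 else (x (e.symm y.1).1).1
  have hf : ∀ i, s(f (i, false), f (i, true)) = (e.symm i).1 := by
    intro i
    exact hx _
  refine ⟨f, ?_, ?_⟩
  · intro v
    have hw : ∀ w : {w : Fin n // w ≠ v}, ∃ y : Fin (n.choose 2) × Bool, f y = v ∧
        (e.symm y.1).1 = s(v, w.1) := by
      rintro ⟨w, hw⟩
      have hd : ¬ (s(v, w)).IsDiag := fun h => hw (Sym2.mk_isDiag_iff.1 h).symm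
      have h1 := hf (e ⟨s(v, w), hd⟩)
      rw [Equiv.symm_apply_apply] at h1
      rcases Sym2.eq_iff.1 h1 with ⟨h2, h3⟩ | ⟨h2, h3⟩
      · exact ⟨(e ⟨s(v, w), hd⟩, false), h2, by simp⟩
      · exact ⟨(e ⟨s(v, w), hd⟩, true), h3, by simp⟩
    choose y hy1 hy2 using hw
    have h3 : Nat.card {w : Fin n // w ≠ v} ≤ Deg f v := by
      unfold Deg
      refine Nat.card_le_card_of_injective
        (fun w : {w : Fin n // w ≠ v} => (⟨y w, hy1 w⟩ : {h // f h = v})) ?_
      intro w w' hww
      have h4 : y w = y w' := congrArg Subtype.val hww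
      have h5 := hy2 w
      rw [h4, hy2 w'] at h5
      exact Subtype.ext (Sym2.congr_right.1 h5).symm
    have h4 : Nat.card {w : Fin n // w ≠ v} = n - 1 := by
      rw [Nat.card_eq_fintype_card]
      simp
    omega
  · intro hE
    rw [embH_flip_iff] at hE
    have h2 := hE.comp e e.injective
    have h3 : (fun i => s(f (i, false), f (i, true))) ∘ e =
        fun p : {p : Sym2 (Fin n) // ¬ p.IsDiag} => (p : Sym2 (Fin n)) := by
      funext p
      rw [Function.comp_apply, hf, Equiv.symm_apply_apply]
    rw [h3] at h2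
    exact h h2

end KernelCount
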