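import Mathlib
import Pool.Agent.Lib.MP_b69e89_co.Count
import Pool.Agent.Lib.MP_b69e89_co_L.Girth

/-!
# MP_b69e89_co : disjoint copies of a 4-regular multigraph of large girth
-/

set_option autoImplicit false

namespace KernelCount

/-- disjoint copies of a 4-regular multigraph: the degrees and the girth are kept -/
theorem copies {E V : Type} [Finite E] [Finite V] (f : E × Bool → V) (γ t n0 : ℕ)
    (hg : GirthGE f γ) (hd : ∀ v, Deg f v = 4) (hV : Nat.card V = n0)
    (hE : Nat.card E = 2 * n0) :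
    ∃ f' : Fin (2 * (t * n0)) × Bool → Fin (t * n0),
      (∀ v, Deg f' v = 4) ∧ GirthGE f' γ := by
  have c1 : Nat.card (Fin t × E) = 2 * (t * n0) := by
    rw [Nat.card_prod, hE, Nat.card_fin]
    ring
  have c2 : Nat.card (Fin t × V) = t * n0 := by
    rw [Nat.card_prod, hV, Nat.card_fin]
  let eE : Fin (2 * (t * n0)) ≃ Fin t × E := (Finite.equivFinOfCardEq c1).symm
  let eV : Fin t × V ≃ Fin (t * n0) := Finite.equivFinOfCardEq c2
  refine ⟨fun h => eV ((eE h.1).1, f ((eE h.1).2, h.2)), ?_, ?_⟩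
  · intro v
    unfold Deg
    obtain ⟨⟨i, w⟩, rfl⟩ := eV.surjective v
    rw [← hd w]
    unfold Deg
    refine Nat.card_congr ?_
    refine ⟨fun x => ⟨((eE x.1.1).2, x.1.2), ?_⟩,
      fun y => ⟨(eE.symm (i, y.1.1), y.1.2), ?_⟩, ?_, ?_⟩
    · have h1 := eV.injective x.2
      exact (Prod.mk.inj h1).2
    · simp only [Equiv.apply_symm_apply]
      rw [show (y.1.1, y.1.2) = y.1 from rfl, y.2]
    · intro x
      apply Subtype.ext
      have h1 := (Prod.mk.inj (eV.injective x.2)).1
      refine Prod.ext ?_ rfl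
      show eE.symm (i, (eE x.1.1).2) = x.1.1
      rw [Equiv.symm_apply_eq]
      exact Prod.ext h1.symm rfl
    · intro y
      apply Subtype.ext
      show ((eE (eE.symm (i, y.1.1))).2, y.1.2) = y.1
      rw [Equiv.apply_symm_apply]
  · intro S nxt hS h1 h2 h3
    obtain ⟨h0, hh0⟩ := hS
    set i0 : Fin t := (eE h0.1).1 with hi0
    let ι : E × Bool → Fin (2 * (t * n0)) × Bool := fun h => (eE.symm (i0, h.1), h.2)
    have hιinj : Function.Injective ι := by
      intro a b hab
      obtain ⟨h4, h5⟩ := Prod.mk.inj hab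
      have h6 := eE.symm.injective h4
      exact Prod.ext (Prod.mk.inj h6).2 h5
    have hfι : ∀ h, eV ((eE (ι h).1).1, f ((eE (ι h).1).2, (ι h).2)) = eV (i0, f h) := by
      intro h
      show eV ((eE (eE.symm (i0, h.1))).1, f ((eE (eE.symm (i0, h.1))).2, h.2)) = _
      rw [Equiv.apply_symm_apply]
    have hflip : ∀ h, flipE (Fin (2 * (t * n0))) (ι h) = ι (flipE E h) := fun h => rfl
    let nx : E × Bool → E × Bool := fun h => ((eE (nxt (ι h)).1).2, (nxt (ι h)).2)
    have hnx : ∀ h, ι h ∈ S → ι (nx h) = nxt (ι h) ∧ f (nx h) = f (flipE E h) := by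
      intro h hh
      obtain ⟨_, h5, _⟩ := h1 (ι h) hh
      rw [hflip] at h5
      have h6 := h5.trans (hfι (flipE E h))
      obtain ⟨h7, h8⟩ := Prod.mk.inj (eV.injective h6)
      refine ⟨?_, h8⟩
      refine Prod.ext ?_ rfl
      show eE.symm (i0, (eE (nxt (ι h)).1).2) = (nxt (ι h)).1
      rw [← h7, Prod.mk.eta, Equiv.symm_apply_apply]
    have h4 := hg (ι ⁻¹' S) nx ?_ ?_ ?_ ?_
    · refine h4.trans ?_
      refine Set.ncard_le_ncard_of_injOn ι (fun h hh => hh) hιinj.injOn (Set.toFinite S)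
    · refine ⟨((eE h0.1).2, h0.2), ?_⟩
      show ι ((eE h0.1).2, h0.2) ∈ S
      have h5 : ι ((eE h0.1).2, h0.2) = h0 := by
        refine Prod.ext ?_ rfl
        show eE.symm (i0, (eE h0.1).2) = h0.1
        rw [hi0, Prod.mk.eta, Equiv.symm_apply_apply]
      rw [h5]
      exact hh0
    · intro h hh
      have hh' : ι h ∈ S := hh
      obtain ⟨h5, h6⟩ := hnx h hh'
      obtain ⟨h7, _, h9⟩ := h1 (ι h) hh'
      refine ⟨?_, h6, ?_⟩
      · show ι (nx h) ∈ S
        rw [h5]
        exact h7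
      · intro h10
        apply h9
        rw [← h5, h10, hflip]
    · intro a ha b hb hab
      have ha' : ι a ∈ S := ha
      have hb' : ι b ∈ S := hb
      apply hιinj
      apply h2 _ ha' _ hb'
      exact (hfι a).trans ((congrArg (fun w => eV (i0, w)) hab).trans (hfι b).symm)
    · intro a ha b hb hab
      have ha' : ι a ∈ S := ha
      have hb' : ι b ∈ S := hb
      apply hιinj
      apply h3 _ ha' _ hb'
      rw [← (hnx a ha').1, ← (hnx b hb').1, hab]

end KernelCount
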