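import Mathlib
import Pool.Agent.Lib.MP_b69e89_co.Excess

/-!
# MP_b69e89_co : adding a loop to a multigraph that does not embed
-/

namespace KernelCount

open Function

theorem bad_loop {g n m : ℕ} (f : Fin m × Bool → Fin n) (hf : ∀ v, 3 ≤ Deg f v)
    (h : ¬ EmbH g (flipE (Fin m)) f) :
    ∃ f' : Fin (m + 1) × Bool → Fin n, (∀ v, 3 ≤ Deg f' v) ∧
      ¬ EmbH g (flipE (Fin (m + 1))) f' := by
  classical
  rcases Nat.eq_zero_or_pos n with hn | hn
  · exfalso
    subst hn
    have hm : m = 0 := by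
      by_contra hm
      exact Fin.elim0 (f (⟨0, Nat.pos_of_ne_zero hm⟩, true))
    subst hm
    exact h (embH_of_excess f (fun v => Fin.elim0 v) (Nat.zero_le _))
  let v0 : Fin n := ⟨0, hn⟩
  let f' : Fin (m + 1) × Bool → Fin n := fun x =>
    if hx : (x.1 : ℕ) < m then f (⟨x.1, hx⟩, x.2) else v0
  let j : Fin m × Bool → Fin (m + 1) × Bool := fun x => (x.1.castSucc, x.2)
  have hj : Injective j := by
    rintro ⟨a, b⟩ ⟨a', b'⟩ hab
    have h1 : a.castSucc = a'.castSucc := congrArg Prod.fst hab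
    have h2 : b = b' := congrArg Prod.snd hab
    rw [Fin.castSucc_injective m h1, h2]
  have hfj : ∀ x, f' (j x) = f x := by
    rintro ⟨a, b⟩
    have ha : ((a.castSucc : Fin (m + 1)) : ℕ) < m := a.2
    change (if hx : ((a.castSucc : Fin (m + 1)) : ℕ) < m then f (⟨a.castSucc, hx⟩, b) else v0) = _
    rw [dif_pos ha]
    rfl
  refine ⟨f', fun v => ?_, fun hE => ?_⟩
  · refine (hf v).trans ?_
    unfold Deg
    exact Nat.card_le_card_of_injective
      (fun x : {x // f x = v} => (⟨j x.1, by rw [hfj]; exact x.2⟩ : {x // f' x = v}))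
      (fun x y hxy => Subtype.ext (hj (congrArg Subtype.val hxy)))
  · exact h (hE.mono id injective_id j hj (fun x => rfl) (fun x => hfj x))

end KernelCount
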