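import Mathlib

/-!
# MP_b69e89_co : the choice of the parameters for the converse
-/

namespace KernelCount

theorem pow_log_bound (q : ℕ) : (16 * q + 15) * 81 ^ q ≤ 31 * 2 ^ (16 * q) := by
  have h1 : q < 2 ^ q := Nat.lt_two_pow_self
  have h2 : 1 ≤ 2 ^ q := Nat.one_le_two_pow
  have h3 : 16 * q + 15 ≤ 31 * 2 ^ q := by omega
  have h4 : (81 : ℕ) ^ q ≤ 2 ^ (7 * q) := by
    rw [pow_mul]
    exact Nat.pow_le_pow_left (by norm_num) q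
  calc (16 * q + 15) * 81 ^ q ≤ (31 * 2 ^ q) * 2 ^ (7 * q) := Nat.mul_le_mul h3 h4
    _ = 31 * 2 ^ (8 * q) := by
      rw [mul_assoc, ← pow_add]
      congr 2
      ring
    _ ≤ 31 * 2 ^ (16 * q) :=
      Nat.mul_le_mul_left 31 (Nat.pow_le_pow_right (by norm_num) (by omega))

theorem size_bound (g n0 : ℕ) (hg : 1 ≤ g)
    (hn : n0 ≤ (4 * 3 ^ (Nat.log 2 g / 16 + 9)) ^ 4) :
    n0 * Nat.log 2 g ≤ (256 * 81 ^ 9 * 31) * g := by
  set L := Nat.log 2 g with hL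
  have hLg : 2 ^ L ≤ g := Nat.pow_log_le_self 2 (by omega)
  set q := L / 16 with hq
  have h1 : L ≤ 16 * q + 15 := by omega
  have h2 : 16 * q ≤ L := by omega
  have h3 : (4 * 3 ^ (q + 9)) ^ 4 = 256 * 81 ^ 9 * 81 ^ q := by
    rw [mul_pow, ← pow_mul, mul_comm (q + 9) 4, pow_mul, pow_add]
    norm_num
    ring
  rw [h3] at hn
  calc n0 * L ≤ (256 * 81 ^ 9 * 81 ^ q) * (16 * q + 15) := Nat.mul_le_mul hn h1
    _ = 256 * 81 ^ 9 * ((16 * q + 15) * 81 ^ q) := by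
      rw [mul_assoc (256 * 81 ^ 9), mul_comm (81 ^ q)]
    _ ≤ 256 * 81 ^ 9 * (31 * 2 ^ (16 * q)) := Nat.mul_le_mul_left _ (pow_log_bound q)
    _ = (256 * 81 ^ 9 * 31) * 2 ^ (16 * q) := by rw [← mul_assoc]
    _ ≤ (256 * 81 ^ 9 * 31) * g :=
      Nat.mul_le_mul_left _ ((Nat.pow_le_pow_right (by norm_num) h2).trans hLg)

/-- **The parameters.** -/
theorem choose_params : ∃ C : ℕ, ∀ g : ℕ, 1 ≤ g → ∃ γ : ℕ, 5 ≤ γ ∧
    ∀ n0 : ℕ, 1 ≤ n0 → n0 ≤ (4 * 3 ^ γ) ^ 4 → ∃ t : ℕ, 1 ≤ t ∧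
      2 * g * γ ≤ t * n0 * (γ - 4) ∧ (t * n0 - 2 * g) * Nat.log 2 g ≤ C * g := by
  refine ⟨128 + 256 * 81 ^ 9 * 31, fun g hg => ⟨Nat.log 2 g / 16 + 9, by omega,
    fun n0 hn0 hn => ?_⟩⟩
  have hsize := size_bound g n0 hg hn
  generalize 256 * 81 ^ 9 * 31 = K at hsize ⊢
  set L := Nat.log 2 g with hL
  have hγ : L / 16 + 9 - 4 = L / 16 + 5 := by omega
  rw [hγ]
  set q := L / 16 with hq
  set d := 2 * g * (q + 9) / (n0 * (q + 5)) with hd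
  have hb : 0 < n0 * (q + 5) := Nat.mul_pos hn0 (by omega)
  have h1 : 2 * g * (q + 9) < (d + 1) * (n0 * (q + 5)) := by
    rw [mul_comm (d + 1)]
    exact Nat.lt_mul_div_succ _ hb
  have h2 : d * (n0 * (q + 5)) ≤ 2 * g * (q + 9) := Nat.div_mul_le_self _ _
  have h1' : 2 * g * (q + 9) ≤ (d + 1) * n0 * (q + 5) := by
    rw [mul_assoc (d + 1)]
    exact h1.le
  refine ⟨d + 1, Nat.le_add_left 1 d, h1', ?_⟩
  have h3 : (d * n0 - 2 * g) * (q + 5) ≤ 8 * g := by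
    rw [Nat.sub_mul, Nat.sub_le_iff_le_add]
    calc d * n0 * (q + 5) = d * (n0 * (q + 5)) := by rw [mul_assoc]
      _ ≤ 2 * g * (q + 9) := h2
      _ = 8 * g + 2 * g * (q + 5) := by ring
  have h4 : L ≤ 16 * (q + 5) := by omega
  have h5 : (d * n0 - 2 * g) * L ≤ 128 * g := by
    calc (d * n0 - 2 * g) * L ≤ (d * n0 - 2 * g) * (16 * (q + 5)) := Nat.mul_le_mul_left _ h4
      _ = 16 * ((d * n0 - 2 * g) * (q + 5)) := by ring
      _ ≤ 16 * (8 * g) := Nat.mul_le_mul_left 16 h3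
      _ = 128 * g := by ring
  have h6 : (d + 1) * n0 - 2 * g ≤ (d * n0 - 2 * g) + n0 := by
    rw [add_mul, one_mul]
    omega
  calc ((d + 1) * n0 - 2 * g) * L ≤ ((d * n0 - 2 * g) + n0) * L := Nat.mul_le_mul_right L h6
    _ = (d * n0 - 2 * g) * L + n0 * L := by rw [add_mul]
    _ ≤ 128 * g + K * g := Nat.add_le_add h5 hsize
    _ = (128 + K) * g := by rw [add_mul]

end KernelCount
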