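import Mathlib
import Pool.Agent.Lib.MP_b69e89_co.Excess

/-!
# MP_b69e89_co : splitting a vertex of a multigraph that does not embed
-/

namespace KernelCount

open Function

theorem exists_deg_four {n m : ℕ} (f : Fin m × Bool → Fin n) (hm : 3 * n < 2 * m) :
    ∃ v, 4 ≤ Deg f v := by
  classical
  by_contra hc
  push Not at hc
  have h1 : (Finset.univ : Finset (Fin m × Bool)).card = ∑ v : Fin n, Deg f v := by
    rw [Finset.card_eq_sum_card_fiberwise (f := f) (t := Finset.univ)
      (fun _ _ => Finset.mem_univ _)]
    refine Finset.sum_congr rfl fun v _ => ?_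
    rw [Deg_eq_card_filter]
  have h2 : ∑ v : Fin n, Deg f v ≤ ∑ _v : Fin n, 3 := Finset.sum_le_sum fun v _ => by
    have := hc v
    omega
  rw [← h1] at h2
  simp at h2
  omega

/-- if a multigraph with minimum degree three does not embed and has a vertex of degree four, then
one can split this vertex -/
theorem bad_split {g n m : ℕ} (f : Fin m × Bool → Fin n) (hf : ∀ v, 3 ≤ Deg f v)
    (h : ¬ EmbH g (flipE (Fin m)) f) (hm : 3 * n < 2 * m) :
    ∃ f' : Fin (m + 1) × Bool → Fin (n + 1), (∀ v, 3 ≤ Deg f' v) ∧
      ¬ EmbH g (flipE (Fin (m + 1))) f' := by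
  classical
  obtain ⟨v0, hv0⟩ := exists_deg_four f hm
  rw [Deg_eq_card_filter] at hv0
  obtain ⟨a, ha, b, hb, hab⟩ := Finset.one_lt_card.1 (by omega :
    1 < (Finset.univ.filter fun x => f x = v0).card)
  have ha' : f a = v0 := (Finset.mem_filter.1 ha).2
  have hb' : f b = v0 := (Finset.mem_filter.1 hb).2
  let j : Fin m × Bool → Fin (m + 1) × Bool := fun x => (x.1.castSucc, x.2)
  have hj : Injective j := by
    rintro ⟨a, b⟩ ⟨a', b'⟩ hab
    have h1 : a.castSucc = a'.castSucc := congrArg Prod.fst hab
    have h2 : b = b' := congrArg Prod.snd hab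
    rw [Fin.castSucc_injective m h1, h2]
  let f' : Fin (m + 1) × Bool → Fin (n + 1) := fun x =>
    if hx : (x.1 : ℕ) < m then
      (if (⟨x.1, hx⟩, x.2) = a ∨ (⟨x.1, hx⟩, x.2) = b then Fin.last n
        else (f (⟨x.1, hx⟩, x.2)).castSucc)
    else (if x.2 then Fin.last n else v0.castSucc)
  have hfj : ∀ x, f' (j x) = if x = a ∨ x = b then Fin.last n else (f x).castSucc := by
    rintro ⟨i, β⟩
    have hi : ((i.castSucc : Fin (m + 1)) : ℕ) < m := i.2
    change (if hx : ((i.castSucc : Fin (m + 1)) : ℕ) < m then
      (if ((⟨i.castSucc, hx⟩, β) : Fin m × Bool) = a ∨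
        ((⟨i.castSucc, hx⟩, β) : Fin m × Bool) = b then Fin.last n
        else (f (⟨i.castSucc, hx⟩, β)).castSucc)
      else (if β then Fin.last n else v0.castSucc)) = _
    rw [dif_pos hi]
    rfl
  have hfl : ∀ β : Bool, f' (Fin.last m, β) = if β then Fin.last n else v0.castSucc := by
    intro β
    have hi : ¬ ((Fin.last m : Fin (m + 1)) : ℕ) < m := by simp
    change (if hx : ((Fin.last m : Fin (m + 1)) : ℕ) < m then
      (if ((⟨Fin.last m, hx⟩, β) : Fin m × Bool) = a ∨
        ((⟨Fin.last m, hx⟩, β) : Fin m × Bool) = b then Fin.last n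
        else (f (⟨Fin.last m, hx⟩, β)).castSucc)
      else (if β then Fin.last n else v0.castSucc)) = _
    rw [dif_neg hi]
  have hjl : ∀ x β, j x ≠ (Fin.last m, β) := by
    intro x β he
    have h1 : x.1.castSucc = Fin.last m := congrArg Prod.fst he
    exact (Fin.castSucc_lt_last x.1).ne h1
  have hcl : ∀ u : Fin n, u.castSucc ≠ Fin.last n := fun u => (Fin.castSucc_lt_last u).ne
  refine ⟨f', ?_, ?_⟩
  · intro v
    rw [Deg_eq_card_filter]
    refine Fin.lastCases ?_ (fun u => ?_) v
    · have hsub : ({j a, j b, (Fin.last m, true)} : Finset (Fin (m + 1) × Bool)) ⊆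
          Finset.univ.filter fun x => f' x = Fin.last n := by
        intro x hx
        rw [Finset.mem_filter]
        refine ⟨Finset.mem_univ _, ?_⟩
        rw [Finset.mem_insert, Finset.mem_insert, Finset.mem_singleton] at hx
        rcases hx with rfl | rfl | rfl
        · rw [hfj, if_pos (Or.inl rfl)]
        · rw [hfj, if_pos (Or.inr rfl)]
        · rw [hfl]
          rfl
      refine le_trans (le_of_eq ?_) (Finset.card_le_card hsub)
      rw [Finset.card_insert_of_notMem, Finset.card_insert_of_notMem, Finset.card_singleton]
      · rw [Finset.mem_singleton]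
        exact hjl b true
      · rw [Finset.mem_insert, Finset.mem_singleton]
        rintro (h1 | h1)
        · exact hab (hj h1)
        · exact hjl a true h1
    · by_cases hu : u = v0
      · subst hu
        have hsub : insert (Fin.last m, false)
            ((((Finset.univ.filter fun x => f x = u).erase a).erase b).image j) ⊆
            Finset.univ.filter fun x => f' x = u.castSucc := by
          intro x hx
          rw [Finset.mem_filter]
          refine ⟨Finset.mem_univ _, ?_⟩
          rw [Finset.mem_insert, Finset.mem_image] at hx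
          rcases hx with rfl | ⟨y, hy, rfl⟩
          · rw [hfl]
            rfl
          · rw [Finset.mem_erase, Finset.mem_erase, Finset.mem_filter] at hy
            rw [hfj, if_neg (by
              rintro (h1 | h1)
              · exact hy.2.1 h1
              · exact hy.1 h1), hy.2.2.2]
        refine le_trans ?_ (Finset.card_le_card hsub)
        rw [Finset.card_insert_of_notMem, Finset.card_image_of_injective _ hj]
        · have h1 := Finset.card_erase_of_mem ha
          have h2 : b ∈ (Finset.univ.filter fun x => f x = u).erase a :=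
            Finset.mem_erase.2 ⟨hab.symm, hb⟩
          have h3 := Finset.card_erase_of_mem h2
          omega
        · rw [Finset.mem_image]
          rintro ⟨y, _, hy⟩
          exact hjl y false hy
      · have hsub : (Finset.univ.filter fun x => f x = u).image j ⊆
            Finset.univ.filter fun x => f' x = u.castSucc := by
          intro x hx
          rw [Finset.mem_filter]
          refine ⟨Finset.mem_univ _, ?_⟩
          rw [Finset.mem_image] at hx
          obtain ⟨y, hy, rfl⟩ := hx
          rw [Finset.mem_filter] at hy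
          rw [hfj, if_neg (by
            rintro (h1 | h1)
            · rw [h1, ha'] at hy
              exact hu hy.2.symm
            · rw [h1, hb'] at hy
              exact hu hy.2.symm), hy.2]
        refine le_trans ?_ (Finset.card_le_card hsub)
        rw [Finset.card_image_of_injective _ hj, ← Deg_eq_card_filter]
        exact hf u
  · intro hE
    apply h
    obtain ⟨M, hM, ι, κ, hι, hκ, h1, h2⟩ := hE
    have hd1 : M.vert (κ (Fin.last m, false)) = ι v0.castSucc := by
      rw [h2, hfl]
      rfl
    have hd2 : M.vert (M.α (κ (Fin.last m, false))) = ι (Fin.last n) := by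
      rw [← h1, h2]
      have : flipE (Fin (m + 1)) (Fin.last m, false) = (Fin.last m, true) := rfl
      rw [this, hfl]
      rfl
    have hns : ¬ M.σ.SameCycle (κ (Fin.last m, false)) (M.α (κ (Fin.last m, false))) := by
      intro hs
      have h3 := (M.vert_eq_iff _ _).2 hs
      rw [hd1, hd2] at h3
      exact hcl v0 (hι h3)
    refine ⟨M.contr _ hns, M.contr_genusLE hM hns, fun v => M.upC _ hns (ι v.castSucc),
      fun x => κ (j x), ?_, hκ.comp hj, fun x => h1 (j x), ?_⟩
    · intro x y hxy
      rcases (M.upC_eq_iff _ hns _ _).1 hxy with h3 | ⟨h3, h4⟩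
      · exact Fin.castSucc_injective n (hι h3)
      · rw [hd1, hd2] at h3 h4
        have h5 : ∀ z : Fin n, ι z.castSucc = ι v0.castSucc ∨ ι z.castSucc = ι (Fin.last n) →
            z = v0 := by
          rintro z (h6 | h6)
          · exact Fin.castSucc_injective n (hι h6)
          · exact absurd (hι h6) (hcl z)
        rw [h5 x h3, h5 y h4]
    · intro x
      have h3 : (M.contr _ hns).vert (κ (j x)) = M.upC _ hns (M.vert (κ (j x))) := rfl
      rw [h3, h2, hfj]
      by_cases h4 : x = a ∨ x = b
      · rw [if_pos h4]
        have h5 : f x = v0 := by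
          rcases h4 with h4 | h4
          · rw [h4, ha']
          · rw [h4, hb']
        rw [h5, M.upC_eq_iff]
        exact Or.inr ⟨Or.inr hd2.symm, Or.inl hd1.symm⟩
      · rw [if_neg h4]

end KernelCount
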