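import Mathlib
import Pool.Agent.Lib.MP_b69e89_co.Closed

/-!
# MP_b69e89_co : strict inequality if some multigraph does not embed
-/

namespace KernelCount

open Finset Function

/-- if some multigraph of minimum degree at least three does not embed, the number of kernels is
smaller than the closed form -/
theorem kernelCount_lt {g n m : ℕ} (f : Fin m × Bool → Fin n) (hf : ∀ v, 3 ≤ Deg f v)
    (h : ¬ EmbH g (flipE (Fin m)) f) : kernelCount g n m < closed n m := by
  rw [kernelCount_eq]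
  have h1 : (Xs g m (fun _ : Fin n => {k : ℕ | 3 ≤ k}) : ℤ) <
      ∑ f : Fin m × Bool → Fin n, ∏ v, ind (3 ≤ Deg f v) := by
    rw [Xs_eq_sum]
    have hnn : ∀ f : Fin m × Bool → Fin n, 0 ≤ ∏ v, ind (3 ≤ Deg f v) := by
      intro f
      refine Finset.prod_nonneg fun v _ => ?_
      by_cases h : 3 ≤ Deg f v
      · rw [ind_of h]; norm_num
      · rw [ind_of_not h]
    refine Finset.sum_lt_sum ?_ ⟨f, Finset.mem_univ f, ?_⟩
    · intro f' _
      have h3 : ∏ v, ind (Deg f' v ∈ {k : ℕ | 3 ≤ k}) = ∏ v, ind (3 ≤ Deg f' v) := rfl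
      rw [h3]
      by_cases h2 : EmbH g (flipE (Fin m)) f'
      · rw [ind_of h2, one_mul]
      · rw [ind_of_not h2, zero_mul]
        exact hnn f'
    · have h3 : ∏ v, ind (Deg f v ∈ {k : ℕ | 3 ≤ k}) = ∏ v, ind (3 ≤ Deg f v) := rfl
      rw [h3, ind_of_not h, zero_mul]
      have h4 : ∏ v, ind (3 ≤ Deg f v) = 1 :=
        Finset.prod_eq_one fun v _ => ind_of (hf v)
      rw [h4]
      norm_num
  have h2 : ((Xs g m (fun _ : Fin n => {k : ℕ | 3 ≤ k}) : ℤ) : ℚ) <
      ((∑ f : Fin m × Bool → Fin n, ∏ v, ind (3 ≤ Deg f v) : ℤ) : ℚ) := by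
    exact_mod_cast h1
  rw [sum_ind_deg] at h2
  unfold closed
  have h5 : (Xs g m (fun _ : Fin n => {k : ℕ | 3 ≤ k}) : ℚ) =
      ((Xs g m (fun _ : Fin n => {k : ℕ | 3 ≤ k}) : ℤ) : ℚ) := by push_cast; rfl
  have hpos : (0 : ℚ) < 2 ^ m * m.factorial := by
    have := Nat.factorial_pos m
    positivity
  rw [h5, div_mul_eq_mul_div]
  exact div_lt_div_of_pos_right h2 hpos

end KernelCount
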