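import Mathlib
import Pool.Agent.Lib.MP_b69e89_co_L.Upper
import Pool.Agent.Lib.MP_b69e89_co_L.Cayley
import Pool.Agent.Lib.MP_b69e89_co_L.Params
import Pool.Agent.Lib.MP_b69e89_co_L.Strict
import Pool.Agent.Lib.MP_b69e89_co_L.Copies
import Pool.Agent.Lib.MP_b69e89_co_L.Loop
import Pool.Agent.Lib.MP_b69e89_co_L.Split
import Pool.Agent.Lib.MP_b69e89_co_L.Clique

/-!
# MP_b69e89_co : the closed form fails from excess `2 g + O(g / log g)` on
-/

namespace KernelCount

open Function

/-- some multigraph with `n` vertices, `m` edges and minimum degree at least three does not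
embed -/
def Bad (g n m : ℕ) : Prop :=
  ∃ f : Fin m × Bool → Fin n, (∀ v, 3 ≤ Deg f v) ∧ ¬ EmbH g (flipE (Fin m)) f

theorem Bad.loops {g n m : ℕ} (h : Bad g n m) (k : ℕ) : Bad g n (m + k) := by
  induction k with
  | zero => exact h
  | succ k ih =>
    obtain ⟨f, h1, h2⟩ := ih
    exact bad_loop f h1 h2

theorem Bad.splits {g n m : ℕ} (h : Bad g n m) (k : ℕ) (hk : 3 * (n + k) ≤ 2 * (m + k)) :
    Bad g (n + k) (m + k) := by
  induction k with
  | zero => exact h
  | succ k ih =>
    obtain ⟨f, h1, h2⟩ := ih (by omega)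
    have h3 : 3 * (n + k) < 2 * (m + k) := by omega
    exact bad_split f h1 h2 h3

/-- if a 4-regular multigraph with `N` vertices does not embed, then in all rows from `N` on and
all columns from `N` on some multigraph does not embed -/
theorem Bad.all {g N : ℕ} (h : Bad g N (2 * N)) {l d : ℕ} (hl : N ≤ l) (hd : N + d ≤ 2 * l) :
    Bad g (2 * l - d) (3 * l - d) := by
  have h1 := (h.loops (l - N)).splits (2 * l - d - N) (by omega)
  have e1 : N + (2 * l - d - N) = 2 * l - d := by omega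
  have e2 : 2 * N + (l - N) + (2 * l - d - N) = 3 * l - d := by omega
  rwa [e1, e2] at h1

theorem lt_iff_bad {g n m : ℕ} : kernelCount g n m < closed n m ↔ Bad g n m := by
  constructor
  · intro h
    by_contra hb
    have h1 : ∀ f : Fin m × Bool → Fin n, (∀ v, 3 ≤ Deg f v) → EmbH g (flipE (Fin m)) f := by
      intro f hf
      by_contra hc
      exact hb ⟨f, hf, hc⟩
    rw [kernelCount_of_all h1] at h
    exact lt_irrefl _ h
  · rintro ⟨f, h1, h2⟩
    exact kernelCount_lt f h1 h2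

/-- the pairs `(l, 2l-d)` for which the closed form fails are an up-set -/
theorem closed_fails_mono {g l d l' d' : ℕ} (hd : d ≤ 2 * l) (hd' : d' ≤ 2 * l') (hl : l ≤ l')
    (hn : 2 * l - d ≤ 2 * l' - d')
    (h : kernelCount g (2 * l - d) (3 * l - d) < closed (2 * l - d) (3 * l - d)) :
    kernelCount g (2 * l' - d') (3 * l' - d') < closed (2 * l' - d') (3 * l' - d') := by
  rw [lt_iff_bad] at h ⊢
  have h1 := (h.loops (l' - l)).splits (2 * l' - d' - (2 * l - d)) (by omega)
  have e1 : 2 * l - d + (2 * l' - d' - (2 * l - d)) = 2 * l' - d' := by omega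
  have e2 : 3 * l - d + (l' - l) + (2 * l' - d' - (2 * l - d)) = 3 * l' - d' := by omega
  rwa [e1, e2] at h1

/-- the closed form holds for all multigraph sizes on `n` vertices iff `K_n` embeds -/
theorem closed_column_iff (g n : ℕ) :
    (∀ l d : ℕ, d ≤ 2 * l → 2 * l - d = n →
      kernelCount g (2 * l - d) (3 * l - d) = closed (2 * l - d) (3 * l - d)) ↔
    EmbedsOn g (fun p : {p : Sym2 (Fin n) // ¬ p.IsDiag} => (p : Sym2 (Fin n))) := by
  constructor
  · intro h
    by_contra hc
    have h1 : Bad g n (n.choose 2) := bad_complete hc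
    have h2 := h1.loops (2 * n)
    have h3 := h (n.choose 2 + n) (2 * n.choose 2 + n) (by omega) (by omega)
    have e1 : 2 * (n.choose 2 + n) - (2 * n.choose 2 + n) = n := by omega
    have e2 : 3 * (n.choose 2 + n) - (2 * n.choose 2 + n) = n.choose 2 + 2 * n := by omega
    rw [e1, e2] at h3
    exact absurd h3 (ne_of_lt (lt_iff_bad.2 h2))
  · intro h l d _ hn
    rw [hn]
    exact kernelCount_of_complete le_rfl h _

/-- the closed form fails from excess `2 g + O(g / log g)` on -/
theorem closed_fails : ∃ C : ℕ, ∀ g : ℕ, 1 ≤ g → ∃ N : ℕ,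
    N * Nat.log 2 g ≤ 2 * g * Nat.log 2 g + C * g ∧
    ∀ l d : ℕ, N ≤ l → N + d ≤ 2 * l →
      kernelCount g (2 * l - d) (3 * l - d) < closed (2 * l - d) (3 * l - d) := by
  obtain ⟨C, hC⟩ := choose_params
  refine ⟨C, fun g hg => ?_⟩
  obtain ⟨γ, hγ, hp⟩ := hC g hg
  obtain ⟨V, E, fV, fE, f0, v1, v2, v3, v4, v5⟩ := exists_girth γ
  obtain ⟨t, ht, ht2, ht3⟩ := hp (Nat.card V) v1 v2
  set N := t * Nat.card V with hN
  have hN1 : 1 ≤ N := Nat.mul_pos ht v1
  obtain ⟨f, hf, hfγ⟩ : ∃ f' : Fin (2 * N) × Bool → Fin N, (∀ v, Deg f' v = 4) ∧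
      GirthGE f' γ := copies f0 γ t (Nat.card V) v5 v4 rfl v3
  refine ⟨N, ?_, ?_⟩
  · calc N * Nat.log 2 g ≤ (2 * g + (N - 2 * g)) * Nat.log 2 g :=
          Nat.mul_le_mul_right _ (by omega)
      _ = 2 * g * Nat.log 2 g + (N - 2 * g) * Nat.log 2 g := by ring
      _ ≤ _ := Nat.add_le_add_left ht3 _
  · have hbad : Bad g N (2 * N) := by
      refine ⟨f, fun v => by rw [hf]; omega, fun hemb => ?_⟩
      have : Nonempty (Fin N) := ⟨⟨0, hN1⟩⟩
      have h1 := faces_le f hemb hfγ (fun v => by rw [hf]; omega)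
      simp only [Nat.card_eq_fintype_card, Fintype.card_fin] at h1
      obtain ⟨c, rfl⟩ : ∃ c, γ = c + 4 := ⟨γ - 4, by omega⟩
      rw [Nat.add_sub_cancel] at ht2
      nlinarith
    intro l d hl hd
    obtain ⟨f', h1, h2⟩ := hbad.all hl hd
    exact kernelCount_lt f' h1 h2

end KernelCount
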