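import Mathlib

/-!
# MP_b69e89_co: the core of a set of darts

Removing edges which end in a vertex of degree one.
-/

set_option autoImplicit false

namespace KernelCount

/-- A symmetric set `B` of darts contains a symmetric set `A` of darts without vertices of degree
one, and the excess does not drop. -/
theorem core_darts {H V : Type} [Finite H] (f : H → V) (α : Equiv.Perm H)
    (hα : ∀ h, α (α h) = h) (hne : ∀ h, α h ≠ h) (B : Set H) (hB : ∀ h ∈ B, α h ∈ B) :
    ∃ A ⊆ B, (∀ h ∈ A, α h ∈ A) ∧ (∀ h ∈ A, ∃ h' ∈ A, f h' = f h ∧ h' ≠ h) ∧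
      B.ncard + 2 * (f '' A).ncard ≤ A.ncard + 2 * (f '' B).ncard := by
  classical
  induction hk : B.ncard using Nat.strong_induction_on generalizing B with
  | _ k ih =>
    by_cases hc : ∀ h ∈ B, ∃ h' ∈ B, f h' = f h ∧ h' ≠ h
    · exact ⟨B, subset_rfl, hB, hc, by omega⟩
    · simp only [not_forall, not_exists, not_and, not_not] at hc
      obtain ⟨h, hh, hh1⟩ := hc
      -- `h` is the only dart of `B` at its vertex
      have hah : α h ∈ B := hB h hh
      set B' : Set H := B \ {h, α h} with hB'
      have hBf : B.Finite := Set.toFinite _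
      have hsub : ({h, α h} : Set H) ⊆ B := by
        intro x hx
        rcases hx with rfl | hx
        · exact hh
        · rw [Set.mem_singleton_iff] at hx
          rw [hx]
          exact hah
      have hcard : B'.ncard + 2 = B.ncard := by
        have h1 : ({h, α h} : Set H).ncard = 2 := Set.ncard_pair (hne h).symm
        have h2 := Set.ncard_sdiff_add_ncard_of_subset hsub hBf
        rw [h1] at h2
        exact h2
      have hB'a : ∀ x ∈ B', α x ∈ B' := by
        intro x hx
        obtain ⟨hx1, hx2⟩ := hx
        refine ⟨hB x hx1, ?_⟩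
        intro h3
        apply hx2
        rcases h3 with h3 | h3
        · right
          rw [Set.mem_singleton_iff, ← h3, hα]
        · left
          exact α.injective h3
      obtain ⟨A, hA1, hA2, hA3, hA4⟩ := ih B'.ncard (by omega) B' hB'a rfl
      refine ⟨A, hA1.trans Set.sdiff_subset, hA2, hA3, ?_⟩
      have hv : (f '' B').ncard + 1 ≤ (f '' B).ncard := by
        have h1 : f '' B' ⊆ (f '' B) \ {f h} := by
          rintro v ⟨x, hx, rfl⟩
          refine ⟨⟨x, hx.1, rfl⟩, ?_⟩
          intro h2
          rw [Set.mem_singleton_iff] at h2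
          have h3 := hh1 x hx.1 h2
          exact hx.2 (Or.inl h3)
        have h2 : ((f '' B) \ {f h}).ncard + 1 = (f '' B).ncard :=
          Set.ncard_sdiff_singleton_add_one ⟨h, hh, rfl⟩ (Set.toFinite _)
        have h3 := Set.ncard_le_ncard h1 (Set.toFinite _)
        omega
      omega

end KernelCount
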