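import Mathlib
import Pool.Agent.Lib.MP_b69e89_co_L.Defs

/-!
# MP_b69e89_co : two faces in every component of minimum degree three
-/

namespace KernelCount

open Equiv Equiv.Perm

section

variable {H V : Type} {f : H → V} {α : Perm H} {P : H → Prop}

/-- the combinatorial core: end of a longest path -/
theorem faces_two_core (hα : ∀ h, α (α h) = h)
    (hne : ∀ h, α h ≠ h) (hPα : ∀ h, P h → P (α h)) (hPf : ∀ h h', f h = f h' → P h → P h')
    (d : ℕ → H) (k i j : ℕ) (hij : i ≤ j) (hjk : j < k)
    (hstep : ∀ m < k, f (d (m + 1)) = f (α (d m)))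
    (hinj : ∀ a ≤ k, ∀ b ≤ k, f (d a) = f (d b) → a = b) (x : H) (hx : f x = f (d k))
    (hxy : x ≠ d k) (hx1 : x ≠ α (d (k - 1))) (hy1 : d k ≠ α (d (k - 1)))
    (hxi : f (α x) = f (d i)) (hyj : f (α (d k)) = f (d j)) (hP0 : P (d 0)) :
    Faces f α P 2 := by
  classical
  have hP : ∀ m ≤ k, P (d m) := by
    intro m
    induction m with
    | zero => intro _; exact hP0
    | succ m ih =>
      intro hm
      exact hPf _ _ (hstep m (by omega)).symm (hPα _ (ih (by omega)))
  have F1 : ∀ m ≤ k, x ≠ d m := by
    intro m hm h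
    rcases Nat.lt_or_ge m k with h1 | h1
    · have := hinj k le_rfl m hm (by rw [← hx, h])
      omega
    · exact hxy (by rw [h]; congr 1; omega)
  have F2 : ∀ m ≤ k, α (d k) ≠ d m := by
    intro m hm h
    have h1 : j = m := hinj j (by omega) m hm (by rw [← hyj, h])
    subst h1
    have h2 : d k = α (d j) := by rw [← h, hα]
    have h3 := hinj (j + 1) (by omega) k le_rfl (by rw [hstep j hjk, ← h2])
    apply hy1
    rw [h2]
    congr 2
    omega
  have F3 : x ≠ α (d k) := by
    intro h
    have := hinj k le_rfl j (by omega) (by rw [← hx, h, hyj])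
    omega
  have hdm : ∀ a ≤ k, ∀ b ≤ k, d a = d b → a = b := fun a ha b hb h =>
    hinj a ha b hb (congrArg f h)
  let S : Set H := {h | (∃ m, i ≤ m ∧ m ≤ k ∧ d m = h) ∨ h = x ∨ h = α (d k)}
  have F4 : ∀ m < k, α (d m) ∉ S := by
    rintro m hm (⟨m', _, h1, h2⟩ | h | h)
    · have h3 := hinj m' h1 (m + 1) (by omega) (by rw [hstep m hm, h2])
      subst h3
      rcases Nat.lt_or_ge (m + 1) k with h4 | h4
      · have h5 := hinj (m + 1 + 1) (by omega) m (by omega) (by rw [hstep _ h4, h2, hα])
        omega
      · have h5 : m + 1 = k := by omega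
        apply hy1
        rw [← h5, h2]
        rfl
    · have h3 := hinj (m + 1) (by omega) k le_rfl (by rw [hstep m hm, h, hx])
      apply hx1
      rw [← h]
      congr 2
      omega
    · have := hdm m (by omega) k le_rfl (α.injective h)
      omega
  have F5 : α x ∉ S := by
    rintro (⟨m', _, h1, h2⟩ | h | h)
    · have h3 := hinj m' h1 i (by omega) (by rw [h2, hxi])
      subst h3
      have h4 : x = α (d m') := by rw [h2, hα]
      have h5 := hinj (m' + 1) (by omega) k le_rfl (by rw [hstep m' (by omega), ← h4, hx])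
      apply hx1
      rw [h4]
      congr 2
      omega
    · exact hne _ h
    · exact hxy (α.injective h)
  -- the index of a dart of the path
  let idx : H → ℕ := fun h => if hh : ∃ m, m ≤ k ∧ d m = h then hh.choose else 0
  have hidx : ∀ m ≤ k, idx (d m) = m := by
    intro m hm
    have hh : ∃ m', m' ≤ k ∧ d m' = d m := ⟨m, hm, rfl⟩
    have h1 : idx (d m) = hh.choose := dif_pos hh
    rw [h1]
    exact hdm _ hh.choose_spec.1 _ hm hh.choose_spec.2
  let nxt : H → H := fun h =>
    if h = x then (if i = j then α (d k) else d i)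
    else if h = α (d k) then x
    else if h = d k then d j
    else if idx h + 1 = j then α (d k) else d (idx h + 1)
  let lab : H → ℕ := fun h => if h = x ∨ h = α (d k) ∨ idx h < j then 1 else 0
  let r : H → ℕ := fun h => if h ∈ S then (if h = d k ∨ h = α (d k) then 1 else 2) else 0
  have hSd : ∀ m, i ≤ m → m ≤ k → d m ∈ S := fun m h1 h2 => Or.inl ⟨m, h1, h2, rfl⟩
  have hSx : x ∈ S := Or.inr (Or.inl rfl)
  have hSy : α (d k) ∈ S := Or.inr (Or.inr rfl)
  have hSc : ∀ Q : H → Prop, (∀ m, i ≤ m → m ≤ k → Q (d m)) → Q x → Q (α (d k)) →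
      ∀ h ∈ S, Q h := by
    intro Q q1 q2 q3 h hh
    rcases hh with ⟨m, h1, h2, h3⟩ | h3 | h3
    · rw [← h3]
      exact q1 m h1 h2
    · rw [h3]
      exact q2
    · rw [h3]
      exact q3
  have hr0 : ∀ h, h ∉ S → r h = 0 := fun h hh => if_neg hh
  have hr1 : ∀ h, h ∈ S → 0 < r h := by
    intro h hh
    show 0 < (if h ∈ S then (if h = d k ∨ h = α (d k) then 1 else 2) else 0)
    rw [if_pos hh]
    split_ifs <;> omega
  have hr2 : ∀ h, h ∈ S → h ≠ d k → h ≠ α (d k) → r h = 2 := by
    intro h hh h1 h2
    show (if h ∈ S then (if h = d k ∨ h = α (d k) then 1 else 2) else 0) = 2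
    rw [if_pos hh, if_neg (by tauto)]
  have hry : r (d k) = 1 := by
    show (if d k ∈ S then (if d k = d k ∨ d k = α (d k) then 1 else 2) else 0) = 1
    have h1 : d k ∈ S := hSd k (by omega) le_rfl
    rw [if_pos h1, if_pos (Or.inl rfl)]
  have hry' : r (α (d k)) = 1 := by
    show (if α (d k) ∈ S then (if α (d k) = d k ∨ α (d k) = α (d k) then 1 else 2) else 0) = 1
    rw [if_pos hSy, if_pos (Or.inr rfl)]
  have hnx : nxt x = if i = j then α (d k) else d i := if_pos rfl
  have hnya : nxt (α (d k)) = x := by
    show (if α (d k) = x then _ else if α (d k) = α (d k) then x else _) = x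
    rw [if_neg F3.symm, if_pos rfl]
  have hny : nxt (d k) = d j := by
    show (if d k = x then _ else if d k = α (d k) then x else if d k = d k then d j else _) = d j
    rw [if_neg hxy.symm, if_neg (F2 k le_rfl).symm, if_pos rfl]
  have hnd : ∀ m < k, nxt (d m) = if m + 1 = j then α (d k) else d (m + 1) := by
    intro m hm
    show (if d m = x then _ else if d m = α (d k) then x else if d m = d k then d j else
      if idx (d m) + 1 = j then α (d k) else d (idx (d m) + 1)) = _
    rw [if_neg (F1 m (by omega)).symm, if_neg (F2 m (by omega)).symm,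
      if_neg (fun h => by have := hdm m (by omega) k le_rfl h; omega), hidx m (by omega)]
  have hlx : lab x = 1 := if_pos (Or.inl rfl)
  have hly : lab (α (d k)) = 1 := if_pos (Or.inr (Or.inl rfl))
  have hld : ∀ m ≤ k, lab (d m) = if m < j then 1 else 0 := by
    intro m hm
    show (if d m = x ∨ d m = α (d k) ∨ idx (d m) < j then 1 else 0) = _
    rw [hidx m hm]
    by_cases h : m < j
    · rw [if_pos h, if_pos (Or.inr (Or.inr h))]
    · rw [if_neg h, if_neg]
      rintro (h1 | h1 | h1)
      · exact F1 m hm h1.symm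
      · exact F2 m hm h1.symm
      · exact h h1
  have hPx : P x := hPf _ _ hx.symm (hP k le_rfl)
  refine ⟨S, nxt, lab, r, ?_, ?_, ?_, ?_, α (d (k - 1)), hPα _ (hP _ (by omega)),
    F4 _ (by omega)⟩
  · refine hSc _ ?_ ?_ ?_
    · intro m h1 h2
      rcases Nat.lt_or_ge m k with h3 | h3
      · have h4 : nxt (d m) ∈ S ∧ f (nxt (d m)) = f (α (d m)) ∧ lab (nxt (d m)) = lab (d m) := by
          rw [hnd m h3]
          by_cases h5 : m + 1 = j
          · rw [if_pos h5]
            refine ⟨hSy, ?_, ?_⟩
            · rw [hyj, ← h5, hstep m h3]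
            · rw [hly, hld m h2, if_pos (by omega)]
          · rw [if_neg h5]
            refine ⟨hSd _ (by omega) (by omega), hstep m h3, ?_⟩
            rw [hld (m + 1) (by omega), hld m h2]
            by_cases h6 : m < j
            · rw [if_pos (by omega), if_pos h6]
            · rw [if_neg (by omega), if_neg h6]
        refine ⟨hP m h2, h4.1, h4.2.1, h4.2.2, ?_⟩
        rw [hr0 _ (F4 m h3)]
        exact hr1 _ h4.1
      · have h4 : m = k := by omega
        subst h4
        rw [hny]
        refine ⟨hP _ le_rfl, hSd _ hij (by omega), hyj.symm, ?_, ?_⟩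
        · rw [hld j (by omega), hld m le_rfl, if_neg (by omega), if_neg (by omega)]
        · rw [hry', hr2 _ (hSd _ hij (by omega)) (fun h => by
            have := hdm j (by omega) m le_rfl h
            omega) (F2 j (by omega)).symm]
          omega
    · have h4 : nxt x ∈ S ∧ f (nxt x) = f (α x) ∧ lab (nxt x) = lab x := by
        rw [hnx]
        by_cases h5 : i = j
        · rw [if_pos h5]
          refine ⟨hSy, ?_, ?_⟩
          · rw [hyj, ← h5, hxi]
          · rw [hly, hlx]
        · rw [if_neg h5]
          refine ⟨hSd _ le_rfl (by omega), hxi.symm, ?_⟩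
          rw [hld i (by omega), hlx, if_pos (by omega)]
      refine ⟨hPx, h4.1, h4.2.1, h4.2.2, ?_⟩
      rw [hr0 _ F5]
      exact hr1 _ h4.1
    · rw [hnya]
      refine ⟨hPα _ (hP k le_rfl), hSx, ?_, ?_, ?_⟩
      · rw [hα, hx]
      · rw [hly, hlx]
      · rw [hα, hry, hr2 _ hSx hxy F3]
        omega
  · refine hSc _ (fun m h1 h2 => hSc _ (fun m' h1' h2' he => ?_) (fun he => ?_) (fun he => ?_))
      (hSc _ (fun m' h1' h2' he => ?_) (fun he => ?_) (fun he => ?_))
      (hSc _ (fun m' h1' h2' he => ?_) (fun he => ?_) (fun he => ?_))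
    · rcases Nat.lt_or_ge m k with h3 | h3 <;> rcases Nat.lt_or_ge m' k with h3' | h3'
      · rw [hnd m h3, hnd m' h3'] at he
        split_ifs at he with h5 h6 h6
        · congr 1
          omega
        · exact absurd he (F2 _ (by omega))
        · exact absurd he.symm (F2 _ (by omega))
        · have := hdm _ (by omega) _ (by omega) he
          congr 1
          omega
      · have h4 : m' = k := by omega
        subst h4
        rw [hnd m h3, hny] at he
        split_ifs at he with h5
        · exact absurd he (F2 _ (by omega))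
        · have := hdm _ (by omega) _ (by omega) he
          omega
      · have h4 : m = k := by omega
        subst h4
        rw [hnd m' h3', hny] at he
        split_ifs at he with h5
        · exact absurd he.symm (F2 _ (by omega))
        · have := hdm _ (by omega) _ (by omega) he
          omega
      · congr 1
        omega
    · rcases Nat.lt_or_ge m k with h3 | h3
      · rw [hnd m h3, hnx] at he
        split_ifs at he with h5 h6 h6
        · omega
        · exact absurd he (F2 _ (by omega))
        · exact absurd he.symm (F2 _ (by omega))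
        · have := hdm _ (by omega) _ (by omega) he
          omega
      · have h4 : m = k := by omega
        subst h4
        rw [hny, hnx] at he
        split_ifs at he with h5
        · exact absurd he.symm (F2 _ (by omega))
        · have := hdm _ (by omega) _ (by omega) he
          omega
    · rw [hnya] at he
      rcases Nat.lt_or_ge m k with h3 | h3
      · rw [hnd m h3] at he
        split_ifs at he with h5
        · exact absurd he.symm F3
        · exact absurd he.symm (F1 _ (by omega))
      · have h4 : m = k := by omega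
        subst h4
        rw [hny] at he
        exact absurd he.symm (F1 _ (by omega))
    · rcases Nat.lt_or_ge m' k with h3 | h3
      · rw [hnd m' h3, hnx] at he
        split_ifs at he with h5 h6 h6
        · omega
        · exact absurd he (F2 _ (by omega))
        · exact absurd he.symm (F2 _ (by omega))
        · have := hdm _ (by omega) _ (by omega) he
          omega
      · have h4 : m' = k := by omega
        subst h4
        rw [hny, hnx] at he
        split_ifs at he with h5
        · exact absurd he (F2 _ (by omega))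
        · have := hdm _ (by omega) _ (by omega) he
          omega
    · rfl
    · rw [hnya, hnx] at he
      split_ifs at he with h5
      · exact absurd he.symm F3
      · exact absurd he.symm (F1 _ (by omega))
    · rw [hnya] at he
      rcases Nat.lt_or_ge m' k with h3 | h3
      · rw [hnd m' h3] at he
        split_ifs at he with h5
        · exact absurd he F3
        · exact absurd he (F1 _ (by omega))
      · have h4 : m' = k := by omega
        subst h4
        rw [hny] at he
        exact absurd he (F1 _ (by omega))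
    · rw [hnya, hnx] at he
      split_ifs at he with h5
      · exact absurd he F3
      · exact absurd he (F1 _ (by omega))
    · rfl
  · intro h _
    show (if h = x ∨ h = α (d k) ∨ idx h < j then 1 else 0) < 2
    split_ifs <;> omega
  · intro n hn
    rcases Nat.lt_or_ge n 1 with h1 | h1
    · refine ⟨d k, hSd k (by omega) le_rfl, ?_⟩
      rw [hld k le_rfl, if_neg (by omega)]
      omega
    · refine ⟨x, hSx, ?_⟩
      rw [hlx]
      omega

/-- a cycle in `P` reached from the dart `h0`; if it passes through the source of `h0`, then it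
uses `h0` -/
theorem exists_cycle_from [Finite H] (hα : ∀ h, α (α h) = h)
    (hne : ∀ h, α h ≠ h) (hPα : ∀ h, P h → P (α h)) (hPf : ∀ h h', f h = f h' → P h → P h')
    (hdeg : ∀ h, P h → ∃ a b, f a = f h ∧ f b = f h ∧ a ≠ h ∧ b ≠ h ∧ a ≠ b)
    (h0 : H) (hP0 : P h0) :
    ∃ (S : Set H) (nxt : H → H), S.Nonempty ∧
      (∀ h ∈ S, P h ∧ nxt h ∈ S ∧ f (nxt h) = f (α h) ∧ nxt h ≠ α h) ∧
      (∀ h ∈ S, ∀ h' ∈ S, f h = f h' → h = h') ∧
      (∀ h ∈ S, ∀ h' ∈ S, nxt h = nxt h' → h = h') ∧ ∀ h ∈ S, f h = f h0 → h = h0 := by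
  classical
  have hT : ∀ h, ∃ h', P h → f h' = f (α h) ∧ h' ≠ α h := by
    intro h
    by_cases hh : P h
    · obtain ⟨a, b, h1, _, h2, _⟩ := hdeg (α h) (hPα h hh)
      exact ⟨a, fun _ => ⟨h1, h2⟩⟩
    · exact ⟨h, fun h1 => absurd h1 hh⟩
  choose T hT using hT
  let hs : ℕ → H := fun k => T^[k] h0
  have hs_succ : ∀ k, hs (k + 1) = T (hs k) := fun k => Function.iterate_succ_apply' T k h0
  have hPs : ∀ k, P (hs k) := by
    intro k
    induction k with
    | zero => exact hP0
    | succ k ih =>
      rw [hs_succ]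
      exact hPf _ _ (hT _ ih).1.symm (hPα _ ih)
  have hT1 : ∀ k, f (T (hs k)) = f (α (hs k)) := fun k => (hT _ (hPs k)).1
  have hT2 : ∀ k, T (hs k) ≠ α (hs k) := fun k => (hT _ (hPs k)).2
  let v : ℕ → V := fun k => f (hs k)
  have hex : ∃ j, ∃ i < j, v i = v j := by
    obtain ⟨a, b, hab, he⟩ := Finite.exists_ne_map_eq_of_infinite hs
    rcases lt_or_gt_of_ne hab with h | h
    · exact ⟨b, a, h, congrArg f he⟩
    · exact ⟨a, b, h, congrArg f he.symm⟩
  set j := Nat.find hex with hj
  obtain ⟨i, hij, hvij⟩ := Nat.find_spec hex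
  have hinj : ∀ a b, a < j → b < j → v a = v b → a = b := by
    intro a b ha hb hab
    by_contra hne'
    rcases lt_or_gt_of_ne hne' with h | h
    · exact Nat.find_min hex hb ⟨a, h, hab⟩
    · exact Nat.find_min hex ha ⟨b, h, hab.symm⟩
  have hinj' : ∀ a b, a < j → b < j → hs a = hs b → a = b := fun a b ha hb hab =>
    hinj a b ha hb (congrArg f hab)
  have hlast : hs i ≠ α (hs (j - 1)) := by
    intro h
    have h1 : α (hs i) = hs (j - 1) := by rw [h, hα]
    have h2 : f (hs (i + 1)) = f (hs (j - 1)) := by
      rw [hs_succ, hT1, h1]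
    by_cases h3 : i + 1 < j
    · have h4 : i + 1 = j - 1 := hinj _ _ h3 (by omega) h2
      have h5 : hs (i + 1) = α (hs i) := by rw [h4, h1]
      rw [hs_succ] at h5
      exact hT2 _ h5
    · have h4 : j - 1 = i := by omega
      rw [h4] at h1
      exact hne _ h1
  refine ⟨{h | ∃ k, i ≤ k ∧ k < j ∧ hs k = h},
    fun h => if h = hs (j - 1) then hs i else T h, ⟨hs i, i, le_rfl, hij, rfl⟩, ?_, ?_, ?_, ?_⟩
  · rintro h ⟨k, hk1, hk2, rfl⟩
    beta_reduce
    by_cases h1 : hs k = hs (j - 1)
    · rw [if_pos h1]
      have h2 : k = j - 1 := hinj' _ _ hk2 (by omega) h1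
      refine ⟨hPs k, ⟨i, le_rfl, hij, rfl⟩, ?_, ?_⟩
      · show v i = _
        rw [hvij, ← hj]
        show f (hs j) = _
        have h3 : hs j = T (hs k) := by
          rw [← hs_succ]
          congr 1
          omega
        rw [h3, hT1]
      · rw [h1]
        exact hlast
    · rw [if_neg h1]
      have h2 : k + 1 < j := by
        rcases Nat.lt_or_ge (k + 1) j with h | h
        · exact h
        · exfalso
          apply h1
          congr 1
          omega
      exact ⟨hPs k, ⟨k + 1, by omega, h2, hs_succ k⟩, hT1 _, hT2 _⟩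
  · rintro h ⟨k, hk1, hk2, rfl⟩ h' ⟨k', hk1', hk2', rfl⟩ he
    rw [hinj _ _ hk2 hk2' he]
  · rintro h ⟨k, hk1, hk2, rfl⟩ h' ⟨k', hk1', hk2', rfl⟩ he
    have hlt : ∀ k, k < j → hs k ≠ hs (j - 1) → k + 1 < j := by
      intro k hk h1
      rcases Nat.lt_or_ge (k + 1) j with h | h
      · exact h
      · exfalso
        apply h1
        congr 1
        omega
    simp only at he
    split_ifs at he with h1 h2 h2
    · rw [h1, h2]
    · exfalso
      rw [← hs_succ] at he
      have := hinj' _ _ hij (hlt _ hk2' h2) he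
      omega
    · exfalso
      rw [← hs_succ] at he
      have := hinj' _ _ (hlt _ hk2 h1) hij he
      omega
    · rw [← hs_succ, ← hs_succ] at he
      have := hinj' _ _ (hlt _ hk2 h1) (hlt _ hk2' h2) he
      have h3 : k = k' := by omega
      rw [h3]
  · rintro h ⟨k, hk1, hk2, rfl⟩ he
    have h1 : k = 0 := hinj k 0 hk2 (by omega) he
    rw [h1]
    rfl

/-- two faces if there is a loop -/
theorem faces_two_loop [Finite H] (hα : ∀ h, α (α h) = h)
    (hne : ∀ h, α h ≠ h) (hPα : ∀ h, P h → P (α h)) (hPf : ∀ h h', f h = f h' → P h → P h')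
    (hdeg : ∀ h, P h → ∃ a b, f a = f h ∧ f b = f h ∧ a ≠ h ∧ b ≠ h ∧ a ≠ b)
    (y : H) (hPy : P y) (hy : f (α y) = f y) : Faces f α P 2 := by
  classical
  obtain ⟨h0, hh0, h01, h02⟩ : ∃ h0, f h0 = f y ∧ h0 ≠ y ∧ h0 ≠ α y := by
    obtain ⟨a, b, ha, hb, ha', hb', hab⟩ := hdeg y hPy
    by_cases h1 : a = α y
    · exact ⟨b, hb, hb', fun h2 => hab (h1.trans h2.symm)⟩
    · exact ⟨a, ha, ha', h1⟩
  obtain ⟨S, nxt, ⟨z, hz⟩, h1, h2, h3, h4⟩ := exists_cycle_from hα hne hPα hPf hdeg h0
    (hPf _ _ hh0.symm hPy)
  have hyS : y ∉ S := fun h => h01 (h4 y h hh0.symm).symm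
  have hyS' : α y ∉ S := fun h => h02 (h4 _ h (hy.trans hh0.symm)).symm
  have hαS : ∀ h ∈ S, α h ∉ S := by
    intro h hh hh'
    exact (h1 h hh).2.2.2 (h2 _ (h1 h hh).2.1 _ hh' (h1 h hh).2.2.1)
  have hSc : ∀ Q : H → Prop, Q y → (∀ h ∈ S, Q h) → ∀ h ∈ {x | x = y ∨ x ∈ S}, Q h := by
    intro Q q1 q2 h hh
    rcases hh with h5 | h5
    · rw [h5]
      exact q1
    · exact q2 h h5
  have hSy : ∀ h ∈ S, h ≠ y := fun h hh h5 => hyS (h5 ▸ hh)
  have hr0 : ∀ h, h ≠ y → h ∉ S → (if h = y ∨ h ∈ S then 1 else 0) = 0 := by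
    intro h h5 h6
    rw [if_neg]
    rintro (h7 | h7)
    · exact h5 h7
    · exact h6 h7
  refine ⟨{x | x = y ∨ x ∈ S}, fun h => if h = y then y else nxt h,
    fun h => if h = y then 1 else 0, fun h => if h = y ∨ h ∈ S then 1 else 0, ?_, ?_, ?_, ?_,
    α y, hPα y hPy, ?_⟩
  · refine hSc _ ?_ ?_
    · refine ⟨hPy, ?_, ?_, ?_, ?_⟩
      · beta_reduce
        rw [if_pos rfl]
        exact Or.inl rfl
      · beta_reduce
        rw [if_pos rfl, hy]
      · beta_reduce
        rw [if_pos (rfl : y = y), if_pos (rfl : y = y)]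
      · beta_reduce
        rw [hr0 _ (hne y) hyS', if_pos (rfl : y = y), if_pos (Or.inl rfl)]
        exact Nat.one_pos
    · intro h hh
      have h5 := h1 h hh
      have h6 : (if h = y then y else nxt h) = nxt h := if_neg (hSy h hh)
      beta_reduce
      rw [h6]
      refine ⟨h5.1, Or.inr h5.2.1, h5.2.2.1, ?_, ?_⟩
      · rw [if_neg (hSy h hh), if_neg (hSy _ h5.2.1)]
      · rw [if_pos (Or.inr h5.2.1), hr0]
        · exact Nat.one_pos
        · intro h7
          apply hyS'
          rw [← h7, hα]
          exact hh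
        · exact hαS h hh
  · refine hSc _ (hSc _ (fun _ => rfl) ?_) (fun h hh => hSc _ ?_ ?_)
    · intro h hh he
      exfalso
      beta_reduce at he
      rw [if_pos rfl, if_neg (hSy h hh)] at he
      exact hyS (he ▸ (h1 h hh).2.1)
    · intro he
      exfalso
      beta_reduce at he
      rw [if_neg (hSy h hh), if_pos rfl] at he
      exact hyS (he ▸ (h1 h hh).2.1)
    · intro h' hh' he
      beta_reduce at he
      rw [if_neg (hSy h hh), if_neg (hSy h' hh')] at he
      exact h3 h hh h' hh' he
  · intro h _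
    beta_reduce
    split_ifs <;> omega
  · intro n hn
    rcases Nat.lt_or_ge n 1 with h5 | h5
    · refine ⟨z, Or.inr hz, ?_⟩
      beta_reduce
      rw [if_neg (hSy z hz)]
      omega
    · refine ⟨y, Or.inl rfl, ?_⟩
      beta_reduce
      rw [if_pos rfl]
      omega
  · rintro (h5 | h5)
    · exact hne y h5
    · exact hyS' h5

/-- **two faces in every component**: in a multigraph with minimum degree three two directed closed
walks (a theta graph, or a loop and a cycle) can be made faces of a rotation system -/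
theorem faces_two [Finite H] (hα : ∀ h, α (α h) = h)
    (hne : ∀ h, α h ≠ h) (hPα : ∀ h, P h → P (α h)) (hPf : ∀ h h', f h = f h' → P h → P h')
    (h0 : ∃ h, P h)
    (hdeg : ∀ h, P h → ∃ a b, f a = f h ∧ f b = f h ∧ a ≠ h ∧ b ≠ h ∧ a ≠ b) :
    Faces f α P 2 := by
  classical
  by_cases hloop : ∃ y, P y ∧ f (α y) = f y
  · obtain ⟨y, hPy, hy⟩ := hloop
    exact faces_two_loop hα hne hPα hPf hdeg y hPy hy
  have hnl : ∀ y, P y → f (α y) ≠ f y := fun y h1 h2 => hloop ⟨y, h1, h2⟩
  let Q : ℕ → Prop := fun k => ∃ d : ℕ → H, P (d 0) ∧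
    (∀ m < k, f (d (m + 1)) = f (α (d m))) ∧ ∀ a ≤ k, ∀ b ≤ k, f (d a) = f (d b) → a = b
  obtain ⟨k, hk, hk'⟩ : ∃ k, Q k ∧ ¬ Q (k + 1) := by
    by_contra hcon
    push Not at hcon
    have hall : ∀ k, Q k := by
      intro k
      induction k with
      | zero =>
        obtain ⟨h, hh⟩ := h0
        exact ⟨fun _ => h, hh, fun m hm => by omega, fun a ha b hb _ => by omega⟩
      | succ k ih => exact hcon k ih
    obtain ⟨d, _, _, hd⟩ := hall (Nat.card H)
    have h1 : Function.Injective (fun a : Fin (Nat.card H + 1) => d a.val) := by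
      intro a b hab
      exact Fin.ext (hd _ (by omega) _ (by omega) (congrArg f hab))
    have h2 := Nat.card_le_card_of_injective _ h1
    rw [Nat.card_fin] at h2
    omega
  obtain ⟨d, hd0, hstep, hinj⟩ := hk
  have hPd : ∀ m ≤ k, P (d m) := by
    intro m
    induction m with
    | zero => intro _; exact hd0
    | succ m ih =>
      intro hm
      exact hPf _ _ (hstep m (by omega)).symm (hPα _ (ih (by omega)))
  -- every dart at the end of the path goes back to the path
  have hback : ∀ z, f z = f (d k) → ∃ i < k, f (α z) = f (d i) := by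
    intro z hz
    by_contra hcon
    push Not at hcon
    have hPz : P z := hPf _ _ hz.symm (hPd k le_rfl)
    apply hk'
    let d' : ℕ → H := fun m => if m < k then d m else if m = k then z else α z
    have e1 : ∀ m < k, d' m = d m := fun m hm => if_pos hm
    have e2 : d' k = z := by
      show (if k < k then d k else if k = k then z else α z) = z
      rw [if_neg (lt_irrefl k), if_pos rfl]
    have e3 : d' (k + 1) = α z := by
      show (if k + 1 < k then d (k + 1) else if k + 1 = k then z else α z) = α z
      rw [if_neg (by omega), if_neg (by omega)]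
    have e4 : ∀ m ≤ k, f (d' m) = f (d m) := by
      intro m hm
      rcases Nat.lt_or_ge m k with h1 | h1
      · rw [e1 m h1]
      · have h2 : m = k := by omega
        rw [h2, e2, hz]
    have e5 : ∀ a ≤ k, f (d' a) ≠ f (d' (k + 1)) := by
      intro a ha
      rw [e4 a ha, e3]
      rcases Nat.lt_or_ge a k with h1 | h1
      · exact (hcon a h1).symm
      · have h2 : a = k := by omega
        rw [h2, ← hz]
        exact (hnl z hPz).symm
    refine ⟨d', ?_, ?_, ?_⟩
    · exact hPf _ _ (e4 0 (by omega)).symm hd0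
    · intro m hm
      rcases Nat.lt_or_ge m k with h1 | h1
      · rw [e4 _ (by omega), e1 m h1]
        exact hstep m h1
      · have h2 : m = k := by omega
        rw [h2, e3, e2]
    · intro a ha b hb hab
      rcases Nat.lt_or_ge a (k + 1) with h1 | h1 <;> rcases Nat.lt_or_ge b (k + 1) with h2 | h2
      · rw [e4 a (by omega), e4 b (by omega)] at hab
        exact hinj a (by omega) b (by omega) hab
      · have h3 : b = k + 1 := by omega
        rw [h3] at hab
        exact absurd hab (e5 a (by omega))
      · have h3 : a = k + 1 := by omega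
        rw [h3] at hab
        exact absurd hab.symm (e5 b (by omega))
      · omega
  have hk1 : 0 < k := by
    obtain ⟨i, hi, _⟩ := hback (d k) rfl
    omega
  -- two darts at the end of the path which are not the last edge
  obtain ⟨x, y, hx, hy, hxy, hx1, hy1⟩ : ∃ x y, f x = f (d k) ∧ f y = f (d k) ∧ x ≠ y ∧
      x ≠ α (d (k - 1)) ∧ y ≠ α (d (k - 1)) := by
    obtain ⟨a, b, ha, hb, ha', hb', hab⟩ := hdeg (d k) (hPd k le_rfl)
    by_cases h1 : a = α (d (k - 1))
    · exact ⟨b, d k, hb, rfl, hb', fun h2 => hab (h1.trans h2.symm),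
        fun h2 => ha' (h1.trans h2.symm)⟩
    · by_cases h2 : b = α (d (k - 1))
      · exact ⟨a, d k, ha, rfl, ha', h1, fun h3 => hb' (h2.trans h3.symm)⟩
      · exact ⟨a, b, ha, hb, hab, h1, h2⟩
  -- the core
  have hcore : ∀ x y, f x = f (d k) → f y = f (d k) → x ≠ y → x ≠ α (d (k - 1)) →
      y ≠ α (d (k - 1)) → ∀ i j, i ≤ j → j < k → f (α x) = f (d i) → f (α y) = f (d j) →
      Faces f α P 2 := by
    intro x y hx hy hxy hx1 hy1 i j hij hjk hxi hyj
    let d' : ℕ → H := fun m => if m = k then y else d m
    have e1 : ∀ m, m ≠ k → d' m = d m := fun m hm => if_neg hm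
    have e2 : d' k = y := if_pos rfl
    have e4 : ∀ m, f (d' m) = f (d m) := by
      intro m
      by_cases h1 : m = k
      · rw [h1, e2, hy]
      · rw [e1 m h1]
    refine faces_two_core hα hne hPα hPf d' k i j hij hjk ?_ ?_ x ?_ ?_ ?_ ?_ ?_ ?_ ?_
    · intro m hm
      rw [e4, e1 m (by omega)]
      exact hstep m hm
    · intro a ha b hb hab
      rw [e4, e4] at hab
      exact hinj a ha b hb hab
    · rw [e4, hx]
    · rw [e2]
      exact hxy
    · rw [e1 (k - 1) (by omega)]
      exact hx1
    · rw [e1 (k - 1) (by omega), e2]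
      exact hy1
    · rw [e4, hxi]
    · rw [e4, e2, hyj]
    · rw [e1 0 (by omega)]
      exact hd0
  obtain ⟨i, hi, hxi⟩ := hback x hx
  obtain ⟨j, hj, hyj⟩ := hback y hy
  rcases le_total i j with hij | hij
  · exact hcore x y hx hy hxy hx1 hy1 i j hij hj hxi hyj
  · exact hcore y x hy hx hxy.symm hy1 hx1 j i hij hi hyj hxi

end

end KernelCount
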