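import Mathlib

/-!
# MP_b69e89_co: many non-backtracking words (Moore bound)

In a finite graph given by darts with few vertices compared with the darts and without vertices of
degree one, some dart starts at least `2 ^ q` non-backtracking words of length `5 * q`.
-/

set_option autoImplicit false

namespace KernelCount

/-- Non-backtracking words of length `r` of darts of `A` after the dart `h`. -/
def Words {H V : Type} (f : H → V) (α : H → H) (A : Set H) (h : H) (r : ℕ) : Set (List H) :=
  {l | l.length = r ∧ List.IsChain (fun a b => b ∈ A ∧ f b = f (α a) ∧ b ≠ α a) (h :: l)}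

section

open Classical in
/-- The possible next darts. -/
noncomputable def WNext {H V : Type} [Fintype H] (f : H → V) (α : H → H) (A : Set H) (h : H) :
    Finset H :=
  Finset.univ.filter (fun b => b ∈ A ∧ f b = f (α h) ∧ b ≠ α h)

open Classical in
/-- The words as a finset. -/
noncomputable def WFin {H V : Type} [Fintype H] (f : H → V) (α : H → H) (A : Set H) :
    ℕ → H → Finset (List H)
  | 0, _ => {[]}
  | r + 1, h => (WNext f α A h).biUnion (fun b => (WFin f α A r b).image (List.cons b))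

variable {H V : Type} [Fintype H] {f : H → V} {α : H → H} {A : Set H}

theorem mem_WNext {h b : H} : b ∈ WNext f α A h ↔ b ∈ A ∧ f b = f (α h) ∧ b ≠ α h := by
  classical
  simp [WNext]

theorem WFin_sub (r : ℕ) (h : H) : (WFin f α A r h : Set (List H)) ⊆ Words f α A h r := by
  classical
  induction r generalizing h with
  | zero =>
    intro l hl
    simp only [WFin, Finset.coe_singleton, Set.mem_singleton_iff] at hl
    subst hl
    exact ⟨rfl, by simp⟩
  | succ r ih =>
    intro l hl
    simp only [WFin, Finset.coe_biUnion, Set.mem_iUnion, Finset.mem_coe, Finset.mem_image] at hl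
    obtain ⟨b, hb, l', hl', rfl⟩ := hl
    have h1 := ih b (Finset.mem_coe.2 hl')
    refine ⟨by simp [h1.1], ?_⟩
    rw [List.isChain_cons_cons]
    exact ⟨mem_WNext.1 hb, h1.2⟩

theorem card_WFin_succ (r : ℕ) (h : H) :
    (WFin f α A (r + 1) h).card = ∑ b ∈ WNext f α A h, (WFin f α A r b).card := by
  classical
  rw [WFin, Finset.card_biUnion]
  · refine Finset.sum_congr rfl fun b _ => ?_
    exact Finset.card_image_of_injective _ (List.cons_injective)
  · intro b _ b' _ hbb
    rw [Function.onFun, Finset.disjoint_left]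
    intro l hl hl'
    obtain ⟨l1, _, rfl⟩ := Finset.mem_image.1 hl
    obtain ⟨l2, _, h2⟩ := Finset.mem_image.1 hl'
    exact hbb (List.cons.inj h2).1.symm

end

/-- Jensen's inequality for the logarithm. -/
theorem words_log_sum_ge {ι : Type} (s : Finset ι) (a : ι → ℝ) (hs : s.Nonempty)
    (ha : ∀ i ∈ s, 0 < a i) :
    (s.card : ℝ) * Real.log s.card + ∑ i ∈ s, Real.log (a i) ≤
      (s.card : ℝ) * Real.log (∑ i ∈ s, a i) := by
  have hc : (0 : ℝ) < s.card := by exact_mod_cast hs.card_pos
  have hS : 0 < ∑ i ∈ s, a i := Finset.sum_pos ha hs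
  set m : ℝ := (∑ i ∈ s, a i) / s.card with hm
  have hm0 : 0 < m := by positivity
  have h1 : ∑ i ∈ s, Real.log (a i / m) ≤ ∑ i ∈ s, (a i / m - 1) :=
    Finset.sum_le_sum fun i hi => Real.log_le_sub_one_of_pos (div_pos (ha i hi) hm0)
  have h2 : ∑ i ∈ s, (a i / m - 1) = 0 := by
    rw [Finset.sum_sub_distrib, ← Finset.sum_div, Finset.sum_const, nsmul_eq_mul, mul_one, hm]
    field_simp
    ring
  have h3 : ∑ i ∈ s, Real.log (a i / m) = ∑ i ∈ s, Real.log (a i) - s.card * Real.log m := by
    rw [← nsmul_eq_mul, ← Finset.sum_const, ← Finset.sum_sub_distrib]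
    exact Finset.sum_congr rfl fun i hi => Real.log_div (ha i hi).ne' hm0.ne'
  have h4 : Real.log m = Real.log (∑ i ∈ s, a i) - Real.log s.card :=
    Real.log_div hS.ne' hc.ne'
  rw [h2, h3, h4] at h1
  nlinarith [h1]

section

variable {H V : Type} [Fintype H] {f : H → V} {α : Equiv.Perm H} {A : Set H}

open Classical in
/-- The darts of `A` at the vertex of `g`. -/
noncomputable def WStar (f : H → V) (A : Set H) (g : H) : Finset H :=
  Finset.univ.filter (fun b => b ∈ A ∧ f b = f g)

theorem mem_WStar {g b : H} : b ∈ WStar f A g ↔ b ∈ A ∧ f b = f g := by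
  classical
  simp [WStar]

theorem words_card_WNext (hA : ∀ h ∈ A, α h ∈ A) {h : H} (hh : h ∈ A) :
    (WNext f α A h).card + 1 = (WStar f A (α h)).card := by
  classical
  have h1 : WNext f α A h = (WStar f A (α h)).erase (α h) := by
    ext b
    rw [mem_WNext, Finset.mem_erase, mem_WStar]
    tauto
  rw [h1, Finset.card_erase_add_one]
  exact mem_WStar.2 ⟨hA h hh, rfl⟩

open Classical in
/-- The possible previous darts. -/
noncomputable def WPre (f : H → V) (α : H → H) (A : Set H) (b : H) : Finset H :=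
  Finset.univ.filter (fun h => h ∈ A ∧ b ∈ WNext f α A h)

theorem mem_WPre {α : H → H} {h b : H} : h ∈ WPre f α A b ↔ h ∈ A ∧ b ∈ WNext f α A h := by
  classical
  simp [WPre]

theorem words_card_pre (hα : ∀ h, α (α h) = h) (hA : ∀ h ∈ A, α h ∈ A) {b : H} (hb : b ∈ A) :
    (WPre f α A b).card + 1 = (WStar f A b).card := by
  classical
  have h1 : (WPre f α A b).card = ((WStar f A b).erase b).card := by
    refine Finset.card_bij' (fun h _ => α h) (fun g _ => α g) ?_ ?_ ?_ ?_
    · intro h hh
      obtain ⟨h2, h3⟩ := mem_WPre.1 hh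
      rw [mem_WNext] at h3
      exact Finset.mem_erase.2 ⟨h3.2.2.symm, mem_WStar.2 ⟨hA h h2, h3.2.1.symm⟩⟩
    · intro g hg
      obtain ⟨h2, h3⟩ := Finset.mem_erase.1 hg
      rw [mem_WStar] at h3
      refine mem_WPre.2 ⟨hA g h3.1, mem_WNext.2 ⟨hb, ?_, ?_⟩⟩
      · rw [hα]
        exact h3.2.symm
      · rw [hα]
        exact h2.symm
    · intro h _
      exact hα h
    · intro g _
      exact hα g
  rw [h1, Finset.card_erase_add_one]
  exact mem_WStar.2 ⟨hb, rfl⟩

theorem WNext_nonempty (hA : ∀ h ∈ A, α h ∈ A) (hdeg : ∀ h ∈ A, ∃ h' ∈ A, f h' = f h ∧ h' ≠ h)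
    {h : H} (hh : h ∈ A) : (WNext f α A h).Nonempty := by
  obtain ⟨b, hb, h1, h2⟩ := hdeg (α h) (hA h hh)
  exact ⟨b, mem_WNext.2 ⟨hb, h1, h2⟩⟩

theorem WFin_pos (hA : ∀ h ∈ A, α h ∈ A) (hdeg : ∀ h ∈ A, ∃ h' ∈ A, f h' = f h ∧ h' ≠ h)
    (r : ℕ) {h : H} (hh : h ∈ A) : 0 < (WFin f α A r h).card := by
  classical
  induction r generalizing h with
  | zero => simp [WFin]
  | succ r ih =>
    rw [card_WFin_succ]
    exact Finset.sum_pos (fun b hb => ih (mem_WNext.1 hb).1) (WNext_nonempty hA hdeg hh)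

/-- One step of the Moore bound. -/
theorem words_step (hα : ∀ h, α (α h) = h) (hA : ∀ h ∈ A, α h ∈ A)
    (hdeg : ∀ h ∈ A, ∃ h' ∈ A, f h' = f h ∧ h' ≠ h) (AF : Finset H) (hAF : ∀ h, h ∈ AF ↔ h ∈ A)
    (r : ℕ) :
    ∑ h ∈ AF, Real.log ((WNext f α A h).card) + ∑ h ∈ AF, Real.log ((WFin f α A r h).card) ≤
      ∑ h ∈ AF, Real.log ((WFin f α A (r + 1) h).card) := by
  classical
  have h1 : ∀ h ∈ AF, Real.log ((WNext f α A h).card) +
      ∑ b ∈ WNext f α A h, Real.log ((WFin f α A r b).card) / ((WStar f A b).card - 1 : ℝ) ≤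
      Real.log ((WFin f α A (r + 1) h).card) := by
    intro h hh
    have hh' := (hAF h).1 hh
    have hw := words_card_WNext (f := f) hA hh'
    have hne := WNext_nonempty (f := f) hA hdeg hh'
    have hw0 : (0 : ℝ) < (WNext f α A h).card := by exact_mod_cast hne.card_pos
    have h2 := words_log_sum_ge (WNext f α A h) (fun b => ((WFin f α A r b).card : ℝ)) hne
      (fun b hb => by exact_mod_cast WFin_pos hA hdeg r (mem_WNext.1 hb).1)
    have h3 : ∑ b ∈ WNext f α A h,
        Real.log ((WFin f α A r b).card) / ((WStar f A b).card - 1 : ℝ) =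
        (∑ b ∈ WNext f α A h, Real.log ((WFin f α A r b).card)) / (WNext f α A h).card := by
      rw [Finset.sum_div]
      refine Finset.sum_congr rfl fun b hb => ?_
      have h4 : WStar f A b = WStar f A (α h) := by
        ext g
        rw [mem_WStar, mem_WStar, (mem_WNext.1 hb).2.1]
      rw [h4, ← hw]
      push_cast
      ring_nf
    rw [h3, card_WFin_succ, Nat.cast_sum]
    have h5 := (div_le_div_iff_of_pos_right hw0).2 h2
    rw [add_div, mul_div_cancel_left₀ _ hw0.ne', mul_div_cancel_left₀ _ hw0.ne'] at h5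
    exact h5
  refine le_trans ?_ (Finset.sum_le_sum h1)
  rw [Finset.sum_add_distrib]
  refine add_le_add le_rfl (le_of_eq ?_)
  have h6 : ∑ h ∈ AF, ∑ b ∈ WNext f α A h,
      Real.log ((WFin f α A r b).card) / ((WStar f A b).card - 1 : ℝ) =
      ∑ b ∈ AF, ∑ h ∈ WPre f α A b,
        Real.log ((WFin f α A r b).card) / ((WStar f A b).card - 1 : ℝ) := by
    refine Finset.sum_comm' ?_
    intro h b
    constructor
    · rintro ⟨h2, h3⟩
      exact ⟨mem_WPre.2 ⟨(hAF h).1 h2, h3⟩, (hAF b).2 (mem_WNext.1 h3).1⟩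
    · rintro ⟨h2, h3⟩
      obtain ⟨h4, h5⟩ := mem_WPre.1 h2
      exact ⟨(hAF h).2 h4, h5⟩
  rw [h6]
  refine Finset.sum_congr rfl fun b hb => ?_
  have hb' := (hAF b).1 hb
  have h7 := words_card_pre (f := f) hα hA hb'
  rw [Finset.sum_const, nsmul_eq_mul, ← h7]
  have h8 : ((WPre f α A b).card : ℝ) ≠ 0 := by
    obtain ⟨g, hg, h9, h10⟩ := hdeg b hb'
    have : 1 < (WStar f A b).card := by
      rw [Finset.one_lt_card]
      exact ⟨g, mem_WStar.2 ⟨hg, h9⟩, b, mem_WStar.2 ⟨hb', rfl⟩, h10⟩
    rw [← h7] at this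
    have h11 : 0 < (WPre f α A b).card := by
      omega
    exact_mod_cast h11.ne'
  push_cast
  rw [add_sub_cancel_right]
  exact (mul_div_cancel₀ _ h8).symm

theorem words_iter (hα : ∀ h, α (α h) = h) (hA : ∀ h ∈ A, α h ∈ A)
    (hdeg : ∀ h ∈ A, ∃ h' ∈ A, f h' = f h ∧ h' ≠ h) (AF : Finset H) (hAF : ∀ h, h ∈ AF ↔ h ∈ A)
    (r : ℕ) :
    (r : ℝ) * ∑ h ∈ AF, Real.log ((WNext f α A h).card) ≤
      ∑ h ∈ AF, Real.log ((WFin f α A r h).card) := by
  induction r with
  | zero =>
    simp [WFin]
  | succ r ih =>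
    have h1 := words_step (f := f) hα hA hdeg AF hAF r
    push_cast
    linarith

end

/-- The Moore bound: some dart starts many non-backtracking words. -/
theorem many_words {H V : Type} [Finite H] (f : H → V) (α : Equiv.Perm H)
    (hα : ∀ h, α (α h) = h) (hne : ∀ h, α h ≠ h) (A : Set H) (hA : ∀ h ∈ A, α h ∈ A)
    (hdeg : ∀ h ∈ A, ∃ h' ∈ A, f h' = f h ∧ h' ≠ h) (n : ℕ) (hn : (f '' A).ncard ≤ n)
    (hc : 5 * n < 2 * A.ncard) (q : ℕ) :
    ∃ h ∈ A, n < 2 ^ q → n < (Words f α A h (5 * q)).ncard := by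
  classical
  have := Fintype.ofFinite H
  have _ := hne
  set AF : Finset H := Finset.univ.filter (fun h => h ∈ A) with hAFd
  have hAF : ∀ h, h ∈ AF ↔ h ∈ A := by
    intro h
    simp [hAFd]
  have hcard : A.ncard = AF.card := by
    have : A = (AF : Set H) := by
      ext h
      simp [hAFd]
    rw [this, Set.ncard_coe_finset]
  have hApos : 0 < AF.card := by omega
  -- darts at vertices of degree two
  set D2 : Finset H := AF.filter (fun h => (WStar f A h).card ≤ 2) with hD2
  have hD2c : D2.card ≤ 2 * n := by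
    have h1 : D2.card ≤ ∑ v ∈ (D2.image f), (D2.filter (fun h => f h = v)).card := by
      rw [← Finset.card_eq_sum_card_image]
    have h2 : ∀ v ∈ D2.image f, (D2.filter (fun h => f h = v)).card ≤ 2 := by
      intro v hv
      obtain ⟨g, hg, rfl⟩ := Finset.mem_image.1 hv
      refine (Finset.card_le_card ?_).trans (Finset.mem_filter.1 hg).2
      intro h hh
      obtain ⟨h3, h4⟩ := Finset.mem_filter.1 hh
      exact mem_WStar.2 ⟨(hAF h).1 (Finset.mem_filter.1 h3).1, h4⟩
    have h3 : (D2.image f).card ≤ n := by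
      refine le_trans ?_ hn
      rw [← Set.ncard_coe_finset]
      refine Set.ncard_le_ncard ?_ (Set.toFinite _)
      intro v hv
      obtain ⟨g, hg, rfl⟩ := Finset.mem_image.1 (Finset.mem_coe.1 hv)
      exact ⟨g, (hAF g).1 (Finset.mem_filter.1 hg).1, rfl⟩
    calc D2.card ≤ ∑ v ∈ (D2.image f), (D2.filter (fun h => f h = v)).card := h1
      _ ≤ ∑ _v ∈ (D2.image f), 2 := Finset.sum_le_sum h2
      _ = 2 * (D2.image f).card := by rw [Finset.sum_const, smul_eq_mul, mul_comm]
      _ ≤ 2 * n := by omega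
  -- the average of the logarithms
  have hlog : ((AF.card : ℝ) / 5) * Real.log 2 ≤ ∑ h ∈ AF, Real.log ((WNext f α A h).card) := by
    have h1 : ∑ h ∈ AF, (if α h ∈ D2 then 0 else Real.log 2) ≤
        ∑ h ∈ AF, Real.log ((WNext f α A h).card) := by
      refine Finset.sum_le_sum fun h hh => ?_
      have hh' := (hAF h).1 hh
      have hw := words_card_WNext (f := f) hA hh'
      have hpos := (WNext_nonempty (f := f) hA hdeg hh').card_pos
      split_ifs with h2
      · exact Real.log_nonneg (by exact_mod_cast hpos)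
      · have h3 : 2 ≤ (WNext f α A h).card := by
          by_contra h4
          apply h2
          refine Finset.mem_filter.2 ⟨(hAF _).2 (hA h hh'), ?_⟩
          omega
        exact Real.log_le_log (by norm_num) (by exact_mod_cast h3)
    refine le_trans ?_ h1
    rw [Finset.sum_ite, Finset.sum_const_zero, zero_add, Finset.sum_const, nsmul_eq_mul]
    refine mul_le_mul_of_nonneg_right ?_ (Real.log_nonneg (by norm_num))
    have h5 : AF.card ≤ D2.card + (AF.filter (fun h => α h ∉ D2)).card := by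
      have h6 : (AF.filter (fun h => α h ∈ D2)).card ≤ D2.card := by
        refine Finset.card_le_card_of_injOn (fun h => α h) ?_ (fun x _ y _ h => α.injective h)
        intro h hh
        exact (Finset.mem_filter.1 (Finset.mem_coe.1 hh)).2
      have h7 := Finset.card_filter_add_card_filter_not (s := AF) (fun h => α h ∈ D2)
      omega
    have h8 : AF.card ≤ 5 * (AF.filter (fun h => α h ∉ D2)).card := by omega
    rw [div_le_iff₀ (by norm_num)]
    have : (AF.card : ℝ) ≤ 5 * (AF.filter (fun h => α h ∉ D2)).card := by exact_mod_cast h8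
    linarith
  have hit := words_iter (f := f) hα hA hdeg AF hAF (5 * q)
  have hq : (AF.card : ℝ) * ((q : ℝ) * Real.log 2) ≤
      ∑ h ∈ AF, Real.log ((WFin f α A (5 * q) h).card) := by
    refine le_trans ?_ hit
    push_cast
    have h1 := mul_le_mul_of_nonneg_left hlog (by positivity : (0 : ℝ) ≤ 5 * q)
    refine le_trans (le_of_eq ?_) h1
    ring
  have hex : ∃ h ∈ AF, (q : ℝ) * Real.log 2 ≤ Real.log ((WFin f α A (5 * q) h).card) := by
    by_contra hcon
    simp only [not_exists, not_and, not_le] at hcon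
    have h1 : ∑ h ∈ AF, Real.log ((WFin f α A (5 * q) h).card) <
        ∑ _h ∈ AF, (q : ℝ) * Real.log 2 :=
      Finset.sum_lt_sum_of_nonempty (Finset.card_pos.1 hApos) hcon
    rw [Finset.sum_const, nsmul_eq_mul] at h1
    linarith
  obtain ⟨h, hh, h1⟩ := hex
  have hh' := (hAF h).1 hh
  refine ⟨h, hh', fun hnq => ?_⟩
  have hpos := WFin_pos (f := f) hA hdeg (5 * q) hh'
  have h2 : (2 : ℝ) ^ q ≤ (WFin f α A (5 * q) h).card := by
    have h3 : Real.log ((2 : ℝ) ^ q) ≤ Real.log ((WFin f α A (5 * q) h).card) := by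
      rw [Real.log_pow]
      exact h1
    exact (Real.log_le_log_iff (by positivity) (by exact_mod_cast hpos)).1 h3
  have h4 : 2 ^ q ≤ (WFin f α A (5 * q) h).card := by exact_mod_cast h2
  have h5 : (WFin f α A (5 * q) h).card ≤ (Words f α A h (5 * q)).ncard := by
    rw [← Set.ncard_coe_finset]
    refine Set.ncard_le_ncard (WFin_sub _ _) ?_
    exact (List.finite_length_eq H (5 * q)).subset fun l hl => hl.1
  omega

end KernelCount
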