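import Mathlib
import Pool.Agent.Lib.MP_b69e89_co_L.Coll
import Pool.Agent.Lib.MP_b69e89_co_L.Words

/-!
# MP_b69e89_co : a short cycle in a set of darts with positive excess
-/

namespace KernelCount

open Equiv Equiv.Perm Function

/-- the core: remove darts which are alone at their vertex, one after the other -/
theorem exists_core {H V : Type} [Finite H] (f : H → V) (α : Equiv.Perm H)
    (hα : ∀ h, α (α h) = h) (hne : ∀ h, α h ≠ h) (m : ℕ) :
    ∀ B : Set H, B.ncard ≤ m → (∀ h ∈ B, α h ∈ B) →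
      ∃ A : Set H, A ⊆ B ∧ (∀ h ∈ A, α h ∈ A) ∧ (∀ h ∈ A, ∃ h' ∈ A, f h' = f h ∧ h' ≠ h) ∧
        B.ncard + 2 * (f '' A).ncard ≤ A.ncard + 2 * (f '' B).ncard := by
  induction m with
  | zero =>
    intro B hm hB
    have hB0 : B = ∅ := by
      rw [← Set.ncard_eq_zero]
      omega
    subst hB0
    exact ⟨∅, subset_rfl, by simp, by simp, le_rfl⟩
  | succ m ih =>
    intro B hm hB
    by_cases hall : ∀ h ∈ B, ∃ h' ∈ B, f h' = f h ∧ h' ≠ h
    · exact ⟨B, subset_rfl, hB, hall, le_rfl⟩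
    push Not at hall
    obtain ⟨h, hh, hal⟩ := hall
    have hsub : B \ {h, α h} ⊆ B := Set.sdiff_subset
    have hpair : ({h, α h} : Set H) ⊆ B := by
      intro x hx
      rcases hx with rfl | hx
      · exact hh
      · rw [Set.mem_singleton_iff] at hx
        rw [hx]
        exact hB h hh
    have hc : (B \ {h, α h}).ncard + 2 = B.ncard := by
      rw [← Set.ncard_pair (Ne.symm (hne h))]
      exact Set.ncard_sdiff_add_ncard_of_subset hpair
    have hcl : ∀ x ∈ B \ {h, α h}, α x ∈ B \ {h, α h} := by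
      rintro x ⟨hx1, hx2⟩
      refine ⟨hB x hx1, ?_⟩
      rintro (h1 | h1)
      · exact hx2 (Or.inr (by rw [← h1, hα]; rfl))
      · rw [Set.mem_singleton_iff] at h1
        exact hx2 (Or.inl (α.injective h1))
    obtain ⟨A, hA1, hA2, hA3, hA4⟩ := ih (B \ {h, α h}) (by omega) hcl
    have himg : (f '' (B \ {h, α h})).ncard + 1 ≤ (f '' B).ncard := by
      have h1 : f h ∉ f '' (B \ {h, α h}) := by
        rintro ⟨x, ⟨hx1, hx2⟩, hx3⟩
        exact hx2 (Or.inl (hal x hx1 hx3))
      rw [← Set.ncard_insert_of_notMem h1]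
      apply Set.ncard_le_ncard _ (Set.toFinite _)
      rw [Set.insert_subset_iff]
      exact ⟨⟨h, hh, rfl⟩, Set.image_mono hsub⟩
    exact ⟨A, hA1.trans hsub, hA2, hA3, by omega⟩

theorem word_step {H V : Type} (f : H → V) (α : H → H) (A : Set H) (h : H) (r : ℕ)
    {l : List H} (hl : l ∈ Words f α A h r) (i : ℕ) (hi : i < r) :
    (h :: l).getD (i + 1) h ∈ A ∧ f ((h :: l).getD (i + 1) h) = f (α ((h :: l).getD i h)) ∧
      (h :: l).getD (i + 1) h ≠ α ((h :: l).getD i h) := by
  obtain ⟨hl1, hl2⟩ := hl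
  rw [List.isChain_iff_getElem] at hl2
  have hlen : i + 1 < (h :: l).length := by
    rw [List.length_cons, hl1]
    omega
  have := hl2 i hlen
  rw [List.getD_eq_getElem _ _ hlen, List.getD_eq_getElem _ _ (by omega)]
  exact this

theorem word_mem {H V : Type} (f : H → V) (α : H → H) (A : Set H) (h : H) (hh : h ∈ A) (r : ℕ)
    {l : List H} (hl : l ∈ Words f α A h r) (i : ℕ) (hi : i ≤ r) :
    (h :: l).getD i h ∈ A := by
  cases i with
  | zero => simpa using hh
  | succ i => exact (word_step f α A h r hl i (by omega)).1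

/-- **A short cycle.** -/
theorem short_cycle {H V : Type} [Finite H] (f : H → V) (α : Equiv.Perm H)
    (hα : ∀ h, α (α h) = h) (hne : ∀ h, α h ≠ h) (B : Set H) (hB : ∀ h ∈ B, α h ∈ B)
    (n L q : ℕ) (hn : (f '' B).ncard ≤ n) (hq : n < 2 ^ q) (hL : 2 * n + 2 * L ≤ B.ncard)
    (hc : n < 4 * L) :
    ∃ (S : Set H) (nxt : H → H), S.Nonempty ∧ S ⊆ B ∧ S.ncard ≤ 2 * (5 * q) ∧
      (∀ h ∈ S, nxt h ∈ S ∧ f (nxt h) = f (α h) ∧ nxt h ≠ α h) ∧
      (∀ h ∈ S, ∀ h' ∈ S, f h = f h' → h = h') ∧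
      (∀ h ∈ S, ∀ h' ∈ S, nxt h = nxt h' → h = h') := by
  classical
  obtain ⟨A, hAB, hA, hdeg, hcard⟩ := exists_core f α hα hne B.ncard B le_rfl hB
  have hnA : (f '' A).ncard ≤ (f '' B).ncard :=
    Set.ncard_le_ncard (Set.image_mono hAB) (Set.toFinite _)
  obtain ⟨h, hh, hw⟩ := many_words f α hα hne A hA hdeg (f '' A).ncard le_rfl (by omega) q
  have hw' := hw (by omega)
  obtain ⟨x, hx, y, hy, hxy, he⟩ := Set.exists_ne_map_eq_of_ncard_lt_of_maps_to hw'
    (f := fun l => f (α ((h :: l).getD (5 * q) h)))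
    (fun l hl => ⟨α ((h :: l).getD (5 * q) h),
      hA _ (word_mem f α A h hh (5 * q) hl (5 * q) le_rfl), rfl⟩) (Set.toFinite _)
  obtain ⟨W, hW0, hWA, hWc, hWs⟩ := closed_of_collision f α hα A hA (5 * q)
    (fun i => (h :: x).getD i h) (fun i => (h :: y).getD i h) (by simp)
    (word_step f α A h (5 * q) hx) (word_step f α A h (5 * q) hy)
    (by
      by_contra hcon
      push Not at hcon
      apply hxy
      have h1 : h :: x = h :: y := by
        apply List.ext_getElem
        · rw [List.length_cons, List.length_cons, hx.1, hy.1]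
        · intro i h1 h2
          have h3 : i ≤ 5 * q := by
            rw [List.length_cons, hx.1] at h1
            omega
          have h4 := hcon i h3
          rwa [List.getD_eq_getElem _ _ h1, List.getD_eq_getElem _ _ h2] at h4
      exact (List.cons.inj h1).2) he
  obtain ⟨S, nxt, hS1, hS2, hS3, hS4, hS5⟩ := exists_cycle_in f α hα hne (W : Set H)
    (by simpa using hW0) (by simpa using hWs)
  refine ⟨S, nxt, hS1, fun z hz => hAB (hWA z (by simpa using hS2 hz)), ?_, hS3, hS4, hS5⟩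
  calc S.ncard ≤ (W : Set H).ncard := Set.ncard_le_ncard hS2 (Set.toFinite _)
    _ = W.card := Set.ncard_coe_finset W
    _ ≤ 2 * (5 * q) := hWc

end KernelCount
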