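import Mathlib
import Pool.Agent.Lib.MP_b69e89_co_L.Short

/-!
# MP_b69e89_co : a short cycle in a dense set of darts
-/

namespace KernelCount

open Equiv Equiv.Perm Function

/-- the core: remove vertices with at most `δ` darts, one after the other -/
theorem exists_core_dense {H V : Type} [Finite H] (f : H → V) (α : Equiv.Perm H)
    (hα : ∀ h, α (α h) = h) (δ m : ℕ) :
    ∀ B : Set H, B.ncard ≤ m → (∀ h ∈ B, α h ∈ B) →
      ∃ A : Set H, A ⊆ B ∧ (∀ h ∈ A, α h ∈ A) ∧
        (∀ h ∈ A, δ + 1 ≤ {x | x ∈ A ∧ f x = f h}.ncard) ∧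
        B.ncard + 2 * δ * (f '' A).ncard ≤ A.ncard + 2 * δ * (f '' B).ncard := by
  induction m with
  | zero =>
    intro B hm hB
    have hB0 : B = ∅ := by
      rw [← Set.ncard_eq_zero]
      omega
    subst hB0
    exact ⟨∅, subset_rfl, by simp, by simp, le_rfl⟩
  | succ m ih =>
    intro B hm hB
    by_cases hall : ∀ h ∈ B, δ + 1 ≤ {x | x ∈ B ∧ f x = f h}.ncard
    · exact ⟨B, subset_rfl, hB, hall, le_rfl⟩
    push Not at hall
    obtain ⟨h, hh, hal⟩ := hall
    let B' : Set H := {x | x ∈ B ∧ f x ≠ f h ∧ f (α x) ≠ f h}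
    have hsub : B' ⊆ B := fun x hx => hx.1
    have hcl : ∀ x ∈ B', α x ∈ B' := by
      rintro x ⟨hx1, hx2, hx3⟩
      exact ⟨hB x hx1, hx3, by rw [hα]; exact hx2⟩
    have hdiff : B \ B' ⊆ {x | x ∈ B ∧ f x = f h} ∪ α '' {x | x ∈ B ∧ f x = f h} := by
      rintro x ⟨hx1, hx2⟩
      by_cases h1 : f x = f h
      · exact Or.inl ⟨hx1, h1⟩
      · by_cases h2 : f (α x) = f h
        · exact Or.inr ⟨α x, ⟨hB x hx1, h2⟩, hα x⟩
        · exact absurd ⟨hx1, h1, h2⟩ hx2
    have hd : (B \ B').ncard ≤ 2 * δ := by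
      have h1 := Set.ncard_le_ncard hdiff (Set.toFinite _)
      have h2 := Set.ncard_union_le {x | x ∈ B ∧ f x = f h} (α '' {x | x ∈ B ∧ f x = f h})
      rw [Set.ncard_image_of_injective _ α.injective] at h2
      omega
    have hc : (B \ B').ncard + B'.ncard = B.ncard := Set.ncard_sdiff_add_ncard_of_subset hsub
    have hpos : 0 < (B \ B').ncard := by
      rw [Set.ncard_pos (Set.toFinite _)]
      exact ⟨h, hh, fun hx => hx.2.1 rfl⟩
    obtain ⟨A, hA1, hA2, hA3, hA4⟩ := ih B' (by omega) hcl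
    have himg : (f '' B').ncard + 1 ≤ (f '' B).ncard := by
      have h1 : f h ∉ f '' B' := by
        rintro ⟨x, hx, hx3⟩
        exact hx.2.1 hx3
      rw [← Set.ncard_insert_of_notMem h1]
      apply Set.ncard_le_ncard _ (Set.toFinite _)
      rw [Set.insert_subset_iff]
      exact ⟨⟨h, hh, rfl⟩, Set.image_mono hsub⟩
    refine ⟨A, hA1.trans hsub, hA2, hA3, ?_⟩
    have h5 : 2 * δ * ((f '' B').ncard + 1) ≤ 2 * δ * (f '' B).ncard :=
      Nat.mul_le_mul le_rfl himg
    rw [Nat.mul_add, Nat.mul_one] at h5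
    omega

/-- many words when every vertex has many darts -/
theorem card_WFin_dense {H V : Type} [Fintype H] {f : H → V} {α : Equiv.Perm H} {A : Set H}
    (hA : ∀ h ∈ A, α h ∈ A) (δ : ℕ) (hdeg : ∀ h ∈ A, δ + 1 ≤ {x | x ∈ A ∧ f x = f h}.ncard)
    (r : ℕ) : ∀ h ∈ A, δ ^ r ≤ (WFin f α A r h).card := by
  classical
  induction r with
  | zero =>
    intro h _
    simp [WFin]
  | succ r ih =>
    intro h hh
    rw [card_WFin_succ]
    have h1 : ∀ b ∈ WNext f α A h, δ ^ r ≤ (WFin f α A r b).card :=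
      fun b hb => ih b (mem_WNext.1 hb).1
    have h2 := Finset.card_nsmul_le_sum _ _ _ h1
    have h3 : δ ≤ (WNext f α A h).card := by
      have h4 := words_card_WNext (f := f) (α := α) hA hh
      have h5 := hdeg (α h) (hA h hh)
      have h6 : {x | x ∈ A ∧ f x = f (α h)} = ((WStar f A (α h) : Finset H) : Set H) := by
        ext x
        rw [Finset.mem_coe, mem_WStar]
        rfl
      rw [h6, Set.ncard_coe_finset] at h5
      omega
    refine le_trans ?_ h2
    rw [smul_eq_mul, pow_succ, mul_comm]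
    exact Nat.mul_le_mul h3 le_rfl

/-- **A short cycle in a dense set of darts.** -/
theorem short_cycle_dense {H V : Type} [Finite H] (f : H → V) (α : Equiv.Perm H)
    (hα : ∀ h, α (α h) = h) (hne : ∀ h, α h ≠ h) (B : Set H) (hB : ∀ h ∈ B, α h ∈ B)
    (δ r : ℕ) (hn : (f '' B).ncard < δ ^ r) (hL : 2 * δ * (f '' B).ncard < B.ncard) :
    ∃ (S : Set H) (nxt : H → H), S.Nonempty ∧ S ⊆ B ∧ S.ncard ≤ 2 * r ∧
      (∀ h ∈ S, nxt h ∈ S ∧ f (nxt h) = f (α h) ∧ nxt h ≠ α h) ∧
      (∀ h ∈ S, ∀ h' ∈ S, f h = f h' → h = h') ∧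
      (∀ h ∈ S, ∀ h' ∈ S, nxt h = nxt h' → h = h') := by
  classical
  have := Fintype.ofFinite H
  obtain ⟨A, hAB, hA, hdeg, hcard⟩ := exists_core_dense f α hα δ B.ncard B le_rfl hB
  have hnA : (f '' A).ncard ≤ (f '' B).ncard :=
    Set.ncard_le_ncard (Set.image_mono hAB) (Set.toFinite _)
  have hApos : 0 < A.ncard := by omega
  obtain ⟨h, hh⟩ := (Set.ncard_pos (Set.toFinite _)).1 hApos
  have hw' : (f '' A).ncard < (Words f α A h r).ncard := by
    have h1 := card_WFin_dense (f := f) (α := α) hA δ hdeg r h hh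
    have hfin : (Words f α A h r).Finite :=
      (List.finite_length_eq H r).subset (fun l hl => hl.1)
    have h2 : (WFin f α A r h).card ≤ (Words f α A h r).ncard := by
      rw [← Set.ncard_coe_finset]
      exact Set.ncard_le_ncard (WFin_sub r h) hfin
    omega
  obtain ⟨x, hx, y, hy, hxy, he⟩ := Set.exists_ne_map_eq_of_ncard_lt_of_maps_to hw'
    (f := fun l => f (α ((h :: l).getD r h)))
    (fun l hl => ⟨α ((h :: l).getD r h),
      hA _ (word_mem f α A h hh r hl r le_rfl), rfl⟩) (Set.toFinite _)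
  obtain ⟨W, hW0, hWA, hWc, hWs⟩ := closed_of_collision f α hα A hA r
    (fun i => (h :: x).getD i h) (fun i => (h :: y).getD i h) (by simp)
    (word_step f α A h r hx) (word_step f α A h r hy)
    (by
      by_contra hcon
      push Not at hcon
      apply hxy
      have h1 : h :: x = h :: y := by
        apply List.ext_getElem
        · rw [List.length_cons, List.length_cons, hx.1, hy.1]
        · intro i h1 h2
          have h3 : i ≤ r := by
            rw [List.length_cons, hx.1] at h1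
            omega
          have h4 := hcon i h3
          rwa [List.getD_eq_getElem _ _ h1, List.getD_eq_getElem _ _ h2] at h4
      exact (List.cons.inj h1).2) he
  obtain ⟨S, nxt, hS1, hS2, hS3, hS4, hS5⟩ := exists_cycle_in f α hα hne (W : Set H)
    (by simpa using hW0) (by simpa using hWs)
  refine ⟨S, nxt, hS1, fun z hz => hAB (hWA z (by simpa using hS2 hz)), ?_, hS3, hS4, hS5⟩
  calc S.ncard ≤ (W : Set H).ncard := Set.ncard_le_ncard hS2 (Set.toFinite _)
    _ = W.card := Set.ncard_coe_finset W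
    _ ≤ 2 * r := hWc

end KernelCount
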