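import Mathlib
import Pool.Agent.Lib.MP_b69e89_co_L.Defs
import Pool.Agent.Lib.MP_b69e89_co_L.ShortD

/-!
# MP_b69e89_co : edge-disjoint short cycles in dense multigraphs
-/

namespace KernelCount

open Equiv Equiv.Perm Function

/-- `k` edge-disjoint cycles in a part with many edges -/
theorem exists_disjoint_cycles_dense {H V : Type} [Finite H] (f : H → V) (α : Perm H)
    (hα : ∀ h, α (α h) = h) (hne : ∀ h, α h ≠ h) (P : H → Prop) (hPα : ∀ h, P h → P (α h))
    (δ r k : ℕ) (hr : 1 ≤ r) (hn : (f '' {h | P h}).ncard < δ ^ r)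
    (hk : 2 * δ * (f '' {h | P h}).ncard + 4 * r * k ≤ {h | P h}.ncard) :
    ∀ j ≤ k, ∃ (S : Set H) (nxt : H → H) (lab : H → ℕ),
      (∀ h ∈ S, P h ∧ nxt h ∈ S ∧ f (nxt h) = f (α h) ∧ lab (nxt h) = lab h ∧ α h ∉ S) ∧
      (∀ h ∈ S, ∀ h' ∈ S, nxt h = nxt h' → h = h') ∧
      (∀ h ∈ S, lab h < j) ∧ (∀ i < j, ∃ h ∈ S, lab h = i) ∧ S.ncard ≤ j * (2 * r) := by
  classical
  intro j
  induction j with
  | zero =>
    intro _
    refine ⟨∅, id, fun _ => 0, ?_, ?_, ?_, ?_, ?_⟩
    · intro h hh
      exact absurd hh (Set.notMem_empty h)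
    · intro h hh
      exact absurd hh (Set.notMem_empty h)
    · intro h hh
      exact absurd hh (Set.notMem_empty h)
    · intro i hi
      omega
    · simp
  | succ j ih =>
    intro hj
    obtain ⟨S, nxt, lab, h1, h2, h3, h4, h5⟩ := ih (by omega)
    let B : Set H := {h | P h ∧ h ∉ S ∧ α h ∉ S}
    have hB : ∀ h ∈ B, α h ∈ B := by
      rintro h ⟨ha, hb, hc⟩
      refine ⟨hPα h ha, hc, ?_⟩
      rwa [hα]
    have hsub : {h | P h} ⊆ B ∪ (S ∪ α '' S) := by
      intro h hh
      by_cases ha : h ∈ S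
      · exact Or.inr (Or.inl ha)
      · by_cases hb : α h ∈ S
        · exact Or.inr (Or.inr ⟨α h, hb, hα h⟩)
        · exact Or.inl ⟨hh, ha, hb⟩
    have hcard : {h | P h}.ncard ≤ B.ncard + 2 * S.ncard := by
      have e1 := Set.ncard_le_ncard hsub (Set.toFinite _)
      have e2 := Set.ncard_union_le B (S ∪ α '' S)
      have e3 := Set.ncard_union_le S (α '' S)
      have e4 : (α '' S).ncard = S.ncard := Set.ncard_image_of_injective S α.injective
      omega
    have hnB : (f '' B).ncard ≤ (f '' {h | P h}).ncard :=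
      Set.ncard_le_ncard (Set.image_mono fun h hh => hh.1) (Set.toFinite _)
    have hkq : 2 * δ * (f '' B).ncard < B.ncard := by
      have e1 : 2 * δ * (f '' B).ncard ≤ 2 * δ * (f '' {h | P h}).ncard :=
        Nat.mul_le_mul_left _ hnB
      have e2 : 4 * r * (j + 1) ≤ 4 * r * k := Nat.mul_le_mul_left _ hj
      have e3 : 2 * (j * (2 * r)) + 4 * r = 4 * r * (j + 1) := by ring
      omega
    obtain ⟨S', nxt', g0, g1, g2, g3, g4, g5⟩ := short_cycle_dense f α hα hne B hB δ r
      (lt_of_le_of_lt hnB hn) hkq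
    have hSS' : ∀ h ∈ S', h ∉ S := fun h hh => (g1 hh).2.1
    have hα' : ∀ h ∈ S', α h ∉ S' := by
      intro h hh hh'
      exact (g3 h hh).2.2 (g4 _ (g3 h hh).1 _ hh' (g3 h hh).2.1)
    refine ⟨S ∪ S', fun h => if h ∈ S' then nxt' h else nxt h,
      fun h => if h ∈ S' then j else lab h, ?_, ?_, ?_, ?_, ?_⟩
    · rintro h (hh | hh)
      · have ha : h ∉ S' := fun hb => hSS' h hb hh
        obtain ⟨b1, b2, b3, b4, b5⟩ := h1 h hh
        have hb : nxt h ∉ S' := fun hb => hSS' _ hb b2
        beta_reduce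
        rw [if_neg ha, if_neg hb, if_neg ha]
        refine ⟨b1, Or.inl b2, b3, b4, ?_⟩
        rintro (hc | hc)
        · exact b5 hc
        · have := (g1 hc).2.2
          rw [hα] at this
          exact this hh
      · obtain ⟨b1, b2, b3⟩ := g3 h hh
        beta_reduce
        rw [if_pos hh, if_pos b1, if_pos hh]
        refine ⟨(g1 hh).1, Or.inr b1, b2, rfl, ?_⟩
        rintro (hc | hc)
        · exact (g1 hh).2.2 hc
        · exact hα' h hh hc
    · rintro h (hh | hh) h' (hh' | hh') he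
      · have ha : h ∉ S' := fun hb => hSS' h hb hh
        have ha' : h' ∉ S' := fun hb => hSS' h' hb hh'
        beta_reduce at he
        rw [if_neg ha, if_neg ha'] at he
        exact h2 h hh h' hh' he
      · have ha : h ∉ S' := fun hb => hSS' h hb hh
        beta_reduce at he
        rw [if_neg ha, if_pos hh'] at he
        exfalso
        have e1 := (h1 h hh).2.1
        rw [he] at e1
        exact hSS' _ (g3 h' hh').1 e1
      · have ha' : h' ∉ S' := fun hb => hSS' h' hb hh'
        beta_reduce at he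
        rw [if_pos hh, if_neg ha'] at he
        exfalso
        have e1 := (h1 h' hh').2.1
        rw [← he] at e1
        exact hSS' _ (g3 h hh).1 e1
      · beta_reduce at he
        rw [if_pos hh, if_pos hh'] at he
        exact g5 h hh h' hh' he
    · rintro h (hh | hh)
      · have ha : h ∉ S' := fun hb => hSS' h hb hh
        beta_reduce
        rw [if_neg ha]
        have := h3 h hh
        omega
      · beta_reduce
        rw [if_pos hh]
        omega
    · intro i hi
      rcases Nat.lt_or_ge i j with h | h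
      · obtain ⟨x, hx, hx'⟩ := h4 i h
        have ha : x ∉ S' := fun hb => hSS' x hb hx
        refine ⟨x, Or.inl hx, ?_⟩
        beta_reduce
        rw [if_neg ha]
        exact hx'
      · obtain ⟨x, hx⟩ := g0
        refine ⟨x, Or.inr hx, ?_⟩
        beta_reduce
        rw [if_pos hx]
        omega
    · have e1 := Set.ncard_union_le S S'
      calc (S ∪ S').ncard ≤ S.ncard + S'.ncard := e1
        _ ≤ j * (2 * r) + 2 * r := Nat.add_le_add h5 g2
        _ = (j + 1) * (2 * r) := by ring

/-- a dense part has many prescribed faces -/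
theorem faces_dense {H V : Type} [Finite H] (f : H → V) (α : Perm H)
    (hα : ∀ h, α (α h) = h) (hne : ∀ h, α h ≠ h) (P : H → Prop) (hPα : ∀ h, P h → P (α h))
    (h0 : ∃ h, P h) (δ r k : ℕ) (hr : 1 ≤ r) (hn : (f '' {h | P h}).ncard < δ ^ r)
    (hk : 2 * δ * (f '' {h | P h}).ncard + 4 * r * k ≤ {h | P h}.ncard) :
    Faces f α P k := by
  classical
  obtain ⟨S, nxt, lab, h1, h2, h3, h4, _⟩ :=
    exists_disjoint_cycles_dense f α hα hne P hPα δ r k hr hn hk k le_rfl
  refine ⟨S, nxt, lab, fun h => if h ∈ S then 1 else 0, ?_, h2, h3, h4, ?_⟩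
  · intro h hh
    obtain ⟨b1, b2, b3, b4, b5⟩ := h1 h hh
    refine ⟨b1, b2, b3, b4, ?_⟩
    beta_reduce
    rw [if_neg b5, if_pos b2]
    norm_num
  · obtain ⟨h, hh⟩ := h0
    by_cases ha : h ∈ S
    · exact ⟨α h, hPα h hh, (h1 h ha).2.2.2.2⟩
    · exact ⟨h, hh, ha⟩

end KernelCount
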