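import Mathlib
import Pool.Agent.Lib.MP_b69e89_co_L.Final
import Pool.Agent.Lib.MP_b69e89_co_L.GreedyD
import Pool.Agent.Lib.MP_b69e89_co_L.Converse
import Pool.Agent.Lib.MP_b69e89_co_L.BadBip

/-!
# MP_b69e89_co : few vertices
-/

namespace KernelCount

open Equiv Equiv.Perm Function Empire

/-- every multigraph with minimum degree at least three, few vertices and small excess embeds -/
theorem embH_of_dense {g n m δ r : ℕ} (f : Fin m × Bool → Fin n) (hdeg : ∀ v, 3 ≤ Deg f v)
    (hr : 1 ≤ r) (hn : n < δ ^ r)
    (hl : m - n ≤ 2 * g + 1 + max 1 ((m - δ * n) / (6 * r))) :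
    EmbH g (flipE (Fin m)) f := by
  classical
  rcases Nat.eq_zero_or_pos m with hm | hm
  · subst hm
    have hn : IsEmpty (Fin n) := by
      refine ⟨fun v => ?_⟩
      have h1 := hdeg v
      have h2 : Deg f v = 0 := by
        unfold Deg
        simp
      omega
    refine ⟨sphereMap, sphereMap_genusLE g, fun v => hn.elim v, fun h => h.1.elim0, ?_, ?_, ?_, ?_⟩
    · intro v
      exact hn.elim v
    · rintro ⟨a, _⟩
      exact a.elim0
    · rintro ⟨a, _⟩
      exact a.elim0
    · rintro ⟨a, _⟩
      exact a.elim0
  · have hα := flipE_flipE (E := Fin m)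
    have hne := flipE_ne (E := Fin m)
    -- components
    let s : Setoid (Fin n) := Relation.EqvGen.setoid
      (fun a b => ∃ h, f h = a ∧ f (flipE (Fin m) h) = b)
    let C := Quotient s
    have : Finite C := Quotient.finite _
    have : Fintype C := Fintype.ofFinite C
    let mk : Fin n → C := fun v => Quotient.mk s v
    have hmk : ∀ h, mk (f h) = mk (f (flipE (Fin m) h)) := fun h =>
      Quotient.sound (Relation.EqvGen.rel _ _ ⟨h, rfl, rfl⟩)
    have hsurj : Surjective f := by
      intro v
      have h1 := hdeg v
      by_contra h2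
      push Not at h2
      have h3 : Deg f v = 0 := by
        unfold Deg
        rw [Nat.card_eq_zero]
        exact Or.inl ⟨fun x => h2 x.1 x.2⟩
      omega
    have hdeg' : ∀ h, ∃ a b, f a = f h ∧ f b = f h ∧ a ≠ h ∧ b ≠ h ∧ a ≠ b := by
      intro h
      have h1 := hdeg (f h)
      rw [Deg_eq_card_filter] at h1
      have h2 : 1 < ((Finset.univ.filter fun x => f x = f h).erase h).card := by
        have h3 : h ∈ Finset.univ.filter fun x => f x = f h :=
          Finset.mem_filter.2 ⟨Finset.mem_univ _, rfl⟩
        rw [Finset.card_erase_of_mem h3]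
        omega
      obtain ⟨a, ha, b, hb, hab⟩ := Finset.one_lt_card.1 h2
      rw [Finset.mem_erase, Finset.mem_filter] at ha hb
      exact ⟨a, b, ha.2.2, hb.2.2, ha.1, hb.1, hab⟩
    -- edges and vertices of the components
    let ec : C → ℕ := fun q => (Finset.univ.filter fun e : Fin m => mk (f (e, false)) = q).card
    let vc : C → ℕ := fun q => (Finset.univ.filter fun v : Fin n => mk v = q).card
    have hec : ∑ q, ec q = m := by
      have h1 := Finset.card_eq_sum_card_fiberwise (s := (Finset.univ : Finset (Fin m)))
        (t := (Finset.univ : Finset C)) (f := fun e => mk (f (e, false)))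
        (fun _ _ => Finset.mem_coe.2 (Finset.mem_univ _))
      rw [Finset.card_univ, Fintype.card_fin] at h1
      exact h1.symm
    have hvc : ∑ q, vc q = n := by
      have h1 := Finset.card_eq_sum_card_fiberwise (s := (Finset.univ : Finset (Fin n)))
        (t := (Finset.univ : Finset C)) (f := mk)
        (fun _ _ => Finset.mem_coe.2 (Finset.mem_univ _))
      rw [Finset.card_univ, Fintype.card_fin] at h1
      exact h1.symm
    have hP : ∀ q, {h | mk (f h) = q}.ncard = 2 * ec q := by
      intro q
      have h1 : {h | mk (f h) = q} = (((Finset.univ.filter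
          fun e : Fin m => mk (f (e, false)) = q) ×ˢ (Finset.univ : Finset Bool) :
          Finset (Fin m × Bool)) : Set (Fin m × Bool)) := by
        ext ⟨e, b⟩
        have h2 : mk (f (e, b)) = mk (f (e, false)) := by
          cases b
          · rfl
          · have := hmk (e, true)
            rw [flipE_apply] at this
            exact this
        simp only [Set.mem_ofPred_eq, Finset.coe_product, Finset.coe_filter, Finset.mem_univ,
          true_and, Finset.coe_univ, Set.mem_prod, Set.mem_univ, and_true]
        rw [h2]
      rw [h1, Set.ncard_coe_finset, Finset.card_product, Finset.card_univ, Fintype.card_bool,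
        mul_comm]
    have hfP : ∀ q, (f '' {h | mk (f h) = q}).ncard = vc q := by
      intro q
      have h1 : f '' {h | mk (f h) = q} = ((Finset.univ.filter fun v : Fin n => mk v = q :
          Finset (Fin n)) : Set (Fin n)) := by
        ext v
        simp only [Set.mem_image, Set.mem_ofPred_eq, Finset.coe_filter, Finset.mem_univ, true_and]
        constructor
        · rintro ⟨h, hh, rfl⟩
          exact hh
        · intro hv
          obtain ⟨h, rfl⟩ := hsurj v
          exact ⟨h, hv, rfl⟩
      rw [h1, Set.ncard_coe_finset]
    have h3 : ∀ q, 3 * vc q ≤ 2 * ec q := by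
      intro q
      rw [← hP q]
      have h1 : {h | mk (f h) = q} = ((Finset.univ.filter fun h => mk (f h) = q :
          Finset (Fin m × Bool)) : Set (Fin m × Bool)) := by
        ext h
        simp
      rw [h1, Set.ncard_coe_finset]
      have h2 := Finset.card_eq_sum_card_fiberwise
        (s := (Finset.univ.filter fun h : Fin m × Bool => mk (f h) = q))
        (t := (Finset.univ.filter fun v : Fin n => mk v = q)) (f := f) (by
          intro h hh
          simpa using hh)
      rw [h2]
      have h4 : ∀ v ∈ (Finset.univ.filter fun v : Fin n => mk v = q), 3 ≤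
          ((Finset.univ.filter fun h : Fin m × Bool => mk (f h) = q).filter
            fun h => f h = v).card := by
        intro v hv
        have h5 := hdeg v
        rw [Deg_eq_card_filter] at h5
        refine h5.trans (Finset.card_le_card ?_)
        intro h hh
        rw [Finset.mem_filter] at hh hv
        rw [Finset.mem_filter, Finset.mem_filter]
        refine ⟨⟨Finset.mem_univ _, ?_⟩, hh.2⟩
        rw [hh.2]
        exact hv.2
      have h5 := Finset.card_nsmul_le_sum _ _ 3 h4
      rw [smul_eq_mul, mul_comm] at h5
      exact h5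
    let lc : C → ℕ := fun q => ec q - vc q
    have hlc : ∀ q, ec q = vc q + lc q := by
      intro q
      have := h3 q
      show ec q = vc q + (ec q - vc q)
      omega
    have hlsum : ∑ q, lc q = m - n := by
      have h1 : ∑ q, ec q = ∑ q, vc q + ∑ q, lc q := by
        rw [← Finset.sum_add_distrib]
        exact Finset.sum_congr rfl fun q _ => hlc q
      rw [hec, hvc] at h1
      omega
    set l := m - n with hldef
    set D := 2 * r with hD
    have hDpos : 0 < D := by omega
    let x : C → ℕ := fun q => ec q - δ * vc q
    let k : C → ℕ := fun q => max 2 (x q / D)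
    have hexq : ∀ q : C, ∃ h, mk (f h) = q := by
      intro q
      obtain ⟨v, rfl⟩ := Quotient.exists_rep q
      obtain ⟨h, rfl⟩ := hsurj v
      exact ⟨h, rfl⟩
    have hfaces : ∀ q, Faces f (flipE (Fin m)) (fun h => mk (f h) = q) (k q) := by
      intro q
      have hPα : ∀ h, mk (f h) = q → mk (f (flipE (Fin m) h)) = q := fun h hh => by
        rw [← hmk, hh]
      rcases le_total (x q / D) 2 with h | h
      · have hk2 : k q = 2 := max_eq_left h
        rw [hk2]
        exact faces_two (P := fun h => mk (f h) = q) hα hne hPα
          (fun h h' hh hh' => by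
            show mk (f h') = q
            rw [← hh]
            exact hh') (hexq q) (fun h _ => hdeg' h)
      · have hk2 : k q = x q / D := max_eq_right h
        rw [hk2]
        have hvn : vc q ≤ n := by
          rw [← hvc]
          exact Finset.single_le_sum (f := vc) (fun _ _ => Nat.zero_le _) (Finset.mem_univ q)
        refine faces_dense f (flipE (Fin m)) hα hne (fun h => mk (f h) = q) hPα (hexq q)
          δ r _ hr ?_ ?_
        · rw [hfP]
          omega
        · rw [hP, hfP]
          have h6 : D * (x q / D) ≤ x q := Nat.mul_div_le _ _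
          have h7 : D * 2 ≤ D * (x q / D) := Nat.mul_le_mul_left _ h
          have h8 : x q = ec q - δ * vc q := rfl
          have h9 : 2 * δ * vc q = 2 * (δ * vc q) := by ring
          have h10 : 4 * r * (x q / D) = 2 * (D * (x q / D)) := by
            rw [hD]
            ring
          omega
    obtain ⟨σ, hσ, hF⟩ := exists_rotation_faces f (flipE (Fin m)) hα mk hmk k hfaces
    have hC : 0 < Nat.card C := by
      have : Nonempty C := ⟨mk (f (⟨0, hm⟩, false))⟩
      exact Nat.card_pos
    -- the number of prescribed faces
    have hk1 : Nat.card C ≤ ∑ q, (k q - 1) := by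
      rw [Nat.card_eq_fintype_card, ← Finset.card_univ, Finset.card_eq_sum_ones]
      refine Finset.sum_le_sum fun q _ => ?_
      have : 2 ≤ k q := le_max_left _ _
      omega
    have hxsum : m ≤ δ * n + ∑ q, x q := by
      rw [← hec, ← hvc, Finset.mul_sum, ← Finset.sum_add_distrib]
      refine Finset.sum_le_sum fun q _ => ?_
      have h8 : x q = ec q - δ * vc q := rfl
      omega
    have hk2 : ∑ q, x q ≤ 3 * D * ∑ q, (k q - 1) := by
      rw [Finset.mul_sum]
      refine Finset.sum_le_sum fun q _ => ?_
      exact comp_arith hDpos (le_max_left _ _) (le_max_right _ _)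
    have hk3 : (m - δ * n) / (6 * r) ≤ ∑ q, (k q - 1) := by
      have e : 6 * r = 3 * D := by rw [hD]; ring
      rw [e]
      refine Nat.div_le_of_le_mul (le_trans ?_ hk2)
      omega
    have hk4 : ∑ q, (k q + 1) = ∑ q, (k q - 1) + 2 * Nat.card C := by
      have e1 : 2 * Nat.card C = ∑ _q : C, 2 := by
        rw [Finset.sum_const, Finset.card_univ, Nat.card_eq_fintype_card, smul_eq_mul, mul_comm]
      rw [e1, ← Finset.sum_add_distrib]
      refine Finset.sum_congr rfl fun q _ => ?_
      have : 2 ≤ k q := le_max_left _ _
      omega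
    have hk5 : l ≤ 2 * g + 1 + ∑ q, (k q - 1) := by
      refine hl.trans (Nat.add_le_add_left (max_le ?_ hk3) _)
      omega
    have ec' : C ≃ Fin (Nat.card C) := Finite.equivFin C
    have hne2 : Nonempty (Fin m × Bool) := ⟨(⟨0, hm⟩, false)⟩
    -- the number of vertices of the rotation system
    have hV : cyc σ = n := by
      unfold cyc
      have h2 : Nat.card (Quotient (SameCycle.setoid σ)) = Nat.card (Fin n) := by
        refine Nat.card_eq_of_bijective (Quotient.lift f
          (fun x y hxy => (hσ x y).1 hxy)) ⟨?_, ?_⟩
        · intro a b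
          induction a using Quotient.inductionOn with | _ a => ?_
          induction b using Quotient.inductionOn with | _ b => ?_
          intro hab
          exact Quotient.sound ((hσ a b).2 hab)
        · intro v
          obtain ⟨h, hh⟩ := hsurj v
          exact ⟨Quotient.mk _ h, hh⟩
      rw [h2]
      simp
    have hE : cyc (flipE (Fin m)) = m := cyc_flipE m
    have hpar := euler_parity σ (flipE (Fin m)) hα hne
    refine embH_of_premap (Nat.card C - 1) σ (flipE (Fin m)) hα hne
      (fun h => (ec' (mk (f h))).val) (fun h => by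
        have := (ec' (mk (f h))).isLt
        omega) ?_ f hσ hsurj ?_
    · intro S h1 h2 x y hxy hx
      have hS : ∀ {x y}, f x = f y → (S x ↔ S y) := by
        intro x y hxy
        have := eq_of_sameCycle (f := S) (fun x => propext (h1 x)) ((hσ x y).2 hxy)
        rw [this]
      have hq : mk (f x) = mk (f y) := ec'.injective (Fin.ext hxy)
      have hrel : Relation.EqvGen (fun a b => ∃ h, f h = a ∧ f (flipE (Fin m) h) = b)
          (f x) (f y) := Quotient.exact hq
      -- the value of `S` at a vertex
      have key : ∀ a b, Relation.EqvGen (fun a b => ∃ h, f h = a ∧ f (flipE (Fin m) h) = b) a b →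
          ∀ x y, f x = a → f y = b → (S x ↔ S y) := by
        intro a b hab
        induction hab with
        | rel a b h =>
          obtain ⟨h, ha, hb⟩ := h
          intro x y hx hy
          rw [hS (hx.trans ha.symm), hS (hy.trans hb.symm)]
          exact (h2 h).symm
        | refl a =>
          intro x y hx hy
          exact hS (hx.trans hy.symm)
        | symm a b _ ih =>
          intro x y hx hy
          exact (ih y x hy hx).symm
        | trans a b c _ _ ih1 ih2 =>
          intro x y hx hy
          obtain ⟨z, hz⟩ := hsurj b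
          exact (ih1 x z hx hz).trans (ih2 z y hz hy)
      exact (key _ _ hrel x y rfl rfl).1 hx
    · rw [hV, hE] at hpar ⊢
      obtain ⟨t, ht⟩ := hpar
      have hF' : ((∑ q, (k q - 1) + 2 * Nat.card C : ℕ) : ℤ) ≤ cyc (σ * flipE (Fin m)) := by
        rw [← hk4]
        exact_mod_cast hF
      have hmn : (m : ℤ) ≤ n + (2 * g + 1 + ∑ q, (k q - 1) : ℕ) := by
        have : m ≤ n + (2 * g + 1 + ∑ q, (k q - 1)) := by omega
        exact_mod_cast this
      have hC' : ((Nat.card C - 1 : ℕ) : ℤ) = Nat.card C - 1 := by
        rw [Nat.cast_sub hC]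
        simp
      rw [hC']
      push_cast at hF' hmn
      omega

/-- closed form for few vertices -/
theorem kernelCount_of_dense {g n m δ r : ℕ} (hr : 1 ≤ r) (hn : n < δ ^ r)
    (hl : m - n ≤ 2 * g + 1 + max 1 ((m - δ * n) / (6 * r))) :
    kernelCount g n m = closed n m :=
  kernelCount_of_all fun f hf => embH_of_dense f hf hr hn hl

/-- closed form for few vertices, the density being chosen -/
theorem kernelCount_of_few {g l n r : ℕ} (hr : 1 ≤ r) (hn : n < (l / (2 * n)) ^ r)
    (hl : l ≤ 2 * g + 1 + max 1 (l / (12 * r))) :
    kernelCount g n (n + l) = closed n (n + l) := by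
  refine kernelCount_of_dense (δ := l / (2 * n)) hr hn ?_
  have h1 : l / (2 * n) * n * 2 ≤ l := by
    have := Nat.div_mul_le_self l (2 * n)
    calc l / (2 * n) * n * 2 = l / (2 * n) * (2 * n) := by ring
      _ ≤ l := this
  have h2 : l / (12 * r) ≤ (n + l - l / (2 * n) * n) / (6 * r) := by
    have e : 12 * r = 2 * (6 * r) := by ring
    rw [e, ← Nat.div_div_eq_div_mul]
    refine Nat.div_le_div_right ?_
    omega
  have h3 : max 1 (l / (12 * r)) ≤ max 1 ((n + l - l / (2 * n) * n) / (6 * r)) :=
    max_le_max le_rfl h2
  have e : n + l - n = l := by omega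
  rw [e]
  exact hl.trans (Nat.add_le_add_left h3 _)

/-- the closed form fails from excess `4 g + O(√g)` on if there are more than about `4 √g`
vertices -/
theorem closed_fails_few {g a l d : ℕ} (ha : 3 ≤ a) (hg : 4 * g < (a - 2) ^ 2)
    (hl : a * a ≤ l + 2 * a) (hd : 2 * a + d ≤ 2 * l) :
    kernelCount g (2 * l - d) (3 * l - d) < closed (2 * l - d) (3 * l - d) := by
  rw [lt_iff_bad]
  have h0 : Bad g (2 * a) (a * a) := bad_bipartite ha hg
  have h1 := (h0.loops (l + 2 * a - a * a)).splits (2 * l - d - 2 * a) (by omega)
  have e1 : 2 * a + (2 * l - d - 2 * a) = 2 * l - d := by omega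
  have e2 : a * a + (l + 2 * a - a * a) + (2 * l - d - 2 * a) = 3 * l - d := by omega
  rwa [e1, e2] at h1

/-- the closed form fails above every multigraph of large girth with many edges -/
theorem closed_fails_girth {g n m γ l d : ℕ} (f : Fin m × Bool → Fin n) (hn : 1 ≤ n)
    (hf : ∀ v, 3 ≤ Deg f v) (hγ : GirthGE f γ) (h : 2 * m + γ * (n + 2 * g) < γ * (m + 2))
    (hl : m ≤ n + l) (hd : n + d ≤ 2 * l) :
    kernelCount g (2 * l - d) (3 * l - d) < closed (2 * l - d) (3 * l - d) := by
  rw [lt_iff_bad]
  have h0 : Bad g n m := by
    refine ⟨f, hf, fun hE => ?_⟩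
    have : Nonempty (Fin n) := ⟨⟨0, hn⟩⟩
    have h1 := faces_le f hE hγ (fun v => le_trans (by norm_num) (hf v))
    simp only [Nat.card_eq_fintype_card, Fintype.card_fin] at h1
    omega
  have h1 := (h0.loops (n + l - m)).splits (2 * l - d - n) (by omega)
  have e1 : n + (2 * l - d - n) = 2 * l - d := by omega
  have e2 : m + (n + l - m) + (2 * l - d - n) = 3 * l - d := by omega
  rwa [e1, e2] at h1

end KernelCount
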