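import Mathlib
import Pool.Agent.Lib.MP_b69e89_co_L.Few

/-!
# MP_b69e89_co : dense circulant graphs which do not embed
-/

namespace KernelCount

/-- a simple graph has girth at least three -/
theorem girth_simple {E V : Type} [Finite E] (f : E × Bool → V)
    (loop : ∀ h : E × Bool, f (h.1, !h.2) ≠ f h)
    (simple : ∀ h h' : E × Bool, f h' = f (h.1, !h.2) → f (h'.1, !h'.2) = f h →
      h' = (h.1, !h.2)) : GirthGE f 3 := by
  classical
  intro S nxt hS h1 _ _
  obtain ⟨h, hh⟩ := hS
  have a0 := h1 h hh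
  have a1 := h1 _ a0.1
  have e : ∀ x : E × Bool, flipE E x = (x.1, !x.2) := fun _ => rfl
  rw [e] at a0 a1
  have n01 : h ≠ nxt h := by
    intro he
    have h4 := a0.2.1
    rw [← he] at h4
    exact loop h h4.symm
  have n12 : nxt h ≠ nxt (nxt h) := by
    intro he
    have h4 := a1.2.1
    rw [← he] at h4
    exact loop _ h4.symm
  have n02 : h ≠ nxt (nxt h) := by
    intro he
    have h4 := a1.2.1
    rw [← he] at h4
    exact a0.2.2 (simple h (nxt h) a0.2.1 h4.symm)
  have hsub : (↑({h, nxt h, nxt (nxt h)} : Finset (E × Bool)) : Set (E × Bool)) ⊆ S := by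
    intro x hx
    rw [Finset.mem_coe, Finset.mem_insert, Finset.mem_insert, Finset.mem_singleton] at hx
    rcases hx with rfl | rfl | rfl
    · exact hh
    · exact a0.1
    · exact a1.1
  have hcard : ({h, nxt h, nxt (nxt h)} : Finset (E × Bool)).card = 3 := by
    rw [Finset.card_insert_of_notMem, Finset.card_insert_of_notMem, Finset.card_singleton]
    · rw [Finset.mem_singleton]
      exact n12
    · rw [Finset.mem_insert, Finset.mem_singleton]
      rintro (h4 | h4)
      · exact n01 h4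
      · exact n02 h4
  rw [← hcard, ← Set.ncard_coe_finset]
  exact Set.ncard_le_ncard hsub (Set.toFinite S)

/-- three different half-edges at a vertex -/
theorem three_le_deg {E V : Type} [Finite E] (f : E × Bool → V) (v : V) (x y z : E × Bool)
    (hx : f x = v) (hy : f y = v) (hz : f z = v) (hxy : x ≠ y) (hxz : x ≠ z) (hyz : y ≠ z) :
    3 ≤ Deg f v := by
  classical
  unfold Deg
  have h1 := Nat.card_le_card_of_injective
    (fun i : Fin 3 => (if i = 0 then ⟨x, hx⟩ else if i = 1 then ⟨y, hy⟩ else ⟨z, hz⟩ :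
      {h : E × Bool // f h = v})) (by
      intro i j hij
      fin_cases i <;> fin_cases j <;> simp at hij ⊢ <;> tauto)
  rwa [Nat.card_eq_fintype_card, Fintype.card_fin] at h1

namespace Circ

/-- the sum modulo `n` of a residue and a number at most `n` -/
theorem mod_cases {n i s : ℕ} (hi : i < n) (hs : s ≤ n) :
    (i + s) % n = i + s ∨ ((i + s) % n + n = i + s) := by
  rcases Nat.lt_or_ge (i + s) n with h | h
  · exact Or.inl (Nat.mod_eq_of_lt h)
  · right
    rw [Nat.mod_eq_sub_mod h, Nat.mod_eq_of_lt (by omega)]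
    omega

/-- the half-edges of the circulant graph: edge `e` joins `e % n` and `e % n + e / n + 1` -/
def fC (n m : ℕ) (hn : 0 < n) (h : Fin m × Bool) : Fin n :=
  if h.2 then ⟨(h.1.val % n + (h.1.val / n + 1)) % n, Nat.mod_lt _ hn⟩
    else ⟨h.1.val % n, Nat.mod_lt _ hn⟩

variable {n m : ℕ} {hn : 0 < n}

theorem fC_true (e : Fin m) :
    (fC n m hn (e, true)).val = (e.val % n + (e.val / n + 1)) % n := rfl

theorem fC_false (e : Fin m) : (fC n m hn (e, false)).val = e.val % n := rfl

theorem step (e : Fin m) (hm : 2 * m ≤ n * (n - 1)) (hn : 0 < n) :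
    2 * (e.val / n + 1) ≤ n ∧ (2 * (e.val / n + 1) = n → 2 * (e.val % n) < n) := by
  have h1 := e.isLt
  have h2 := Nat.div_add_mod e.val n
  have h3 := Nat.mod_lt e.val hn
  obtain ⟨k, rfl⟩ : ∃ k, n = k + 1 := ⟨n - 1, by omega⟩
  rw [Nat.add_sub_cancel] at hm
  set q := e.val / (k + 1) with hq
  set r := e.val % (k + 1) with hr
  have h4 : 2 * ((k + 1) * q + r) < (k + 1) * k := by omega
  have h5 : 2 * q < k := by
    by_contra hc
    have h6 : (k + 1) * k ≤ (k + 1) * (2 * q) := Nat.mul_le_mul_left _ (by omega)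
    have h7 : (k + 1) * (2 * q) = 2 * ((k + 1) * q) := by ring
    omega
  refine ⟨by omega, fun h => ?_⟩
  have h6 : 2 * q + 1 = k := by omega
  have h7 : (k + 1) * k = 2 * ((k + 1) * q) + (k + 1) := by
    rw [← h6]
    ring
  omega

theorem ext {e e' : Fin m} (h1 : e.val / n = e'.val / n) (h2 : e.val % n = e'.val % n) :
    e = e' := by
  apply Fin.ext
  rw [← Nat.div_add_mod e.val n, ← Nat.div_add_mod e'.val n, h1, h2]

theorem loop_aux {n r q t : ℕ} (h1 : 2 * (q + 1) ≤ n) (h2 : r < n)
    (h3 : t = r + (q + 1) ∨ t + n = r + (q + 1)) : t ≠ r := by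
  omega

theorem simple_aux {n r q t r' q' t' : ℕ} (s1 : 2 * (q + 1) ≤ n ∧ (2 * (q + 1) = n → 2 * r < n))
    (s2 : 2 * (q' + 1) ≤ n ∧ (2 * (q' + 1) = n → 2 * r' < n))
    (m1 : t = r + (q + 1) ∨ t + n = r + (q + 1))
    (m2 : t' = r' + (q' + 1) ∨ t' + n = r' + (q' + 1)) (h1 : r' = t) (h2 : t' = r) : False := by
  omega

theorem simple_aux' {n r q t q' t' : ℕ} (s1 : 2 * (q + 1) ≤ n) (s2 : 2 * (q' + 1) ≤ n)
    (m1 : t = r + (q + 1) ∨ t + n = r + (q + 1))
    (m2 : t' = r + (q' + 1) ∨ t' + n = r + (q' + 1)) (h1 : t' = t) : q = q' := by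
  omega

theorem loop (hm : 2 * m ≤ n * (n - 1)) (h : Fin m × Bool) :
    fC n m hn (h.1, !h.2) ≠ fC n m hn h := by
  obtain ⟨e, b⟩ := h
  have h1 := (step e hm hn).1
  have h2 := Nat.mod_lt e.val hn
  have h3 := mod_cases h2 (by omega : e.val / n + 1 ≤ n)
  intro hc
  have q := congrArg Fin.val hc
  cases b
  · exact loop_aux h1 h2 h3 q
  · exact loop_aux h1 h2 h3 q.symm

theorem simple (hm : 2 * m ≤ n * (n - 1)) (h h' : Fin m × Bool)
    (h1 : fC n m hn h' = fC n m hn (h.1, !h.2)) (h2 : fC n m hn (h'.1, !h'.2) = fC n m hn h) :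
    h' = (h.1, !h.2) := by
  obtain ⟨e, b⟩ := h
  obtain ⟨e', b'⟩ := h'
  have q1 := congrArg Fin.val h1
  have q2 := congrArg Fin.val h2
  have s1 := step e hm hn
  have s2 := step e' hm hn
  have l1 := Nat.mod_lt e.val hn
  have l2 := Nat.mod_lt e'.val hn
  have m1 := mod_cases l1 (by omega : e.val / n + 1 ≤ n)
  have m2 := mod_cases l2 (by omega : e'.val / n + 1 ≤ n)
  cases b <;> cases b'
  · exact (simple_aux s1 s2 m1 m2 q1 q2).elim
  · have q3 : e'.val % n = e.val % n := q2
    have q4 : (e'.val % n + (e'.val / n + 1)) % n = (e.val % n + (e.val / n + 1)) % n := q1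
    rw [q3] at m2 q4
    rw [ext (n := n) (e := e) (e' := e') (simple_aux' s1.1 s2.1 m1 m2 q4) q3.symm]
    rfl
  · have q3 : e'.val % n = e.val % n := q1
    have q4 : (e'.val % n + (e'.val / n + 1)) % n = (e.val % n + (e.val / n + 1)) % n := q2
    rw [q3] at m2 q4
    rw [ext (n := n) (e := e) (e' := e') (simple_aux' s1.1 s2.1 m1 m2 q4) q3.symm]
    rfl
  · exact (simple_aux s1 s2 m1 m2 q2 q1).elim

theorem deg (hn5 : 5 ≤ n) (hm : 2 * n ≤ m) (v : Fin n) : 3 ≤ Deg (fC n m hn) v := by
  have hv := v.isLt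
  have e1 : v.val / n = 0 := Nat.div_eq_of_lt hv
  have e2 : v.val % n = v.val := Nat.mod_eq_of_lt hv
  have e3 : (n + v.val) % n = v.val := by rw [Nat.add_mod_left, e2]
  -- the vertex before `v`
  obtain ⟨u, hu, hu'⟩ : ∃ u, u < n ∧ (u + 1) % n = v.val := by
    rcases Nat.eq_zero_or_pos v.val with h | h
    · refine ⟨n - 1, by omega, ?_⟩
      rw [Nat.sub_add_cancel (by omega), Nat.mod_self, h]
    · refine ⟨v.val - 1, by omega, ?_⟩
      rw [Nat.sub_add_cancel h, e2]
  refine three_le_deg (fC n m hn) v (⟨v.val, by omega⟩, false) (⟨n + v.val, by omega⟩, false)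
    (⟨u, by omega⟩, true) ?_ ?_ ?_ ?_ ?_ ?_
  · exact Fin.ext e2
  · exact Fin.ext e3
  · apply Fin.ext
    rw [fC_true]
    show (u % n + (u / n + 1)) % n = v.val
    rw [Nat.mod_eq_of_lt hu, Nat.div_eq_of_lt hu, zero_add]
    exact hu'
  · intro h
    have := congrArg (fun x : Fin m × Bool => x.1.val) h
    simp only at this
    omega
  · intro h
    exact absurd (congrArg Prod.snd h) (by simp)
  · intro h
    exact absurd (congrArg Prod.snd h) (by simp)

end Circ

/-- the closed form fails in all columns from `n` on for excess at least `2 n + 6 g - 5` if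
`n (n - 1) / 2 ≥ 3 n + 6 g - 5` -/
theorem closed_fails_simple {g n l d : ℕ} (hn : 5 ≤ n) (hg : 3 * n + 6 * g ≤ n.choose 2 + 5)
    (hl : 2 * n + 6 * g ≤ l + 5) (hd : n + d ≤ 2 * l) :
    kernelCount g (2 * l - d) (3 * l - d) < closed (2 * l - d) (3 * l - d) := by
  have hm : 2 * (3 * n + 6 * g - 5) ≤ n * (n - 1) := by
    have h1 := Nat.choose_two_right n
    have h2 : n * (n - 1) / 2 * 2 ≤ n * (n - 1) := Nat.div_mul_le_self _ _
    omega
  exact closed_fails_girth (γ := 3) (Circ.fC n (3 * n + 6 * g - 5) (by omega)) (by omega)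
    (Circ.deg hn (by omega))
    (girth_simple _ (Circ.loop hm) (Circ.simple hm)) (by omega) (by omega) hd

namespace CircB

/-- the half-edges of the bipartite circulant graph: edge `e` joins `e % a` and
`a + (e % a + e / a) % a` -/
def fB (a m : ℕ) (ha : 0 < a) (h : Fin m × Bool) : Fin (2 * a) :=
  if h.2 then ⟨a + (h.1.val % a + h.1.val / a) % a, by
      have := Nat.mod_lt (h.1.val % a + h.1.val / a) ha
      omega⟩
    else ⟨h.1.val % a, by
      have := Nat.mod_lt h.1.val ha
      omega⟩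

variable {a m : ℕ} {ha : 0 < a}

theorem fB_true (e : Fin m) :
    (fB a m ha (e, true)).val = a + (e.val % a + e.val / a) % a := rfl

theorem fB_false (e : Fin m) : (fB a m ha (e, false)).val = e.val % a := rfl

theorem side (h : Fin m × Bool) : (fB a m ha (h.1, !h.2)).val < a ↔ ¬ (fB a m ha h).val < a := by
  obtain ⟨e, b⟩ := h
  have h1 := Nat.mod_lt e.val ha
  cases b
  · show (fB a m ha (e, true)).val < a ↔ ¬ (fB a m ha (e, false)).val < a
    rw [fB_true, fB_false]
    constructor
    · intro h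
      exact absurd h (by omega)
    · intro h
      exact absurd h1 h
  · show (fB a m ha (e, false)).val < a ↔ ¬ (fB a m ha (e, true)).val < a
    rw [fB_true, fB_false]
    constructor
    · intro _
      omega
    · intro _
      exact h1

theorem aux {a r q t q' t' : ℕ} (s1 : q < a) (s2 : q' < a)
    (m1 : t = r + q ∨ t + a = r + q) (m2 : t' = r + q' ∨ t' + a = r + q')
    (h1 : a + t' = a + t) : q = q' := by
  omega

theorem simple (hm : m ≤ a * a) (h h' : Fin m × Bool)
    (h1 : fB a m ha h' = fB a m ha (h.1, !h.2)) (h2 : fB a m ha (h'.1, !h'.2) = fB a m ha h) :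
    h' = (h.1, !h.2) := by
  obtain ⟨e, b⟩ := h
  obtain ⟨e', b'⟩ := h'
  have q1 := congrArg Fin.val h1
  have q2 := congrArg Fin.val h2
  have l1 := Nat.mod_lt e.val ha
  have l2 := Nat.mod_lt e'.val ha
  have d1 : e.val / a < a := Nat.div_lt_of_lt_mul (lt_of_lt_of_le e.isLt hm)
  have d2 : e'.val / a < a := Nat.div_lt_of_lt_mul (lt_of_lt_of_le e'.isLt hm)
  have m1 := Circ.mod_cases l1 d1.le
  have m2 := Circ.mod_cases l2 d2.le
  cases b <;> cases b'
  · exfalso
    have q3 : e'.val % a = a + (e.val % a + e.val / a) % a := q1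
    omega
  · have q3 : e'.val % a = e.val % a := q2
    have q4 : a + (e'.val % a + e'.val / a) % a = a + (e.val % a + e.val / a) % a := q1
    rw [q3] at m2 q4
    rw [Circ.ext (n := a) (e := e) (e' := e') (aux d1 d2 m1 m2 q4) q3.symm]
    rfl
  · have q3 : e'.val % a = e.val % a := q1
    have q4 : a + (e'.val % a + e'.val / a) % a = a + (e.val % a + e.val / a) % a := q2
    rw [q3] at m2 q4
    rw [Circ.ext (n := a) (e := e) (e' := e') (aux d1 d2 m1 m2 q4) q3.symm]
    rfl
  · exfalso
    have q3 : e'.val % a = a + (e.val % a + e.val / a) % a := q2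
    omega

theorem exists_before {a w s : ℕ} (hw : w < a) (hs : s < a) : ∃ u, u < a ∧ (u + s) % a = w := by
  rcases Nat.lt_or_ge w s with h | h
  · refine ⟨w + a - s, by omega, ?_⟩
    rw [Nat.sub_add_cancel (by omega), Nat.add_mod_right, Nat.mod_eq_of_lt hw]
  · refine ⟨w - s, by omega, ?_⟩
    rw [Nat.sub_add_cancel h, Nat.mod_eq_of_lt hw]

theorem div_mod {a s u : ℕ} (hu : u < a) : (a * s + u) / a = s ∧ (a * s + u) % a = u := by
  constructor
  · rw [Nat.mul_add_div (by omega), Nat.div_eq_of_lt hu, add_zero]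
  · rw [Nat.mul_add_mod, Nat.mod_eq_of_lt hu]

theorem deg (ha3 : 3 ≤ a) (hm : 3 * a ≤ m) (v : Fin (2 * a)) : 3 ≤ Deg (fB a m ha) v := by
  have hv := v.isLt
  rcases Nat.lt_or_ge v.val a with h | h
  · refine three_le_deg (fB a m ha) v (⟨a * 0 + v.val, by omega⟩, false)
      (⟨a * 1 + v.val, by omega⟩, false) (⟨a * 2 + v.val, by omega⟩, false) ?_ ?_ ?_ ?_ ?_ ?_
    · exact Fin.ext (div_mod h).2
    · exact Fin.ext (div_mod h).2
    · exact Fin.ext (div_mod h).2
    · intro h
      have := congrArg (fun x : Fin m × Bool => x.1.val) h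
      simp only at this
      omega
    · intro h
      have := congrArg (fun x : Fin m × Bool => x.1.val) h
      simp only at this
      omega
    · intro h
      have := congrArg (fun x : Fin m × Bool => x.1.val) h
      simp only at this
      omega
  · obtain ⟨u0, hu0, hv0⟩ := exists_before (a := a) (w := v.val - a) (s := 0) (by omega) (by omega)
    obtain ⟨u1, hu1, hv1⟩ := exists_before (a := a) (w := v.val - a) (s := 1) (by omega) (by omega)
    obtain ⟨u2, hu2, hv2⟩ := exists_before (a := a) (w := v.val - a) (s := 2) (by omega) (by omega)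
    have key : ∀ s u (hlt : a * s + u < m), u < a → (u + s) % a = v.val - a →
        fB a m ha (⟨a * s + u, hlt⟩, true) = v := by
      intro s u hlt hu hs
      apply Fin.ext
      rw [fB_true]
      show a + ((a * s + u) % a + (a * s + u) / a) % a = v.val
      rw [(div_mod hu).1, (div_mod hu).2, hs]
      omega
    refine three_le_deg (fB a m ha) v (⟨a * 0 + u0, by omega⟩, true)
      (⟨a * 1 + u1, by omega⟩, true) (⟨a * 2 + u2, by omega⟩, true)
      (key 0 u0 _ hu0 hv0) (key 1 u1 _ hu1 hv1) (key 2 u2 _ hu2 hv2) ?_ ?_ ?_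
    · intro h
      have := congrArg (fun x : Fin m × Bool => x.1.val) h
      simp only at this
      omega
    · intro h
      have := congrArg (fun x : Fin m × Bool => x.1.val) h
      simp only at this
      omega
    · intro h
      have := congrArg (fun x : Fin m × Bool => x.1.val) h
      simp only at this
      omega

end CircB

/-- the closed form fails in all columns from `2 a` on for excess at least `4 g + 2 a - 3` if
`(a - 2)^2 > 4 g` -/
theorem closed_fails_bip {g a l d : ℕ} (ha : 3 ≤ a) (hg : 4 * g < (a - 2) ^ 2)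
    (hl : 4 * g + 2 * a ≤ l + 3) (hd : 2 * a + d ≤ 2 * l) :
    kernelCount g (2 * l - d) (3 * l - d) < closed (2 * l - d) (3 * l - d) := by
  have hm : 4 * a + 4 * g - 3 ≤ a * a := by
    obtain ⟨b, rfl⟩ : ∃ b, a = b + 2 := ⟨a - 2, by omega⟩
    rw [Nat.add_sub_cancel] at hg
    have h1 : (b + 2) * (b + 2) = b ^ 2 + 4 * b + 4 := by ring
    omega
  exact closed_fails_girth (γ := 4) (CircB.fB a (4 * a + 4 * g - 3) (by omega)) (by omega)
    (CircB.deg ha (by omega))
    (girth_bip _ (fun v => v.val < a) CircB.side (CircB.simple hm)) (by omega) (by omega) hd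

/-- the same with the condition of the genus formula for `K_n` -/
theorem closed_fails_column {g n l d : ℕ} (hn : 5 ≤ n) (hg : 12 * g < (n - 3) * (n - 4))
    (hl : 2 * n + 6 * g ≤ l + 5) (hd : n + d ≤ 2 * l) :
    kernelCount g (2 * l - d) (3 * l - d) < closed (2 * l - d) (3 * l - d) := by
  refine closed_fails_simple hn ?_ hl hd
  obtain ⟨k, rfl⟩ : ∃ k, n = k + 4 := ⟨n - 4, by omega⟩
  have e1 : k + 4 - 3 = k + 1 := by omega
  rw [e1, Nat.add_sub_cancel] at hg
  obtain ⟨c, hc⟩ := Nat.even_mul_succ_self k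
  have h1 : (k + 1) * k = c + c := by rw [← hc]; ring
  rw [h1] at hg
  have h2 : (k + 4) * (k + 4 - 1) = (c + 3 * k + 6) * 2 := by
    have e2 : k + 4 - 1 = k + 3 := by omega
    have e3 : (k + 4) * (k + 3) = k * (k + 1) + (6 * k + 12) := by ring
    rw [e2, e3, hc]
    ring
  rw [Nat.choose_two_right, h2, Nat.mul_div_cancel _ (by norm_num)]
  omega

end KernelCount
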