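import Mathlib
import Pool.Agent.Lib.MP_b69e89_co.K47

/-!
# MP_b69e89_co : a multigraph with five vertices and at most nine edges is planar
-/

namespace KernelCount

open Equiv Equiv.Perm Function Empire

/-! ### `K_5` minus an edge -/

def s5 : Fin 18 → Fin 18 := ![1, 2, 3, 0, 5, 6, 7, 4, 9, 10, 11, 8, 13, 14, 12, 16, 17, 15]
def s5' : Fin 18 → Fin 18 := ![3, 0, 1, 2, 7, 4, 5, 6, 11, 8, 9, 10, 14, 12, 13, 17, 15, 16]
def a5 : Fin 18 → Fin 18 := ![6, 12, 8, 15, 10, 13, 0, 17, 2, 14, 4, 16, 1, 5, 9, 3, 11, 7]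
def src5 : Fin 18 → Fin 5 := ![0, 0, 0, 0, 1, 1, 1, 1, 2, 2, 2, 2, 3, 3, 3, 4, 4, 4]

def f5 : Fin 18 → Fin 6 := ![0, 1, 2, 3, 4, 5, 1, 0, 3, 2, 5, 4, 2, 1, 5, 0, 3, 4]

def M5 : CombMap where
  D := Fin 18
  finite_D := inferInstance
  nonempty_D := inferInstance
  σ := ⟨s5, s5', by decide, by decide⟩
  α := ⟨a5, a5, by decide, by decide⟩
  α_ne := by decide
  α_α := by decide
  conn := by
    intro S hσ hα d e h
    let rk : Fin 18 → ℕ := ![0, 3, 2, 1, 3, 2, 1, 4, 3, 5, 4, 4, 4, 3, 5, 2, 4, 3]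
    have key : ∀ n : ℕ, ∀ x : Fin 18, rk x ≤ n → (S x ↔ S (0 : Fin 18)) := by
      intro n
      induction n with
      | zero =>
        intro x hx
        have : ∀ x : Fin 18, rk x ≤ 0 → x = 0 := by decide
        rw [this x hx]
      | succ n ih =>
        intro x hx
        have h3 : ∀ x : Fin 18, x = 0 ∨ rk (s5 x) < rk x ∨ rk (a5 x) < rk x := by decide
        rcases h3 x with h4 | h4 | h4
        · rw [h4]
        · exact (hσ x).symm.trans (ih (s5 x) (by omega))
        · exact (hα x).symm.trans (ih (a5 x) (by omega))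
    exact (key _ e le_rfl).2 ((key _ d le_rfl).1 h)

theorem M5_genusLE : M5.GenusLE 0 := by
  have h1 : 5 ≤ cyc M5.σ := le_cyc_of_label (k := 5) src5
    (by show ∀ x : Fin 18, src5 (s5 x) = src5 x; decide)
    (by show ∀ y : Fin 5, ∃ x : Fin 18, src5 x = y; decide)
  have h2 : 2 * cyc M5.α = 18 := by
    rw [two_mul_cyc M5.α_α M5.α_ne]
    show Nat.card (Fin 18) = 18
    simp
  have h3 : 6 ≤ cyc (M5.σ * M5.α) :=
    le_cyc_of_label (k := 6) f5
      (by show ∀ x : Fin 18, f5 (s5 (a5 x)) = f5 x; decide)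
      (by show ∀ y : Fin 6, ∃ x : Fin 18, f5 x = y; decide)
  unfold CombMap.GenusLE
  have h1' : (5 : ℤ) ≤ cyc M5.σ := by exact_mod_cast h1
  have h2' : (2 : ℤ) * cyc M5.α = 18 := by exact_mod_cast h2
  have h3' : (6 : ℤ) ≤ cyc (M5.σ * M5.α) := by exact_mod_cast h3
  omega

/-- the complete graph on five vertices minus the edge `3 4` is planar -/
theorem K5_minus_embeds :
    EmbedsOn 0 (fun p : {p : Sym2 (Fin 5) // ¬ p.IsDiag ∧ p ≠ s(3, 4)} =>
      (p : Sym2 (Fin 5))) := by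
  refine embedsOn_of_map M5 M5_genusLE src5
    (by show ∀ x : Fin 18, src5 (s5 x) = src5 x; decide) ?_
    (by show ∀ y : Fin 5, ∃ x : Fin 18, src5 x = y; decide) _
    Subtype.val_injective ?_
  · intro d e h
    have h2 : ∀ d e : Fin 18, src5 d = src5 e →
        e = d ∨ e = s5 d ∨ e = s5 (s5 d) ∨ e = s5 (s5 (s5 d)) := by decide
    rcases h2 d e h with h3 | h3 | h3 | h3
    · exact ⟨0, h3.symm⟩
    · exact ⟨1, h3.symm⟩
    · exact ⟨2, h3.symm⟩
    · exact ⟨3, h3.symm⟩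
  · rintro ⟨p, hp, hp'⟩
    induction p using Sym2.ind with | _ u v => ?_
    have huv : u ≠ v := by simpa using hp
    have huv' : ¬ ((u = 3 ∧ v = 4) ∨ (u = 4 ∧ v = 3)) := fun h => hp' (Sym2.eq_iff.2 h)
    have h2 : ∀ u v : Fin 5, u ≠ v → ¬ ((u = 3 ∧ v = 4) ∨ (u = 4 ∧ v = 3)) →
        ∃ d : Fin 18, src5 d = u ∧ src5 (a5 d) = v := by decide
    obtain ⟨d, hd1, hd2⟩ := h2 u v huv huv'
    refine ⟨d, ?_⟩
    show s(src5 d, src5 (a5 d)) = s(u, v)
    rw [hd1, hd2]

/-- a multigraph with five vertices and at most nine edges is planar -/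
theorem embH_five {m : ℕ} (hm : m ≤ 9) (f : Fin m × Bool → Fin 5) :
    EmbH 0 (flipE (Fin m)) f := by
  classical
  obtain ⟨p, hp, hpm⟩ : ∃ p : Sym2 (Fin 5), ¬ p.IsDiag ∧
      ∀ e, s(f (e, false), f (e, true)) ≠ p := by
    by_contra hc
    push Not at hc
    choose e he using hc
    have h1 : Fintype.card {p : Sym2 (Fin 5) // ¬ p.IsDiag} ≤ Fintype.card (Fin m) := by
      refine Fintype.card_le_of_injective (fun p => e p.1 p.2) ?_
      intro a b hab
      have hab' : e a.1 a.2 = e b.1 b.2 := hab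
      apply Subtype.ext
      rw [← he a.1 a.2, ← he b.1 b.2, hab']
    rw [Sym2.card_subtype_not_diag, Fintype.card_fin, Fintype.card_fin] at h1
    have h2 : Nat.choose 5 2 = 10 := by decide
    omega
  induction p using Sym2.ind with | _ u v => ?_
  have huv : u ≠ v := by simpa using hp
  obtain ⟨π, hπu, hπv⟩ : ∃ π : Perm (Fin 5), π u = 3 ∧ π v = 4 := by
    have h2 : ∀ u v : Fin 5, u ≠ v → (swap (swap u 3 v) 4) (swap u 3 u) = 3 ∧
      (swap (swap u 3 v) 4) (swap u 3 v) = 4 := by decide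
    exact ⟨(swap u 3).trans (swap (swap u 3 v) 4), h2 u v huv⟩
  have h1 : EmbH 0 (flipE (Fin m)) (fun x => π (f x)) := by
    rw [embH_flip_iff]
    refine K5_minus_embeds.of_subset _ fun e => ?_
    by_cases hd : (s(π (f (e, false)), π (f (e, true)))).IsDiag
    · exact Or.inl hd
    · refine Or.inr ⟨⟨s(π (f (e, false)), π (f (e, true))), hd, fun h => ?_⟩, rfl⟩
      apply hpm e
      have h3 : Sym2.map π s(f (e, false), f (e, true)) = Sym2.map π s(u, v) := by
        rw [Sym2.map_mk, Sym2.map_mk, hπu, hπv]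
        exact h
      exact Sym2.map.injective π.injective h3
  exact h1.mono π π.injective id injective_id (fun x => rfl) (fun x => rfl)

end KernelCount
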