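import Mathlib
import Pool.Agent.Lib.MP_b69e89_co_L.Upper
import Pool.Agent.Lib.MP_b69e89_co.K47

/-!
# MP_b69e89_co : the complete graph on five vertices does not embed on the sphere
-/

namespace KernelCount

open Function

/-- the ten edges of the complete graph on five vertices, as a function of half-edges -/
def k5f (h : Fin 10 × Bool) : Fin 5 :=
  if h.2 then (![1, 2, 3, 4, 2, 3, 4, 3, 4, 4] : Fin 10 → Fin 5) h.1
  else (![0, 0, 0, 0, 1, 1, 1, 2, 2, 3] : Fin 10 → Fin 5) h.1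

theorem k5f_loop : ∀ (e : Fin 10) (b : Bool), k5f (e, b) ≠ k5f (e, !b) := by decide

theorem k5f_par : ∀ (e : Fin 10) (b : Bool) (e' : Fin 10) (b' : Bool),
    k5f (e, b) = k5f (e', b') → k5f (e, !b) = k5f (e', !b') → e = e' ∧ b = b' := by decide

theorem k5f_cover : ∀ u v : Fin 5, u ≠ v →
    ∃ e : Fin 10, (k5f (e, false) = u ∧ k5f (e, true) = v) ∨
      (k5f (e, false) = v ∧ k5f (e, true) = u) := by decide

theorem k5f_two : ∀ v : Fin 5, ∃ (e : Fin 10) (b : Bool) (e' : Fin 10) (b' : Bool),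
    k5f (e, b) = v ∧ k5f (e', b') = v ∧ e ≠ e' := by decide

theorem k5f_deg (v : Fin 5) : 2 ≤ Deg k5f v := by
  unfold Deg
  obtain ⟨e, b, e', b', h1, h2, h3⟩ := k5f_two v
  have h4 : Nontrivial {h // k5f h = v} :=
    ⟨⟨(e, b), h1⟩, ⟨(e', b'), h2⟩, fun h => h3 (congrArg (fun x => x.1.1) h)⟩
  exact Finite.one_lt_card_iff_nontrivial.2 h4

theorem k5f_girth : GirthGE k5f 3 := by
  intro S nxt hne h1 h2 h3
  by_contra hlt
  obtain ⟨h, hh⟩ := hne
  obtain ⟨a1, a2, a3⟩ := h1 h hh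
  obtain ⟨b1, b2, b3⟩ := h1 (nxt h) a1
  have c1 : nxt h ≠ h := by
    intro hc
    rw [hc] at a2
    exact k5f_loop h.1 h.2 a2
  have c2 : nxt (nxt h) ≠ nxt h := by
    intro hc
    rw [hc] at b2
    exact k5f_loop (nxt h).1 (nxt h).2 b2
  have c3 : nxt (nxt h) = h := by
    by_contra hc
    have h4 : ({h, nxt h, nxt (nxt h)} : Set (Fin 10 × Bool)).ncard = 3 :=
      Set.ncard_eq_three.2 ⟨h, nxt h, nxt (nxt h), c1.symm, fun he => hc he.symm, c2.symm, rfl⟩
    have h5 : ({h, nxt h, nxt (nxt h)} : Set (Fin 10 × Bool)) ⊆ S := by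
      rintro x (rfl | rfl | rfl)
      · exact hh
      · exact a1
      · exact b1
    have h6 := Set.ncard_le_ncard h5 (Set.toFinite S)
    omega
  rw [c3] at b2
  have h7 := k5f_par (nxt h).1 (nxt h).2 h.1 (!h.2) a2 (by
    rw [Bool.not_not]
    exact b2.symm)
  exact a3 (Prod.ext h7.1 h7.2)

/-- the complete graph on five vertices is not planar -/
theorem not_embeds_K5 : ¬ EmbedsOn 0
    (fun p : {p : Sym2 (Fin 5) // ¬ p.IsDiag} => (p : Sym2 (Fin 5))) := by
  intro h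
  have h1 : EmbH 0 (flipE (Fin 10)) k5f := by
    refine (embH_flip_iff_of k5f _ ?_).2 h
    intro p hp
    refine ⟨fun _ => ⟨⟨p, hp⟩, rfl⟩, fun _ => ?_⟩
    induction p using Sym2.ind with | _ u v => ?_
    obtain ⟨e, he⟩ := k5f_cover u v (fun huv => hp (Sym2.mk_isDiag_iff.2 huv))
    exact ⟨e, Sym2.eq_iff.2 he⟩
  have h2 := faces_le k5f h1 k5f_girth k5f_deg
  rw [Nat.card_eq_fintype_card, Nat.card_eq_fintype_card, Fintype.card_fin,
    Fintype.card_fin] at h2
  omega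

end KernelCount
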