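import Mathlib
import Pool.Agent.Lib.MP_b69e89_co_L.Converse
import Pool.Agent.Lib.MP_b69e89_co_L.Final
import Pool.Agent.Lib.MP_b69e89_co_L.BadK33
import Pool.Agent.Lib.MP_b69e89_co_L.NotK5
import Pool.Agent.Lib.MP_b69e89_co_L.Five

/-!
# MP_b69e89_co : the pairs for which the closed form holds on the sphere
-/

namespace KernelCount

theorem planar_bad {l d : ℕ} (hd : d ≤ 2 * l) (h1 : ¬ l ≤ 2) (h2 : ¬ 2 * l - d ≤ 4)
    (h3 : ¬ (2 * l - d = 5 ∧ l ≤ 4)) : Bad 0 (2 * l - d) (3 * l - d) := by
  by_cases h5 : 2 * l - d = 5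
  · have hl : 5 ≤ l := by omega
    have hb : Bad 0 5 (Nat.choose 5 2) := bad_complete not_embeds_K5
    have e0 : Nat.choose 5 2 = 10 := rfl
    rw [e0] at hb
    have h4 := hb.loops (l - 5)
    have e2 : 10 + (l - 5) = 3 * l - d := by omega
    rw [e2] at h4
    rw [h5]
    exact h4
  · have hb : Bad 0 6 9 := bad_K33
    have h4 := (hb.loops (l - 3)).splits (2 * l - d - 6) (by omega)
    have e1 : 6 + (2 * l - d - 6) = 2 * l - d := by omega
    have e2 : 9 + (l - 3) + (2 * l - d - 6) = 3 * l - d := by omega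
    rwa [e1, e2] at h4

theorem kernelCount_five {n m : ℕ} (hn : n = 5) (hm : m ≤ 9) :
    kernelCount 0 n m = closed n m := by
  subst hn
  exact kernelCount_of_all fun f _ => embH_five hm f

/-- the planar case: the pairs for which the value is the closed form -/
theorem planar_iff (l d : ℕ) (hd : d ≤ 2 * l) :
    kernelCount 0 (2 * l - d) (3 * l - d) = closed (2 * l - d) (3 * l - d) ↔
      l ≤ 2 ∨ 2 * l - d ≤ 4 ∨ (2 * l - d = 5 ∧ l ≤ 4) := by
  constructor
  · intro h
    by_contra hc
    push Not at hc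
    obtain ⟨h1, h2, h3⟩ := hc
    have h4 := lt_iff_bad.2 (planar_bad hd (by omega) (by omega) (fun h5 => by
      have := h3 h5.1
      omega))
    exact absurd h (ne_of_lt h4)
  · rintro (h | h | ⟨h, h'⟩)
    · refine kernelCount_of_excess_log ?_
      have e : 3 * l - d - (2 * l - d) = l := by omega
      rw [e]
      have : 1 ≤ max 1 (l / (60 * (Nat.log 2 l + 2))) := le_max_left _ _
      omega
    · exact kernelCount_of_complete h (K4_embeds 0) _
    · exact kernelCount_five h (by omega)

end KernelCount
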